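import Mathlib

/-!
Interface of the proof that `lim U₂(n,3k)/n^{2k}` exists (MP_62f483_co, r divisible by 3).
-/

namespace UF58

open Finset

section general
variable {β α P : Type} [DecidableEq β] [DecidableEq α] [DecidableEq P]

/-- `c` is a (critical) conflict: four blocks whose union has exactly `2k+4(g-2k)` vertices while
all its two and three element subfamilies have larger unions than the critical value. -/
def IsConf (k g : ℕ) (V : β → Finset α) (c : Finset β) : Prop :=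
  c.card = 4 ∧ (c.biUnion V).card = 2 * k + 4 * (g - 2 * k) ∧
    ∀ c' ⊆ c, (c'.card = 2 ∨ c'.card = 3) → 2 * k + c'.card * (g - 2 * k) < (c'.biUnion V).card

/-- sparseness up to `s` blocks. -/
def Sparse (k g s : ℕ) (V : β → Finset α) : Prop :=
  ∀ S : Finset β, S.Nonempty → S.card ≤ s → 2 * k + S.card * (g - 2 * k) ≤ (S.biUnion V).card

/-- incidence graph of blocks, points and conflicts. -/
def incG (pts : β → Finset P) (C : Finset (Finset β)) : SimpleGraph (β ⊕ (P ⊕ Finset β)) where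
  Adj x y := match x, y with
    | Sum.inl B, Sum.inr (Sum.inl v) => v ∈ pts B
    | Sum.inl B, Sum.inr (Sum.inr c) => c ∈ C ∧ B ∈ c
    | Sum.inr (Sum.inl v), Sum.inl B => v ∈ pts B
    | Sum.inr (Sum.inr c), Sum.inl B => c ∈ C ∧ B ∈ c
    | _, _ => False
  symm := by
    constructor
    intro x y h
    match x, y, h with
    | Sum.inl B, Sum.inr (Sum.inl v), h => exact h
    | Sum.inl B, Sum.inr (Sum.inr c), h => exact h
    | Sum.inr (Sum.inl v), Sum.inl B, h => exact h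
    | Sum.inr (Sum.inr c), Sum.inl B, h => exact h
  loopless := by
    constructor
    intro x h
    match x, h with
    | Sum.inl B, h => exact h
    | Sum.inr (Sum.inl v), h => exact h
    | Sum.inr (Sum.inr c), h => exact h

/-- no cycle of length `≤ L`. -/
def NoShortCycle (L : ℕ) (pts : β → Finset P) (C : Finset (Finset β)) : Prop :=
  ∀ (a : β ⊕ (P ⊕ Finset β)) (w : (incG pts C).Walk a a), w.IsCycle → L < w.length

end general

/-- T1: conflict-free almost perfect matchings in sparse structures of large girth. -/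
def T1 : Prop := ∀ (ρ : ℕ) (C0 ε : ℝ), 1 ≤ ρ → 0 < C0 → 0 < ε → ∃ L Δ0 : ℕ, ∀ Δ ≥ Δ0,
  ∀ (β P : Type) [Fintype β] [DecidableEq β] [Fintype P] [DecidableEq P]
    (pts : β → Finset P) (C : Finset (Finset β)),
    (∀ B, (pts B).card = ρ) →
    (∀ v, (univ.filter (fun B => v ∈ pts B)).card ≤ Δ) →
    (∀ c ∈ C, c.card = 4) →
    (∀ B, ((C.filter (fun c => B ∈ c)).card : ℝ) ≤ C0 * (Δ : ℝ) ^ 3) →
    NoShortCycle L pts C →
    ∃ M : Finset β, (∀ B ∈ M, ∀ B' ∈ M, B ≠ B' → Disjoint (pts B) (pts B')) ∧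
      (∀ c ∈ C, ¬ c ⊆ M) ∧ (1 - ε) * (Fintype.card β : ℝ) ≤ (Δ : ℝ) * (M.card : ℝ)

open Classical in
/-- T2: sparse families have no short cycles. -/
def T2 : Prop := ∀ (k g L : ℕ), 1 ≤ k → 2 * k < g → ∃ s : ℕ,
  ∀ (β α : Type) [Fintype β] [DecidableEq β] [DecidableEq α] (V : β → Finset α)
    (pts : β → Finset (Finset α)),
    (∀ B, (V B).card = g) → (∀ B, ∀ p ∈ pts B, p.card = 2 * k ∧ p ⊆ V B) →
    Sparse k g s V → NoShortCycle L pts (univ.filter (fun c => IsConf k g V c))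

open Classical in
/-- T3: sampling. -/
def T3 : Prop := ∀ (k g : ℕ) (U : Finset (Finset (Fin g))) (η : ℝ), 1 ≤ k → 2 * k < g →
  U.Nonempty → (∀ p ∈ U, p.card = 2 * k) → 0 < η → η < 1 →
  ∃ C0 : ℝ, 0 < C0 ∧ ∃ Δ0 : ℕ, ∀ Δ ≥ Δ0, ∀ s : ℕ, ∃ n0 : ℕ, ∀ n ≥ n0,
    ∃ H : Finset (Fin g ↪ Fin n),
      Sparse k g s (fun φ : H => univ.map φ.1) ∧
      (∀ p : Finset (Fin n), (univ.filter (fun φ : H => ∃ q ∈ U, q.map φ.1 = p)).card ≤ Δ) ∧
      (∀ φ : H, ((univ.filter (fun c : Finset H =>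
          IsConf k g (fun φ : H => univ.map φ.1) c ∧ φ ∈ c)).card : ℝ) ≤ C0 * (Δ : ℝ) ^ 3) ∧
      (1 - η) * (Δ : ℝ) * (n.choose (2 * k) : ℝ) ≤ (U.card : ℝ) * (H.card : ℝ)

/-- 2-union-free families. -/
def TwoUnionFree {V : Type} [DecidableEq V] (H : Finset (Finset V)) : Prop :=
  ∀ A B : Finset (Finset V), A ⊆ H → B ⊆ H → 1 ≤ A.card → A.card ≤ 2 → 1 ≤ B.card → B.card ≤ 2 →
    A ≠ B → A.biUnion id ≠ B.biUnion id

/-- The extremal function `U₂(n,r)`. -/
noncomputable def U2 (n r : ℕ) : ℕ :=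
  sSup {e : ℕ | ∃ H : Finset (Finset (Fin n)), (∀ F ∈ H, F.card = r) ∧ TwoUnionFree H ∧ H.card = e}

/-- good families: 3k-uniform, 2-union-free, pairwise intersections at most 2k. -/
structure Good (k g : ℕ) (G : Finset (Finset (Fin g))) : Prop where
  card : ∀ F ∈ G, F.card = 3 * k
  free : TwoUnionFree G
  inter : ∀ F ∈ G, ∀ F' ∈ G, F ≠ F' → (F ∩ F').card ≤ 2 * k

open Classical in
/-- used `2k`-sets of a family: those covered by an edge, and the symmetric differences of two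
edges meeting in `2k` vertices. -/
noncomputable def used (k g : ℕ) (G : Finset (Finset (Fin g))) : Finset (Finset (Fin g)) :=
  (univ.powersetCard (2 * k)).filter (fun p => (∃ F ∈ G, p ⊆ F) ∨
    ∃ F ∈ G, ∃ F' ∈ G, (F ∩ F').card = 2 * k ∧ p = symmDiff F F')

/-- T4: a conflict-free matching of placements of a good family gives a 2-union-free family. -/
def T4 : Prop := ∀ (k g n : ℕ) (G : Finset (Finset (Fin g))), 1 ≤ k → Good k g G →
  ∀ M : Finset (Fin g ↪ Fin n),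
    Sparse k g 4 (fun φ : M => univ.map φ.1) →
    (∀ φ ∈ M, ∀ ψ ∈ M, φ ≠ ψ → ∀ p ∈ used k g G, ∀ q ∈ used k g G, p.map φ ≠ q.map ψ) →
    (∀ c : Finset M, ¬ IsConf k g (fun φ : M => univ.map φ.1) c) →
    ∃ F : Finset (Finset (Fin n)), (∀ e ∈ F, e.card = 3 * k) ∧ TwoUnionFree F ∧
      F.card = M.card * G.card

/-- T5: packing theorem. -/
def T5 : Prop := ∀ (k g : ℕ) (G : Finset (Finset (Fin g))) (ε : ℝ), 1 ≤ k → Good k g G →
  G.Nonempty → 0 < ε → ∃ n0 : ℕ, ∀ n ≥ n0,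
    (1 - ε) * (G.card : ℝ) / ((used k g G).card : ℝ) * (n.choose (2 * k) : ℝ) ≤ (U2 n (3 * k) : ℝ)

end UF58
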