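import Pool.Agent.helper58.UF.Law

/-! Existence of a large conflict-free matching, in terms of the scalar system. -/

namespace UF58
open Finset Classical

noncomputable section

variable {β P : Type} [Fintype β] [Fintype P] (pts : β → Finset P) (C : Finset (Finset β))
variable {ρ Δ K R : ℕ} {p : ℝ} (S : Sys ρ Δ K R p) {L : ℕ}

lemma acc_law (hpts : ∀ B, (pts B).card = ρ) (hdeg : ∀ v, pdeg pts v ≤ Δ)
    (hC4 : ∀ c ∈ C, c.card = 4) (hcdeg : ∀ B, cdeg C B ≤ K)
    (hL : NoShortCycle L pts C) (hLR : 4 * R + 10 ≤ L) (B : β) :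
    Ex (wt pts C S) (fun ω : Crd β P R → Val R => ind (acc pts C ω B)) = ∑ s ∈ range R, S.g s := by
  have hW := isW pts C S
  have h1 : (fun ω : Crd β P R → Val R => ind (acc pts C ω B)) = fun ω : Crd β P R → Val R =>
      ∑ s ∈ range R, ind (lab ω B = s ∧ flag ω B) *
        ∏ h' ∈ hubs pts C B, (1 - ind (blk pts C ω s B h')) := by
    funext ω
    have h2 : ∀ s, ∏ h' ∈ hubs pts C B, (1 - ind (blk pts C ω s B h')) =
        ind (∀ h' ∈ hubs pts C B, ¬ blk pts C ω s B h') := by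
      intro s
      rw [ind_forall]
      exact Finset.prod_congr rfl fun B' _ => (ind_not _).symm
    simp_rw [h2, ← ind_and]
    by_cases hacc : acc pts C ω B
    · rw [Finset.sum_eq_single (lab ω B)]
      · have h3 : (lab ω B = lab ω B ∧ flag ω B) ∧ ∀ h' ∈ hubs pts C B, ¬ blk pts C ω (lab ω B) B h' :=
          ⟨⟨rfl, hacc.2.1⟩, fun h' hh' => hacc.2.2 h' ((mem_hubs pts C).1 hh')⟩
        rw [ind, ind, if_pos hacc, if_pos h3]
      · intro s _ hne
        have : ¬ ((lab ω B = s ∧ flag ω B) ∧ ∀ h' ∈ hubs pts C B, ¬ blk pts C ω s B h') :=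
          fun h => hne h.1.1.symm
        simp only [ind, this, if_false]
      · intro h; exact absurd (Finset.mem_range.2 hacc.1) h
    · have h3 : ∑ s ∈ range R, ind ((lab ω B = s ∧ flag ω B) ∧
          ∀ h' ∈ hubs pts C B, ¬ blk pts C ω s B h') = 0 := by
        refine Finset.sum_eq_zero fun s hs => ?_
        have : ¬ ((lab ω B = s ∧ flag ω B) ∧ ∀ h' ∈ hubs pts C B, ¬ blk pts C ω s B h') := by
          rintro ⟨⟨h4, h5⟩, h6⟩
          refine hacc ⟨by rw [h4]; exact Finset.mem_range.1 hs, h5, fun h' hadj => ?_⟩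
          rw [h4]
          exact h6 h' ((mem_hubs pts C).2 hadj)
        simp only [ind, this, if_false]
      rw [h3]
      simp only [ind, hacc, if_false]
  rw [h1, Ex_sum]
  refine Finset.sum_congr rfl fun s hs => ?_
  have hsR := Finset.mem_range.1 hs
  have hlaw := main_law pts C S hpts hdeg hC4 hcdeg hL hLR s hsR
  have hdepblk := fun (B : β) (h : P ⊕ Finset β) hadj => (dep_all (R := R) pts C s).2.1 B h hadj
  have hadj' : ∀ h' ∈ hubs pts C B, (incG pts C).Adj (Sum.inl B) (Sum.inr h') :=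
    fun h' hh' => (mem_hubs pts C).1 hh'
  have hdeph : ∀ h' ∈ hubs pts C B, Dep (fun ω : Crd β P R → Val R =>
      1 - ind (blk pts C ω s B h'))
      (cv ⁻¹' br (incG pts C) (2 * s + 1) (Sum.inl B) (Sum.inr h')) := by
    intro h' hh' ω ω' hω
    have : blk pts C ω s B h' = blk pts C ω' s B h' := hdepblk B _ (hadj' h' hh') ω ω' hω
    simp only [this]
  have hdepB : Dep (fun ω : Crd β P R → Val R => ind (lab ω B = s ∧ flag ω B))
      (cv ⁻¹' {Sum.inl B}) := by
    intro ω ω' hω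
    have e1 : (lab ω B = s) = (lab ω' B = s) := dep_lab B {Sum.inl B} rfl s ω ω' hω
    have e2 : flag ω B = flag ω' B := dep_flag B {Sum.inl B} rfl ω ω' hω
    simp only [e1, e2]
  rw [Ex_mul hW hdepB (Dep_prod _ _ _ hdeph)]
  · rw [Ex_prod hW _ _ _ hdeph, Ex_labflag pts C S B hsR]
    · have h3 : ∀ h' ∈ hubs pts C B,
          Ex (wt pts C S) (fun ω : Crd β P R → Val R => 1 - ind (blk pts C ω s B h')) = mu S s h' := by
        intro h' hh'
        rw [Ex_one_sub hW, hlaw.1 B h' (hadj' h' hh')]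
        ring
      rw [Finset.prod_congr rfl h3, prod_hubs pts C S (hpts B), S.hg]
      have h6 : S.κ s ^ K = S.κ s ^ (K - cdeg C B) * S.κ s ^ cdeg C B := by
        rw [← pow_add, Nat.sub_add_cancel (hcdeg B)]
      rw [h6]; ring
    · intro h' hh' h'' hh'' hne
      refine Disjoint.preimage _ ?_
      exact br_disjoint (incG pts C) hL (by omega) (hadj' h' hh') (hadj' h'' hh'')
        (fun h => hne (Sum.inr.inj h))
  · rw [Set.disjoint_iUnion₂_right]
    intro h' hh'
    refine Disjoint.preimage _ ?_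
    rw [Set.disjoint_singleton_left]
    exact br_not_mem (incG pts C) hL (by omega) (hadj' h' hh')

theorem exists_matching (hpts : ∀ B, (pts B).card = ρ) (hdeg : ∀ v, pdeg pts v ≤ Δ)
    (hC4 : ∀ c ∈ C, c.card = 4) (hcdeg : ∀ B, cdeg C B ≤ K)
    (hL : NoShortCycle L pts C) (hLR : 4 * R + 10 ≤ L) :
    ∃ M : Finset β, (∀ B ∈ M, ∀ B' ∈ M, B ≠ B' → Disjoint (pts B) (pts B')) ∧
      (∀ c ∈ C, ¬ c ⊆ M) ∧ (Fintype.card β : ℝ) * ∑ s ∈ range R, S.g s ≤ (M.card : ℝ) := by
  have hW := isW pts C S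
  obtain ⟨ω, hω⟩ := exists_ge_Ex hW (fun ω : Crd β P R → Val R => ∑ B : β, ind (acc pts C ω B))
  rw [Ex_sum] at hω
  refine ⟨univ.filter (fun B => acc pts C ω B), ?_, ?_, ?_⟩
  · intro B hB B' hB' hne
    exact acc_disjoint pts C (Finset.mem_filter.1 hB).2 (Finset.mem_filter.1 hB').2 hne
  · intro c hc hsub
    refine acc_conf pts C (ω := ω) hc (Finset.card_pos.1 (by rw [hC4 c hc]; norm_num)) ?_
    intro B hB
    exact (Finset.mem_filter.1 (hsub hB)).2
  · have h1 : ∑ B : β, Ex (wt pts C S) (fun ω : Crd β P R → Val R => ind (acc pts C ω B)) =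
        (Fintype.card β : ℝ) * ∑ s ∈ range R, S.g s := by
      rw [Finset.sum_congr rfl fun B _ => acc_law pts C S hpts hdeg hC4 hcdeg hL hLR B]
      rw [Finset.sum_const, Finset.card_univ, nsmul_eq_mul]
    rw [h1] at hω
    refine hω.trans (le_of_eq ?_)
    simp only [ind]
    rw [Finset.sum_boole]

end
end UF58
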