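import Mathlib

/-! Branches in graphs of large girth. -/

namespace UF58
open SimpleGraph

section
variable {V : Type} (G : SimpleGraph V)

/-- vertices reached by non-backtracking walks starting `x → y` with at most `n` further steps. -/
def br : ℕ → V → V → Set V
  | 0, _, y => {y}
  | n + 1, x, y => {y} ∪ {t | ∃ z, G.Adj y z ∧ z ≠ x ∧ t ∈ br n y z}

lemma br_self (n : ℕ) (x y : V) : y ∈ br G n x y := by
  cases n <;> simp [br]

lemma br_succ_subset (n : ℕ) : ∀ x y : V, br G n x y ⊆ br G (n + 1) x y := by
  induction n with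
  | zero => intro x y t ht; simp only [br, Set.mem_singleton_iff] at ht; subst ht; exact br_self G _ _ _
  | succ n ih =>
    intro x y t ht
    rcases ht with ht | ⟨z, hz, hzx, ht⟩
    · exact Or.inl ht
    · exact Or.inr ⟨z, hz, hzx, ih _ _ ht⟩

lemma br_mono {m n : ℕ} (h : m ≤ n) (x y : V) : br G m x y ⊆ br G n x y := by
  induction n, h using Nat.le_induction with
  | base => exact subset_rfl
  | succ n _ ih => exact ih.trans (br_succ_subset G n x y)

lemma br_path [DecidableEq V] {L : ℕ} (hG : ∀ (a : V) (w : G.Walk a a), w.IsCycle → L < w.length) :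
    ∀ n : ℕ, n + 1 ≤ L → ∀ (x y t : V) (h : G.Adj x y), t ∈ br G n x y →
      ∃ q : G.Walk y t, (Walk.cons h q).IsPath ∧ q.length ≤ n := by
  intro n
  induction n with
  | zero =>
    intro _ x y t h ht
    simp only [br, Set.mem_singleton_iff] at ht
    subst ht
    exact ⟨Walk.nil, by simp [h.ne], by simp⟩
  | succ n ih =>
    intro hn x y t h ht
    rcases ht with ht | ⟨z, hz, hzx, ht⟩
    · have ht' : t = y := ht
      subst ht'
      exact ⟨Walk.nil, by simp [h.ne], by simp⟩
    · obtain ⟨q, hq, hql⟩ := ih (by omega) y z t hz ht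
      refine ⟨Walk.cons hz q, ?_, by simp; omega⟩
      rw [Walk.cons_isPath_iff]
      refine ⟨hq, fun hx => ?_⟩
      have hxy : x ≠ y := h.ne
      -- the initial part up to x
      have hx' : x ∈ q.support := by
        rw [Walk.support_cons] at hx
        rcases List.mem_cons.1 hx with h1 | h1
        · exact absurd h1 hxy
        · exact h1
      have hq' := (Walk.cons_isPath_iff hz q).1 hq
      let r := Walk.cons hz (q.takeUntil x hx')
      have hr : r.IsPath := by
        rw [Walk.cons_isPath_iff]
        exact ⟨hq'.1.takeUntil hx', fun hy => hq'.2 (Walk.support_takeUntil_subset_support q hx' hy)⟩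
      have hcyc : (Walk.cons h r).IsCycle := by
        rw [Walk.cons_isCycle_iff]
        refine ⟨hr, fun he => ?_⟩
        simp only [r, Walk.edges_cons, List.mem_cons] at he
        rcases he with he | he
        · rw [Sym2.eq_iff] at he
          rcases he with ⟨h1, _⟩ | ⟨h1, _⟩
          · exact hxy h1
          · exact hzx h1.symm
        · have h1 := Walk.fst_mem_support_of_mem_edges _ (by rw [Sym2.eq_swap] at he; exact he)
          exact hq'.2 (Walk.support_takeUntil_subset_support q hx' h1)
      have h2 := hG _ _ hcyc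
      have h3 : (q.takeUntil x hx').length ≤ q.length := Walk.length_takeUntil_le q hx'
      simp only [r, Walk.length_cons] at h2
      omega

lemma br_not_mem [DecidableEq V] {L : ℕ} (hG : ∀ (a : V) (w : G.Walk a a), w.IsCycle → L < w.length)
    {n : ℕ} (hn : n + 1 ≤ L) {y z : V} (h : G.Adj y z) : y ∉ br G n y z := by
  intro hy
  obtain ⟨q, hq, _⟩ := br_path G hG n hn y z y h hy
  rw [Walk.cons_isPath_iff] at hq
  exact hq.2 q.end_mem_support

lemma br_disjoint [DecidableEq V] {L : ℕ} (hG : ∀ (a : V) (w : G.Walk a a), w.IsCycle → L < w.length)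
    {n : ℕ} (hn : 2 * n + 2 ≤ L) {y z₁ z₂ : V} (h₁ : G.Adj y z₁) (h₂ : G.Adj y z₂) (hz : z₁ ≠ z₂) :
    Disjoint (br G n y z₁) (br G n y z₂) := by
  rw [Set.disjoint_left]
  intro t ht₁ ht₂
  obtain ⟨q₁, hq₁, hl₁⟩ := br_path G hG n (by omega) y z₁ t h₁ ht₁
  obtain ⟨q₂, hq₂, hl₂⟩ := br_path G hG n (by omega) y z₂ t h₂ ht₂
  rw [Walk.cons_isPath_iff] at hq₁ hq₂
  let w := q₁.append q₂.reverse
  let r := w.bypass
  have hys : y ∉ w.support := by
    intro hy
    rw [Walk.mem_support_append_iff] at hy
    rcases hy with hy | hy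
    · exact hq₁.2 hy
    · rw [Walk.support_reverse, List.mem_reverse] at hy
      exact hq₂.2 hy
  have hyr : y ∉ r.support := fun hy => hys (Walk.support_bypass_subset w hy)
  have hr : r.IsPath := Walk.bypass_isPath w
  have hlr : r.length ≤ w.length := Walk.length_bypass_le w
  have hlw : w.length ≤ 2 * n := by
    simp only [w, Walk.length_append, Walk.length_reverse]; omega
  have hcyc : (Walk.cons h₂.symm (Walk.cons h₁ r)).IsCycle := by
    rw [Walk.cons_isCycle_iff]
    refine ⟨?_, fun he => ?_⟩
    · rw [Walk.cons_isPath_iff]; exact ⟨hr, hyr⟩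
    · simp only [Walk.edges_cons, List.mem_cons] at he
      rcases he with he | he
      · rw [Sym2.eq_iff] at he
        rcases he with ⟨h3, h4⟩ | ⟨h3, _⟩
        · exact h₁.ne h4
        · exact hz h3.symm
      · exact hyr (Walk.snd_mem_support_of_mem_edges _ he)
  have := hG _ _ hcyc
  simp only [Walk.length_cons] at this
  omega

end
end UF58
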