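import Pool.Agent.helper58.UF.Defs

/-! The combinatorial core of T4. -/

namespace UF58
open Finset

/-- abstract setup for T4. -/
structure Setup4 {ι α : Type} [DecidableEq ι] [DecidableEq α] (k g : ℕ) (V : ι → Finset α)
    (Ed Us : ι → Finset α → Prop) : Prop where
  hk : 1 ≤ k
  hg : 3 * k ≤ g
  hV : ∀ φ, (V φ).card = g
  ed_sub : ∀ {φ X}, Ed φ X → X ⊆ V φ
  ed_card : ∀ {φ X}, Ed φ X → X.card = 3 * k
  us_sub : ∀ {φ X p}, Ed φ X → p ⊆ X → p.card = 2 * k → Us φ p
  us_symm : ∀ {φ X Y}, Ed φ X → Ed φ Y → (X ∩ Y).card = 2 * k → Us φ (symmDiff X Y)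
  ed_inter : ∀ {φ X Y}, Ed φ X → Ed φ Y → X ≠ Y → (X ∩ Y).card ≤ 2 * k
  free3 : ∀ {φ X Y Z}, Ed φ X → Ed φ Y → Ed φ Z → X ≠ Y → X ≠ Z → Y ≠ Z → X ∪ Y ≠ X ∪ Z
  free4 : ∀ {φ X Y Z W}, Ed φ X → Ed φ Y → Ed φ Z → Ed φ W → X ≠ Y → X ≠ Z → X ≠ W → Y ≠ Z → Y ≠ W →
    Z ≠ W → X ∪ Y ≠ Z ∪ W
  us_disj : ∀ {φ ψ p}, φ ≠ ψ → Us φ p → Us ψ p → False
  sp : Sparse k g 4 V
  nc : ∀ c : Finset ι, ¬ IsConf k g V c

namespace Setup4

variable {ι α : Type} [DecidableEq ι] [DecidableEq α] {k g : ℕ} {V : ι → Finset α}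
    {Ed Us : ι → Finset α → Prop} (S : Setup4 k g V Ed Us)
include S

lemma P2 {φ ψ : ι} (h : φ ≠ ψ) : (V φ ∩ V ψ).card ≤ 2 * k := by
  have h1 := S.sp {φ, ψ} ⟨φ, by simp⟩ (by rw [Finset.card_pair h]; norm_num)
  rw [Finset.card_pair h] at h1
  have h2 : ({φ, ψ} : Finset ι).biUnion V = V φ ∪ V ψ := by
    rw [Finset.biUnion_insert, Finset.singleton_biUnion]
  rw [h2] at h1
  have h3 := Finset.card_union_add_card_inter (V φ) (V ψ)
  rw [S.hV, S.hV] at h3
  have := S.hg
  omega

lemma P3 {φ ψ χ : ι} (h1 : φ ≠ ψ) (h2 : φ ≠ χ) (h3 : ψ ≠ χ) :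
    3 * g ≤ (V φ ∪ (V ψ ∪ V χ)).card + 4 * k := by
  have hc : ({φ, ψ, χ} : Finset ι).card = 3 := by
    rw [Finset.card_insert_of_notMem (by simp [h1, h2]), Finset.card_pair h3]
  have h4 := S.sp {φ, ψ, χ} ⟨φ, by simp⟩ (by rw [hc]; norm_num)
  rw [hc] at h4
  have h5 : ({φ, ψ, χ} : Finset ι).biUnion V = V φ ∪ (V ψ ∪ V χ) := by
    rw [Finset.biUnion_insert, Finset.biUnion_insert, Finset.singleton_biUnion]
  rw [h5] at h4
  have := S.hg
  have := S.hk
  omega

lemma same {φ ψ : ι} {X : Finset α} (hX : Ed φ X) (h : X ⊆ V ψ) : φ = ψ := by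
  by_contra hne
  have h1 := S.P2 hne
  have h2 := Finset.card_le_card (Finset.subset_inter (S.ed_sub hX) h)
  rw [S.ed_card hX] at h2
  have := S.hk
  omega

lemma symm_card {φ : ι} {X Y : Finset α} (hX : Ed φ X) (hY : Ed φ Y) :
    (symmDiff X Y).card + 2 * (X ∩ Y).card = 6 * k := by
  have h1 : symmDiff X Y = (X \ Y) ∪ (Y \ X) := rfl
  have h2 : Disjoint (X \ Y) (Y \ X) := disjoint_sdiff_sdiff
  rw [h1, Finset.card_union_of_disjoint h2]
  have h3 := Finset.card_sdiff_add_card_inter X Y
  have h4 := Finset.card_sdiff_add_card_inter Y X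
  rw [Finset.inter_comm Y X] at h4
  rw [S.ed_card hX] at h3
  rw [S.ed_card hY] at h4
  omega

/-- two edges of a block whose symmetric difference lies in another block: the symmetric difference
is used and equals the intersection of the two blocks. -/
lemma symm_used {φ ψ : ι} {X Y : Finset α} (hX : Ed φ X) (hY : Ed φ Y) (hne : X ≠ Y) (h : φ ≠ ψ)
    (hsub : symmDiff X Y ⊆ V ψ) : Us φ (symmDiff X Y) ∧ symmDiff X Y = V φ ∩ V ψ ∧
      (symmDiff X Y).card = 2 * k := by
  have h1 : symmDiff X Y ⊆ V φ := by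
    intro x hx
    rw [Finset.mem_symmDiff] at hx
    rcases hx with hx | hx
    · exact S.ed_sub hX hx.1
    · exact S.ed_sub hY hx.1
  have h2 := Finset.card_le_card (Finset.subset_inter h1 hsub)
  have h3 := S.P2 h
  have h4 := S.symm_card hX hY
  have h5 := S.ed_inter hX hY hne
  have h6 : (X ∩ Y).card = 2 * k := by omega
  refine ⟨S.us_symm hX hY h6, ?_, by omega⟩
  exact Finset.eq_of_subset_of_card_le (Finset.subset_inter h1 hsub) (by omega)

lemma case3 {a b d : ι} {A B D : Finset α} (hA : Ed a A) (hB : Ed b B) (hD : Ed d D)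
    (hAB : A ≠ B) (hAD : A ≠ D) (hBD : B ≠ D) : A ∪ B ≠ A ∪ D := by
  intro heq
  have hsub1 : B \ D ⊆ A := by
    intro x hx
    rw [Finset.mem_sdiff] at hx
    have : x ∈ A ∪ D := by rw [← heq]; exact Finset.mem_union_right _ hx.1
    rcases Finset.mem_union.1 this with h | h
    · exact h
    · exact absurd h hx.2
  have hsub2 : D \ B ⊆ A := by
    intro x hx
    rw [Finset.mem_sdiff] at hx
    have : x ∈ A ∪ B := by rw [heq]; exact Finset.mem_union_right _ hx.1
    rcases Finset.mem_union.1 this with h | h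
    · exact h
    · exact absurd h hx.2
  by_cases hbd : b = d
  · subst hbd
    by_cases hab : a = b
    · subst hab
      exact S.free3 hA hB hD hAB hAD hBD heq
    · have hs : symmDiff B D ⊆ A := Finset.union_subset hsub1 hsub2
      obtain ⟨h1, h2, h3⟩ := S.symm_used hB hD hBD (Ne.symm hab) (hs.trans (S.ed_sub hA))
      exact S.us_disj hab (S.us_sub hA hs h3) h1
  · have hab : a ≠ b := by
      rintro rfl
      refine hbd (S.same hD ?_).symm
      intro x hx
      have : x ∈ A ∪ B := by rw [heq]; exact Finset.mem_union_right _ hx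
      rcases Finset.mem_union.1 this with h | h
      · exact S.ed_sub hA h
      · exact S.ed_sub hB h
    have had : a ≠ d := by
      rintro rfl
      refine hbd (S.same hB ?_)
      intro x hx
      have : x ∈ A ∪ D := by rw [← heq]; exact Finset.mem_union_right _ hx
      rcases Finset.mem_union.1 this with h | h
      · exact S.ed_sub hA h
      · exact S.ed_sub hD h
    have h1 : (B ∩ D).card ≤ 2 * k :=
      (Finset.card_le_card (Finset.inter_subset_inter (S.ed_sub hB) (S.ed_sub hD))).trans (S.P2 hbd)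
    have h2 : (B ∩ D).card ≠ 2 * k := fun h =>
      S.us_disj hbd (S.us_sub hB Finset.inter_subset_left h) (S.us_sub hD Finset.inter_subset_right h)
    have h3 := Finset.card_sdiff_add_card_inter B D
    rw [S.ed_card hB] at h3
    have h4 : (B \ D).card ≤ (A ∩ B).card :=
      Finset.card_le_card (Finset.subset_inter hsub1 Finset.sdiff_subset)
    have h5 := Finset.card_union_add_card_inter A B
    rw [S.ed_card hA, S.ed_card hB] at h5
    have h6 := S.P3 hab had hbd
    have h7 : V a ∪ (V b ∪ V d) ⊆ (A ∪ B) ∪ ((V a \ A) ∪ ((V b \ B) ∪ (V d \ D))) := by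
      intro x hx
      simp only [Finset.mem_union, Finset.mem_sdiff] at hx ⊢
      have h8 : x ∈ D → x ∈ A ∨ x ∈ B := fun h => by
        have : x ∈ A ∪ B := by rw [heq]; exact Finset.mem_union_right _ h
        exact Finset.mem_union.1 this
      tauto
    have h8 := Finset.card_le_card h7
    have h9 : ((A ∪ B) ∪ ((V a \ A) ∪ ((V b \ B) ∪ (V d \ D)))).card ≤
        (A ∪ B).card + ((V a \ A).card + ((V b \ B).card + (V d \ D).card)) :=
      (Finset.card_union_le _ _).trans (Nat.add_le_add_left ((Finset.card_union_le _ _).trans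
        (Nat.add_le_add_left (Finset.card_union_le _ _) _)) _)
    have e : ∀ {φ X}, Ed φ X → (V φ \ X).card = g - 3 * k := fun {φ X} h => by
      rw [Finset.card_sdiff_of_subset (S.ed_sub h), S.hV, S.ed_card h]
    rw [e hA, e hB, e hD] at h9
    have := S.hg
    omega

/-- if two of the four edges on different sides share a block, contradiction. -/
lemma case4_AC {a b d : ι} {A B C D : Finset α} (hA : Ed a A) (hC : Ed a C) (hB : Ed b B) (hD : Ed d D)
    (hab : a ≠ b) (had : a ≠ d) (hAC : A ≠ C) (hBD : B ≠ D) (heq : A ∪ B = C ∪ D) : False := by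
  have hm1 : ∀ x, x ∈ A ∨ x ∈ B → x ∈ C ∨ x ∈ D := fun x h =>
    Finset.mem_union.1 (heq ▸ Finset.mem_union.2 h)
  have hm2 : ∀ x, x ∈ C ∨ x ∈ D → x ∈ A ∨ x ∈ B := fun x h =>
    Finset.mem_union.1 (heq ▸ Finset.mem_union.2 h)
  by_cases hbd : b = d
  · subst hbd
    have h1 : symmDiff A C ⊆ V b := by
      intro x hx
      rw [Finset.mem_symmDiff] at hx
      rcases hx with hx | hx
      · rcases hm1 x (Or.inl hx.1) with h | h
        · exact absurd h hx.2
        · exact S.ed_sub hD h
      · rcases hm2 x (Or.inl hx.1) with h | h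
        · exact absurd h hx.2
        · exact S.ed_sub hB h
    have h2 : symmDiff B D ⊆ V a := by
      intro x hx
      rw [Finset.mem_symmDiff] at hx
      rcases hx with hx | hx
      · rcases hm1 x (Or.inr hx.1) with h | h
        · exact S.ed_sub hC h
        · exact absurd h hx.2
      · rcases hm2 x (Or.inr hx.1) with h | h
        · exact S.ed_sub hA h
        · exact absurd h hx.2
    obtain ⟨h3, h4, _⟩ := S.symm_used hA hC hAC hab h1
    obtain ⟨h5, h6, _⟩ := S.symm_used hB hD hBD (Ne.symm hab) h2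
    rw [h4] at h3
    rw [h6, Finset.inter_comm] at h5
    exact S.us_disj hab h3 h5
  · have hY : B \ V a = D \ V a := by
      ext x
      simp only [Finset.mem_sdiff]
      constructor
      · rintro ⟨h1, h2⟩
        refine ⟨?_, h2⟩
        rcases hm1 x (Or.inr h1) with h | h
        · exact absurd (S.ed_sub hC h) h2
        · exact h
      · rintro ⟨h1, h2⟩
        refine ⟨?_, h2⟩
        rcases hm2 x (Or.inr h1) with h | h
        · exact absurd (S.ed_sub hA h) h2
        · exact h
    have h1 : (B \ V a).card ≤ 2 * k := by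
      refine (Finset.card_le_card ?_).trans (S.P2 hbd)
      refine Finset.subset_inter (Finset.sdiff_subset.trans (S.ed_sub hB)) ?_
      rw [hY]
      exact Finset.sdiff_subset.trans (S.ed_sub hD)
    have h2 : (B \ V a).card ≠ 2 * k := fun h =>
      S.us_disj hbd (S.us_sub hB Finset.sdiff_subset h)
        (S.us_sub hD (hY ▸ Finset.sdiff_subset) h)
    have h6 := S.P3 hab had hbd
    have h7 : V a ∪ (V b ∪ V d) ⊆ V a ∪ ((B \ V a) ∪ ((V b \ B) ∪ (V d \ D))) := by
      intro x hx
      have h8 : x ∈ D → x ∉ V a → x ∈ B := fun h h' =>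
        (Finset.mem_sdiff.1 (hY ▸ Finset.mem_sdiff.2 ⟨h, h'⟩)).1
      simp only [Finset.mem_union, Finset.mem_sdiff] at hx ⊢
      tauto
    have h8 := Finset.card_le_card h7
    have h9 : (V a ∪ ((B \ V a) ∪ ((V b \ B) ∪ (V d \ D)))).card ≤
        (V a).card + ((B \ V a).card + ((V b \ B).card + (V d \ D).card)) :=
      (Finset.card_union_le _ _).trans (Nat.add_le_add_left ((Finset.card_union_le _ _).trans
        (Nat.add_le_add_left (Finset.card_union_le _ _) _)) _)
    have e : ∀ {φ X}, Ed φ X → (V φ \ X).card = g - 3 * k := fun {φ X} h => by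
      rw [Finset.card_sdiff_of_subset (S.ed_sub h), S.hV, S.ed_card h]
    rw [e hB, e hD, S.hV] at h9
    have := S.hg
    omega

/-- four edges in four different blocks. -/
lemma case4_distinct (φ : Fin 4 → ι) (hφ : Function.Injective φ) (X : Fin 4 → Finset α)
    (hX : ∀ i, Ed (φ i) (X i)) (hU : (univ.biUnion X).card ≤ 6 * k)
    (hcov : ∀ i, X i ⊆ (univ.erase i).biUnion X) : False := by
  have e : ∀ i, (V (φ i) \ X i).card = g - 3 * k := fun i => by
    rw [Finset.card_sdiff_of_subset (S.ed_sub (hX i)), S.hV, S.ed_card (hX i)]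
  have hg := S.hg
  have hk := S.hk
  -- the union of the four blocks
  set c : Finset ι := univ.image φ with hc
  have hcc : c.card = 4 := by
    rw [hc, Finset.card_image_of_injective _ hφ]; simp
  have hcb : c.biUnion V = univ.biUnion (fun i => V (φ i)) := by
    rw [hc, Finset.image_biUnion]
  have hlow := S.sp c (Finset.card_pos.1 (by omega)) hcc.le
  rw [hcc] at hlow
  have hup : ∀ (i : Fin 4) (v : α), v ∈ V (φ i) → v ∉ X i →
      (∃ j, j ≠ i ∧ v ∈ V (φ j)) → (c.biUnion V).card < 2 * k + 4 * (g - 2 * k) := by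
    intro i v hv hvX ⟨j, hji, hvj⟩
    have h1 : c.biUnion V ⊆ univ.biUnion X ∪ univ.biUnion (fun l => if l = i then (V (φ l) \ X l).erase v
        else V (φ l) \ X l) := by
      rw [hcb]
      intro x hx
      rw [Finset.mem_biUnion] at hx
      obtain ⟨l, _, hl⟩ := hx
      rw [Finset.mem_union, Finset.mem_biUnion, Finset.mem_biUnion]
      by_cases hxl : x ∈ X l
      · exact Or.inl ⟨l, Finset.mem_univ _, hxl⟩
      · by_cases hli : l = i
        · by_cases hxv : x = v
          · by_cases hxj : x ∈ X j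
            · exact Or.inl ⟨j, Finset.mem_univ _, hxj⟩
            · refine Or.inr ⟨j, Finset.mem_univ _, ?_⟩
              rw [if_neg hji, Finset.mem_sdiff]
              exact ⟨hxv ▸ hvj, hxj⟩
          · refine Or.inr ⟨l, Finset.mem_univ _, ?_⟩
            rw [if_pos hli, Finset.mem_erase, Finset.mem_sdiff]
            exact ⟨hxv, hl, hxl⟩
        · refine Or.inr ⟨l, Finset.mem_univ _, ?_⟩
          rw [if_neg hli, Finset.mem_sdiff]
          exact ⟨hl, hxl⟩
    have h2 := (Finset.card_le_card h1).trans (Finset.card_union_le _ _)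
    have h3 : (univ.biUnion (fun l => if l = i then (V (φ l) \ X l).erase v
        else V (φ l) \ X l)).card ≤ ∑ l : Fin 4, (if l = i then (g - 3 * k - 1) else g - 3 * k) := by
      refine Finset.card_biUnion_le.trans (Finset.sum_le_sum fun l _ => ?_)
      split_ifs with hli
      · rw [Finset.card_erase_of_mem, e]
        rw [hli, Finset.mem_sdiff]; exact ⟨hv, hvX⟩
      · rw [e]
    have h4 : 0 < g - 3 * k := by
      rw [← e i]; exact Finset.card_pos.2 ⟨v, Finset.mem_sdiff.2 ⟨hv, hvX⟩⟩
    have h5 : ∑ l : Fin 4, (if l = i then (g - 3 * k - 1) else g - 3 * k) =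
        (g - 3 * k - 1) + 3 * (g - 3 * k) := by
      rw [Finset.sum_ite, Finset.filter_eq' univ i]
      have : (univ.filter (fun x : Fin 4 => ¬ x = i)).card = 3 := by
        rw [Finset.filter_ne' univ i, Finset.card_erase_of_mem (Finset.mem_univ _)]; simp
      simp [this]
    rw [h5] at h3
    omega
  have hpair : ∀ i j, i ≠ j → (V (φ i) ∩ V (φ j)).card < 2 * k := by
    intro i j hij
    by_contra hcon
    have h1 := S.P2 (fun h => hij (hφ h) : φ i ≠ φ j)
    have h2 : (V (φ i) ∩ V (φ j)).card = 2 * k := by omega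
    have h3 : V (φ i) ∩ V (φ j) ⊆ X i := by
      intro v hv
      rw [Finset.mem_inter] at hv
      by_contra hvX
      have := hup i v hv.1 hvX ⟨j, hij.symm, hv.2⟩
      omega
    have h4 : V (φ i) ∩ V (φ j) ⊆ X j := by
      intro v hv
      rw [Finset.mem_inter] at hv
      by_contra hvX
      have := hup j v hv.2 hvX ⟨i, hij, hv.1⟩
      omega
    exact S.us_disj (fun h => hij (hφ h) : φ i ≠ φ j) (S.us_sub (hX i) h3 h2) (S.us_sub (hX j) h4 h2)
  have hupper : (c.biUnion V).card ≤ 2 * k + 4 * (g - 2 * k) := by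
    have h1 : c.biUnion V ⊆ univ.biUnion X ∪ univ.biUnion (fun l => V (φ l) \ X l) := by
      rw [hcb]
      intro x hx
      rw [Finset.mem_biUnion] at hx
      obtain ⟨l, _, hl⟩ := hx
      rw [Finset.mem_union, Finset.mem_biUnion, Finset.mem_biUnion]
      by_cases hxl : x ∈ X l
      · exact Or.inl ⟨l, Finset.mem_univ _, hxl⟩
      · exact Or.inr ⟨l, Finset.mem_univ _, Finset.mem_sdiff.2 ⟨hl, hxl⟩⟩
    have h2 := (Finset.card_le_card h1).trans (Finset.card_union_le _ _)
    have h3 : (univ.biUnion (fun l => V (φ l) \ X l)).card ≤ ∑ l : Fin 4, (g - 3 * k) := by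
      refine Finset.card_biUnion_le.trans (Finset.sum_le_sum fun l _ => ?_)
      rw [e]
    simp at h3
    omega
  refine S.nc c ⟨hcc, by omega, ?_⟩
  intro c' hc' hcard
  rcases hcard with h2 | h3
  · obtain ⟨x, y, hxy, rfl⟩ := Finset.card_eq_two.1 h2
    have hx : x ∈ c := hc' (by simp)
    have hy : y ∈ c := hc' (by simp)
    rw [hc, Finset.mem_image] at hx hy
    obtain ⟨i, _, rfl⟩ := hx
    obtain ⟨j, _, rfl⟩ := hy
    have hij : i ≠ j := fun h => hxy (by rw [h])
    have h4 := hpair i j hij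
    rw [h2, Finset.biUnion_insert, Finset.singleton_biUnion]
    have h5 := Finset.card_union_add_card_inter (V (φ i)) (V (φ j))
    rw [S.hV, S.hV] at h5
    omega
  · have h4 : (c \ c').card = 1 := by
      rw [Finset.card_sdiff_of_subset hc']; omega
    obtain ⟨x, hx⟩ := Finset.card_eq_one.1 h4
    have hxc : x ∈ c \ c' := by rw [hx]; simp
    rw [Finset.mem_sdiff, hc, Finset.mem_image] at hxc
    obtain ⟨⟨i, _, rfl⟩, hxi⟩ := hxc
    have hmem : ∀ j, j ≠ i → φ j ∈ c' := by
      intro j hj
      by_contra hcon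
      have : φ j ∈ c \ c' := Finset.mem_sdiff.2 ⟨by rw [hc]; simp, hcon⟩
      rw [hx, Finset.mem_singleton] at this
      exact hj (hφ this)
    have h5 : c.biUnion V ⊆ c'.biUnion V ∪ (V (φ i) \ X i) := by
      rw [hcb]
      intro v hv
      rw [Finset.mem_biUnion] at hv
      obtain ⟨l, _, hl⟩ := hv
      rw [Finset.mem_union]
      by_cases hli : l = i
      · subst hli
        by_cases hvX : v ∈ X l
        · left
          have := hcov l hvX
          rw [Finset.mem_biUnion] at this
          obtain ⟨j, hj, hvj⟩ := this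
          rw [Finset.mem_biUnion]
          exact ⟨φ j, hmem j (Finset.ne_of_mem_erase hj), S.ed_sub (hX j) hvj⟩
        · right
          exact Finset.mem_sdiff.2 ⟨hl, hvX⟩
      · left
        rw [Finset.mem_biUnion]
        exact ⟨φ l, hmem l hli, hl⟩
    have h6 := (Finset.card_le_card h5).trans (Finset.card_union_le _ _)
    rw [e] at h6
    rw [h3]
    omega

lemma case4 {a b c d : ι} {A B C D : Finset α} (hA : Ed a A) (hB : Ed b B) (hC : Ed c C) (hD : Ed d D)
    (hAB : A ≠ B) (hAC : A ≠ C) (hAD : A ≠ D) (hBC : B ≠ C) (hBD : B ≠ D) (hCD : C ≠ D) :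
    A ∪ B ≠ C ∪ D := by
  intro heq
  have hm1 : ∀ x, x ∈ A ∨ x ∈ B → x ∈ C ∨ x ∈ D := fun x h =>
    Finset.mem_union.1 (heq ▸ Finset.mem_union.2 h)
  have hm2 : ∀ x, x ∈ C ∨ x ∈ D → x ∈ A ∨ x ∈ B := fun x h =>
    Finset.mem_union.1 (heq ▸ Finset.mem_union.2 h)
  by_cases hab : a = b
  · subst hab
    have hc : c = a := S.same hC (fun x hx => by
      rcases hm2 x (Or.inl hx) with h | h
      · exact S.ed_sub hA h
      · exact S.ed_sub hB h)
    have hd : d = a := S.same hD (fun x hx => by
      rcases hm2 x (Or.inr hx) with h | h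
      · exact S.ed_sub hA h
      · exact S.ed_sub hB h)
    subst hc
    subst hd
    exact S.free4 hA hB hC hD hAB hAC hAD hBC hBD hCD heq
  by_cases hcd : c = d
  · subst hcd
    have hc : a = c := S.same hA (fun x hx => by
      rcases hm1 x (Or.inl hx) with h | h
      · exact S.ed_sub hC h
      · exact S.ed_sub hD h)
    have hd : b = c := S.same hB (fun x hx => by
      rcases hm1 x (Or.inr hx) with h | h
      · exact S.ed_sub hC h
      · exact S.ed_sub hD h)
    exact hab (hc.trans hd.symm)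
  by_cases hac : a = c
  · subst hac
    exact S.case4_AC hA hC hB hD hab hcd hAC hBD heq
  by_cases had : a = d
  · subst had
    exact S.case4_AC hA hD hB hC hab (Ne.symm hcd) hAD hBC (by rw [heq, Finset.union_comm])
  by_cases hbc : b = c
  · subst hbc
    exact S.case4_AC hB hC hA hD (Ne.symm hab) hcd hBC hAD (by rw [← heq, Finset.union_comm])
  by_cases hbd : b = d
  · subst hbd
    exact S.case4_AC hB hD hA hC (Ne.symm hab) (Ne.symm hcd) hBD hAC
      (by rw [Finset.union_comm B A, heq, Finset.union_comm])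
  -- all blocks are distinct
  refine S.case4_distinct ![a, b, c, d] ?_ ![A, B, C, D] ?_ ?_ ?_
  · intro i j hij
    fin_cases i <;> fin_cases j <;> simp_all
  · intro i
    fin_cases i
    · exact hA
    · exact hB
    · exact hC
    · exact hD
  · have h1 : univ.biUnion ![A, B, C, D] ⊆ A ∪ B := by
      intro x hx
      rw [Finset.mem_biUnion] at hx
      obtain ⟨i, _, hi⟩ := hx
      fin_cases i
      · exact Finset.mem_union_left _ hi
      · exact Finset.mem_union_right _ hi
      · rw [heq]; exact Finset.mem_union_left _ hi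
      · rw [heq]; exact Finset.mem_union_right _ hi
    refine (Finset.card_le_card h1).trans ((Finset.card_union_le _ _).trans ?_)
    rw [S.ed_card hA, S.ed_card hB]
    omega
  · intro i x hx
    rw [Finset.mem_biUnion]
    fin_cases i
    · rcases hm1 x (Or.inl hx) with h | h
      · exact ⟨2, by decide, h⟩
      · exact ⟨3, by decide, h⟩
    · rcases hm1 x (Or.inr hx) with h | h
      · exact ⟨2, by decide, h⟩
      · exact ⟨3, by decide, h⟩
    · rcases hm2 x (Or.inl hx) with h | h
      · exact ⟨0, by decide, h⟩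
      · exact ⟨1, by decide, h⟩
    · rcases hm2 x (Or.inr hx) with h | h
      · exact ⟨0, by decide, h⟩
      · exact ⟨1, by decide, h⟩

end Setup4

end UF58
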