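import Pool.Agent.helper58.UF.Defs

/-! Counting embeddings. -/

namespace UF58
open Finset

section

variable {g n : ℕ}

lemma count_le (hg : 0 < g) (u : ℕ) :
    ((univ : Finset (Finset (Fin g ↪ Fin n))).filter
      (fun S => S.Nonempty ∧ (S.biUnion (fun φ => univ.map φ)).card ≤ u)).card ≤ n ^ u * 2 ^ (u ^ g) := by
  classical
  let F : (Fin u → Fin n) × Finset (Fin g → Fin u) → Finset (Fin g ↪ Fin n) :=
    fun x => univ.filter (fun φ => ∃ φ' ∈ x.2, ⇑φ = x.1 ∘ φ')
  have hsub : (univ : Finset (Finset (Fin g ↪ Fin n))).filter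
      (fun S => S.Nonempty ∧ (S.biUnion (fun φ => univ.map φ)).card ≤ u) ⊆ univ.image F := by
    intro S hS
    obtain ⟨⟨φ0, hφ0⟩, hc⟩ := (Finset.mem_filter.1 hS).2
    set W := S.biUnion (fun φ => univ.map φ) with hW
    have hmem : ∀ φ ∈ S, ∀ x, φ x ∈ W := by
      intro φ hφ x
      rw [hW, Finset.mem_biUnion]
      exact ⟨φ, hφ, by simp⟩
    let w0 : Fin n := φ0 ⟨0, hg⟩
    let e := W.equivFin
    let f : Fin u → Fin n := fun i => if h : i.val < W.card then (e.symm ⟨i.val, h⟩ : Fin n) else w0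
    have hf : ∀ w ∈ W, ∃ i, f i = w := by
      intro w hw
      refine ⟨⟨(e ⟨w, hw⟩).val, lt_of_lt_of_le (e ⟨w, hw⟩).isLt hc⟩, ?_⟩
      simp only [f]
      rw [dif_pos (e ⟨w, hw⟩).isLt]
      simp
    rw [Finset.mem_image]
    refine ⟨(f, univ.filter (fun φ' => ∃ φ ∈ S, ⇑φ = f ∘ φ')), Finset.mem_univ _, ?_⟩
    ext φ
    simp only [F, Finset.mem_filter, Finset.mem_univ, true_and]
    constructor
    · rintro ⟨φ', ⟨ψ, hψ, h1⟩, h2⟩
      have : φ = ψ := DFunLike.coe_injective (h2.trans h1.symm)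
      rw [this]; exact hψ
    · intro hφ
      choose i hi using fun x => hf (φ x) (hmem φ hφ x)
      have h1 : ⇑φ = f ∘ i := by
        funext x
        exact (hi x).symm
      exact ⟨i, ⟨φ, hφ, h1⟩, h1⟩
  refine (Finset.card_le_card hsub).trans (Finset.card_image_le.trans (le_of_eq ?_))
  rw [Finset.card_univ, Fintype.card_prod, Fintype.card_fun, Fintype.card_finset, Fintype.card_fun]
  simp

/-- placements such that `p` is the image of a set of `U`. -/
noncomputable def Pp (U : Finset (Finset (Fin g))) (p : Finset (Fin n)) : Finset (Fin g ↪ Fin n) :=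
  univ.filter (fun φ => ∃ q ∈ U, q.map φ = p)

lemma exists_perm {p p' : Finset (Fin n)} (h : p.card = p'.card) :
    ∃ σ : Equiv.Perm (Fin n), p.map σ.toEmbedding = p' := by
  classical
  have e : {x // x ∈ p} ≃ {x // x ∈ p'} := Fintype.equivOfCardEq (by simpa using h)
  refine ⟨e.extendSubtype, ?_⟩
  refine Finset.eq_of_subset_of_card_le ?_ (by rw [Finset.card_map, h])
  intro x hx
  rw [Finset.mem_map] at hx
  obtain ⟨y, hy, rfl⟩ := hx
  exact e.extendSubtype_mem y hy

lemma card_Pp_le (U : Finset (Finset (Fin g))) {p p' : Finset (Fin n)} (h : p.card = p'.card) :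
    (Pp U p).card ≤ (Pp U p').card := by
  obtain ⟨σ, hσ⟩ := exists_perm h
  refine Finset.card_le_card_of_injOn (fun φ => φ.trans σ.toEmbedding) ?_ ?_
  · intro φ hφ
    rw [Finset.mem_coe] at hφ ⊢
    obtain ⟨q, hq, hqp⟩ := (Finset.mem_filter.1 hφ).2
    refine Finset.mem_filter.2 ⟨Finset.mem_univ _, q, hq, ?_⟩
    rw [← Finset.map_map, hqp, hσ]
  · intro φ _ ψ _ heq
    ext x
    have := DFunLike.congr_fun heq x
    simp only [Function.Embedding.trans_apply, Equiv.coe_toEmbedding] at this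
    rw [σ.injective this]

lemma card_Pp_eq (U : Finset (Finset (Fin g))) {p p' : Finset (Fin n)} (h : p.card = p'.card) :
    (Pp U p).card = (Pp U p').card := le_antisymm (card_Pp_le U h) (card_Pp_le U h.symm)

lemma sum_Pp (U : Finset (Finset (Fin g))) {m : ℕ} (hU : ∀ q ∈ U, q.card = m) :
    ∑ p : {p : Finset (Fin n) // p.card = m}, (Pp U p.1).card = U.card * Fintype.card (Fin g ↪ Fin n) := by
  classical
  have h1 : ∀ p : {p : Finset (Fin n) // p.card = m}, (Pp U p.1).card =
      ∑ φ : Fin g ↪ Fin n, if (∃ q ∈ U, q.map φ = p.1) then 1 else 0 := by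
    intro p
    unfold Pp
    rw [Finset.card_filter]
  simp_rw [h1]
  rw [Finset.sum_comm]
  have h2 : ∀ φ : Fin g ↪ Fin n, ∑ p : {p : Finset (Fin n) // p.card = m},
      (if (∃ q ∈ U, q.map φ = p.1) then 1 else 0) = U.card := by
    intro φ
    rw [← Finset.card_filter]
    symm
    refine Finset.card_bij (fun q hq => ⟨q.map φ, by rw [Finset.card_map]; exact hU q hq⟩) ?_ ?_ ?_
    · intro q hq
      exact Finset.mem_filter.2 ⟨Finset.mem_univ _, q, hq, rfl⟩
    · intro q _ q' _ heq
      exact Finset.map_injective φ (congrArg Subtype.val heq)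
    · intro p hp
      obtain ⟨q, hq, hqp⟩ := (Finset.mem_filter.1 hp).2
      exact ⟨q, hq, Subtype.ext hqp⟩
  rw [Finset.sum_congr rfl fun φ _ => h2 φ, Finset.sum_const, Finset.card_univ, smul_eq_mul, mul_comm]

lemma card_Pp_mul (U : Finset (Finset (Fin g))) {m : ℕ} (hU : ∀ q ∈ U, q.card = m)
    (p : Finset (Fin n)) (hp : p.card = m) :
    n.choose m * (Pp U p).card = U.card * n.descFactorial g := by
  have h := sum_Pp (n := n) U hU
  have h1 : ∀ p' : {p : Finset (Fin n) // p.card = m}, (Pp U p'.1).card = (Pp U p).card :=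
    fun p' => card_Pp_eq U (p'.2.trans hp.symm)
  rw [Finset.sum_congr rfl fun p' _ => h1 p', Finset.sum_const, Finset.card_univ, smul_eq_mul,
    Fintype.card_finset_len, Fintype.card_fin, Fintype.card_embedding_eq, Fintype.card_fin,
    Fintype.card_fin] at h
  exact h

end

end UF58
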