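import Pool.Agent.helper58.UF.Msg

/-! Probabilities of the messages. -/

namespace UF58
open Finset Classical

noncomputable section

variable {β P : Type} [Fintype β] [Fintype P] (pts : β → Finset P) (C : Finset (Finset β))

/-- the scalar system. -/
structure Sys (ρ Δ K R : ℕ) (p : ℝ) where
  αP : ℕ → ℝ
  αC : ℕ → ℝ
  ν : ℕ → ℝ
  κ : ℕ → ℝ
  g : ℕ → ℝ
  hαP : ∀ s, αP s = p + ∑ s' ∈ range s, g s' / ν s'
  hαC : ∀ s, αC s = p + ∑ s' ∈ range s, g s' / κ s'
  hν : ∀ s, ν s = (1 - αP s) ^ (Δ - 1)
  hκ : ∀ s, κ s = 1 - (αC s) ^ 3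
  hg : ∀ s, g s = p * ν s ^ ρ * κ s ^ K
  hp : 0 ≤ p
  hRp : (R : ℝ) * p ≤ 1
  P0 : ∀ s < R, 0 ≤ αP s
  P1 : ∀ s < R, αP s < 1
  C0 : ∀ s < R, 0 ≤ αC s
  C1 : ∀ s < R, αC s < 1

variable {ρ Δ K R : ℕ} {p : ℝ} (S : Sys ρ Δ K R p)

namespace Sys
include S

lemma ν_pos {s : ℕ} (hs : s < R) : 0 < S.ν s := by
  rw [S.hν]; exact pow_pos (by linarith [S.P1 s hs]) _

lemma κ_pos {s : ℕ} (hs : s < R) : 0 < S.κ s := by
  rw [S.hκ]
  have h1 := pow_lt_one₀ (S.C0 s hs) (S.C1 s hs) (n := 3) (by norm_num)
  linarith

lemma κ_le {s : ℕ} (hs : s < R) : S.κ s ≤ 1 := by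
  rw [S.hκ]
  have := pow_nonneg (S.C0 s hs) 3
  linarith

end Sys

/-- number of blocks at a point. -/
def pdeg (v : P) : ℕ := (univ.filter (fun B => v ∈ pts B)).card
/-- number of conflicts at a block. -/
def cdeg (B : β) : ℕ := (C.filter (fun c => B ∈ c)).card

/-- weights. -/
def wt : Crd β P R → Val R → ℝ
  | Sum.inl B, (l, b) =>
      if l.val < R then p * (if b then S.κ l.val ^ (K - cdeg C B) else 1 - S.κ l.val ^ (K - cdeg C B))
      else (1 - R * p) * (if b then 1 else 0)
  | Sum.inr (v, s), (l, b) =>
      if l = 0 then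
        (if s.val < R then
          (if b then (1 - S.αP s.val) ^ (Δ - pdeg pts v) else 1 - (1 - S.αP s.val) ^ (Δ - pdeg pts v))
        else (if b then 1 else 0))
      else 0

lemma sum_val {R : ℕ} (F : Val R → ℝ) : ∑ x : Val R, F x = ∑ l : Fin (R + 1), (F (l, true) + F (l, false)) := by
  rw [Fintype.sum_prod_type]
  refine Finset.sum_congr rfl fun l _ => ?_
  rw [Fintype.sum_bool]

lemma sum_label {R : ℕ} (F : ℕ → ℝ) (c : ℝ) :
    ∑ l : Fin (R + 1), (if l.val < R then F l.val else c) = ∑ s ∈ range R, F s + c := by
  rw [Fin.sum_univ_castSucc]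
  congr 1
  · rw [← Fin.sum_univ_eq_sum_range]
    refine Finset.sum_congr rfl fun l _ => ?_
    simp
  · simp

lemma isW : IsW (wt pts C S) := by
  constructor
  · rintro (B | ⟨v, s⟩) ⟨l, b⟩
    · simp only [wt]
      split_ifs with h1 h2
      · exact mul_nonneg S.hp (pow_nonneg (S.κ_pos h1).le _)
      · refine mul_nonneg S.hp ?_
        have := pow_le_one₀ (n := K - cdeg C B) (S.κ_pos h1).le (S.κ_le h1)
        linarith
      · have := S.hRp; linarith
      · simp
    · simp only [wt]
      split_ifs with h1 h2 h3 h4
      · exact pow_nonneg (by linarith [S.P1 _ h2]) _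
      · have := pow_le_one₀ (n := Δ - pdeg pts v) (show (0:ℝ) ≤ 1 - S.αP s.val by linarith [S.P1 _ h2])
          (by linarith [S.P0 _ h2])
        linarith
      · norm_num
      · norm_num
      · norm_num
  · rintro (B | ⟨v, s⟩)
    · rw [sum_val]
      have h1 : ∀ l : Fin (R + 1), (wt pts C S (Sum.inl B) (l, true) + wt pts C S (Sum.inl B) (l, false))
          = if l.val < R then (fun _ : ℕ => p) l.val else (1 - R * p) := by
        intro l
        by_cases hl : l.val < R
        · simp only [wt, hl, if_true, Bool.false_eq_true, if_false]; ring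
        · simp only [wt, hl, if_true, Bool.false_eq_true, if_false]; ring
      exact (Finset.sum_congr rfl fun l _ => h1 l).trans ((sum_label (fun _ => p) _).trans (by simp))
    · rw [sum_val, Finset.sum_eq_single (0 : Fin (R + 1))]
      · simp only [wt]
        split_ifs <;> simp_all
      · intro l _ hl
        simp [wt, hl]
      · simp

/-- indicator. -/
def ind (q : Prop) : ℝ := if q then 1 else 0

lemma ind_and (a b : Prop) : ind (a ∧ b) = ind a * ind b := by
  unfold ind; split_ifs <;> simp_all

lemma ind_not (a : Prop) : ind (¬ a) = 1 - ind a := by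
  unfold ind; split_ifs <;> simp_all

lemma ind_forall {κ : Type*} (s : Finset κ) (a : κ → Prop) :
    ind (∀ x ∈ s, a x) = ∏ x ∈ s, ind (a x) := by
  classical
  induction s using Finset.induction_on with
  | empty => simp [ind]
  | insert x s hx ih =>
    rw [Finset.prod_insert hx, ← ih, ← ind_and]
    congr 1
    simp

lemma Dep_ind {X : Type} [Fintype X] {ι M : Type} {q : (ι → M) → Prop} {T : Set ι} (h : Dep q T) :
    Dep (fun ω => ind (q ω)) T := fun ω ω' hω => by
  have : q ω = q ω' := h ω ω' hω
  show ind (q ω) = ind (q ω')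
  rw [this]

lemma Ex_lab (B : β) {s : ℕ} (hs : s < R) :
    Ex (wt pts C S) (fun ω => ind (lab ω B = s)) = p := by
  have h := Ex_coord (isW pts C S) (Sum.inl B) (fun x => ind (x.1.val = s))
  have h2 : (fun ω : Crd β P R → Val R => ind (lab ω B = s)) =
      fun ω => (fun x : Val R => ind (x.1.val = s)) (ω (Sum.inl B)) := rfl
  rw [h2, h, sum_val]
  have h1 : ∀ l : Fin (R + 1), (wt pts C S (Sum.inl B) (l, true) * ind (l.val = s) +
      wt pts C S (Sum.inl B) (l, false) * ind (l.val = s))
      = if l.val < R then (fun t : ℕ => if t = s then p else 0) l.val else 0 := by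
    intro l
    by_cases hl : l.val < R
    · by_cases hls : l.val = s
      · simp only [wt, ind, hl, hls, hs, if_true, Bool.false_eq_true, if_false]; ring
      · simp only [wt, ind, hl, hls, if_true, Bool.false_eq_true, if_false]; ring
    · have hls : ¬ l.val = s := by omega
      simp only [wt, ind, hl, hls, if_true, Bool.false_eq_true, if_false]; ring
  refine (Finset.sum_congr rfl fun l _ => h1 l).trans
    ((sum_label (fun t : ℕ => if t = s then p else 0) _).trans ?_)
  simp [hs]

lemma Ex_labflag (B : β) {s : ℕ} (hs : s < R) :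
    Ex (wt pts C S) (fun ω => ind (lab ω B = s ∧ flag ω B)) = p * S.κ s ^ (K - cdeg C B) := by
  have h := Ex_coord (isW pts C S) (Sum.inl B) (fun x => ind (x.1.val = s ∧ x.2 = true))
  have h2 : (fun ω : Crd β P R → Val R => ind (lab ω B = s ∧ flag ω B)) =
      fun ω => (fun x : Val R => ind (x.1.val = s ∧ x.2 = true)) (ω (Sum.inl B)) := rfl
  rw [h2, h, sum_val]
  have h1 : ∀ l : Fin (R + 1), (wt pts C S (Sum.inl B) (l, true) * ind (l.val = s ∧ true = true) +
      wt pts C S (Sum.inl B) (l, false) * ind (l.val = s ∧ false = true))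
      = if l.val < R then (fun t : ℕ => if t = s then p * S.κ s ^ (K - cdeg C B) else 0) l.val else 0 := by
    intro l
    by_cases hl : l.val < R
    · by_cases hls : l.val = s
      · simp only [wt, ind, hl, hls, hs, if_true, Bool.false_eq_true, if_false, and_true, and_false]; ring
      · simp only [wt, ind, hl, hls, if_true, Bool.false_eq_true, if_false, false_and]; ring
    · have hls : ¬ l.val = s := by omega
      simp only [wt, ind, hl, hls, if_true, Bool.false_eq_true, if_false, false_and]; ring
  refine (Finset.sum_congr rfl fun l _ => h1 l).trans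
    ((sum_label (fun t : ℕ => if t = s then p * S.κ s ^ (K - cdeg C B) else 0) _).trans ?_)
  simp [hs]

lemma Ex_xi (v : P) {s : ℕ} (hs : s < R) :
    Ex (wt pts C S) (fun ω => ind (xi ω v s)) = (1 - S.αP s) ^ (Δ - pdeg pts v) := by
  have h := Ex_coord (isW pts C S) (Sum.inr (v, Fin.ofNat (R + 1) s)) (fun x => ind (x.2 = true))
  have h2 : (fun ω : Crd β P R → Val R => ind (xi ω v s)) =
      fun ω => (fun x : Val R => ind (x.2 = true)) (ω (Sum.inr (v, Fin.ofNat (R + 1) s))) := rfl
  rw [h2, h, sum_val, Finset.sum_eq_single (0 : Fin (R + 1))]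
  · have hval : (Fin.ofNat (R + 1) s).val = s := by
      simp [Fin.ofNat, Nat.mod_eq_of_lt (show s < R + 1 by omega)]
    simp only [wt, ind, hval, hs]
    simp
  · intro l _ hl
    simp [wt, hl]
  · simp

/-- hubs of a block. -/
def hubs (B : β) : Finset (P ⊕ Finset β) := (pts B).disjSum (C.filter (fun c => B ∈ c))

lemma mem_hubs {B : β} {h : P ⊕ Finset β} :
    h ∈ hubs pts C B ↔ (incG pts C).Adj (Sum.inl B) (Sum.inr h) := by
  rcases h with v | c
  · simp [hubs, incG]
  · simp [hubs, incG]

/-- passing probability of a hub. -/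
def mu (s : ℕ) : P ⊕ Finset β → ℝ
  | Sum.inl _ => S.ν s
  | Sum.inr _ => S.κ s

lemma mu_pos {s : ℕ} (hs : s < R) (h : P ⊕ Finset β) : 0 < mu S s h := by
  rcases h with v | c
  · exact S.ν_pos hs
  · exact S.κ_pos hs

/-- activity probability at a hub. -/
def al (s : ℕ) : P ⊕ Finset β → ℝ
  | Sum.inl _ => S.αP s
  | Sum.inr _ => S.αC s

lemma al_eq (s : ℕ) (h : P ⊕ Finset β) : al S s h = p + ∑ s' ∈ range s, S.g s' / mu S s' h := by
  rcases h with v | c
  · exact S.hαP s
  · exact S.hαC s

lemma prod_hubs {B : β} (hpts : (pts B).card = ρ) (s : ℕ) :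
    ∏ h ∈ hubs pts C B, mu S s h = S.ν s ^ ρ * S.κ s ^ cdeg C B := by
  unfold hubs
  rw [Finset.prod_disjSum]
  simp [mu, hpts, cdeg]

variable {L : ℕ}

lemma main_law (hpts : ∀ B, (pts B).card = ρ) (hdeg : ∀ v, pdeg pts v ≤ Δ)
    (hC4 : ∀ c ∈ C, c.card = 4) (hcdeg : ∀ B, cdeg C B ≤ K)
    (hL : NoShortCycle L pts C) (hLR : 4 * R + 10 ≤ L) (s : ℕ) (hs : s < R) :
    (∀ (B : β) (h : P ⊕ Finset β), (incG pts C).Adj (Sum.inl B) (Sum.inr h) →
      Ex (wt pts C S) (fun ω : Crd β P R → Val R => ind (blk pts C ω s B h)) = 1 - mu S s h) ∧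
    (∀ (B : β) (h : P ⊕ Finset β), (incG pts C).Adj (Sum.inl B) (Sum.inr h) →
      Ex (wt pts C S) (fun ω : Crd β P R → Val R => ind (ok pts C ω s B h)) = S.g s / mu S s h) := by
  have hW := isW pts C S
  induction s using Nat.strong_induction_on with
  | _ s ih =>
    -- activity
    have hact : ∀ (B : β) (h : P ⊕ Finset β), (incG pts C).Adj (Sum.inl B) (Sum.inr h) →
        Ex (wt pts C S) (fun ω : Crd β P R → Val R => ind (act pts C ω s B h)) = al S s h := by
      intro B h hadj
      have h1 : (fun ω : Crd β P R → Val R => ind (act pts C ω s B h)) =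
          fun ω : Crd β P R → Val R => ind (lab ω B = s) + ∑ s' ∈ range s, ind (ok pts C ω s' B h) := by
        funext ω
        by_cases hl : lab ω B = s
        · have h2 : ∑ s' ∈ range s, ind (ok pts C ω s' B h) = 0 := by
            refine Finset.sum_eq_zero fun s' hs' => ?_
            have : ¬ ok pts C ω s' B h := fun hok => by
              have := hok.1; rw [hl] at this
              have := Finset.mem_range.1 hs'; omega
            simp [ind, this]
          rw [h2, add_zero]
          have h3 : act pts C ω s B h := Or.inl hl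
          simp [ind, h3, hl]
        · by_cases hl2 : ∃ s' < s, ok pts C ω s' B h
          · obtain ⟨s', hs', hok⟩ := hl2
            have h2 : ∑ s'' ∈ range s, ind (ok pts C ω s'' B h) = 1 := by
              rw [Finset.sum_eq_single s']
              · simp [ind, hok]
              · intro s'' _ hne
                have : ¬ ok pts C ω s'' B h := fun hok' => hne (by rw [← hok'.1, hok.1])
                simp [ind, this]
              · intro h'; exact absurd (Finset.mem_range.2 hs') h'
            have h3 : act pts C ω s B h := Or.inr ⟨s', hs', hok⟩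
            rw [h2]; simp [ind, h3, hl]
          · have h2 : ∑ s' ∈ range s, ind (ok pts C ω s' B h) = 0 := by
              refine Finset.sum_eq_zero fun s' hs' => ?_
              have : ¬ ok pts C ω s' B h := fun hok => hl2 ⟨s', Finset.mem_range.1 hs', hok⟩
              simp [ind, this]
            have h3 : ¬ act pts C ω s B h := by
              rintro (h' | h')
              · exact hl h'
              · exact hl2 h'
            rw [h2]; simp [ind, h3, hl]
      rw [h1, Ex_add, Ex_sum, Ex_lab pts C S B hs, al_eq]
      congr 1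
      refine Finset.sum_congr rfl fun s' hs' => ?_
      have hs'' := Finset.mem_range.1 hs'
      exact (ih s' hs'' (by omega)).2 B h hadj
    have hdepact := fun (B : β) (h : P ⊕ Finset β) hadj => (dep_all (R := R) pts C s).1 B h hadj
    have hblk : ∀ (B : β) (h : P ⊕ Finset β), (incG pts C).Adj (Sum.inl B) (Sum.inr h) →
        Ex (wt pts C S) (fun ω : Crd β P R → Val R => ind (blk pts C ω s B h)) = 1 - mu S s h := by
      intro B h hadj
      match h, hadj with
      | Sum.inl v, hadj =>
        -- the complement is a product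
        let sib := (univ.filter (fun B' => v ∈ pts B')).erase B
        have hsib : ∀ B' ∈ sib, (incG pts C).Adj (Sum.inl B') (Sum.inr (Sum.inl v)) := by
          intro B' hB'
          exact (Finset.mem_filter.1 (Finset.mem_of_mem_erase hB')).2
        have h1 : (fun ω : Crd β P R → Val R => ind (blk pts C ω s B (Sum.inl v))) = fun ω : Crd β P R → Val R =>
            1 - ind (xi ω v s) * ∏ B' ∈ sib, (1 - ind (act pts C ω s B' (Sum.inl v))) := by
          funext ω
          have h2 : ∏ B' ∈ sib, (1 - ind (act pts C ω s B' (Sum.inl v))) =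
              ind (∀ B' ∈ sib, ¬ act pts C ω s B' (Sum.inl v)) := by
            rw [ind_forall]
            exact Finset.prod_congr rfl fun B' _ => (ind_not _).symm
          rw [h2, ← ind_and, ← ind_not]
          congr 1
          apply propext
          rw [blk_pt]
          constructor
          · rintro (h' | ⟨B', h3, h4, h5⟩) ⟨h6, h7⟩
            · exact h' h6
            · exact h7 B' (by simp [sib, h3, h4]) h5
          · intro h'
            by_contra hcon
            push Not at hcon
            refine h' ⟨hcon.1, fun B' hB' => hcon.2 B' ?_ ?_⟩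
            · exact hsib B' hB'
            · exact Finset.ne_of_mem_erase hB'
        rw [h1, Ex_one_sub hW]
        congr 1
        have hdepsib : ∀ B' ∈ sib, Dep (fun ω : Crd β P R → Val R =>
            1 - ind (act pts C ω s B' (Sum.inl v)))
            (cv ⁻¹' br (incG pts C) (2 * s) (Sum.inr (Sum.inl v)) (Sum.inl B')) := by
          intro B' hB' ω ω' hω
          have : act pts C ω s B' (Sum.inl v) = act pts C ω' s B' (Sum.inl v) :=
            hdepact B' _ (hsib B' hB') ω ω' hω
          simp only [this]
        have hdepxi : Dep (fun ω : Crd β P R → Val R => ind (xi ω v s))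
            (cv ⁻¹' {Sum.inr (Sum.inl v)}) := by
          intro ω ω' hω
          have : xi ω v s = xi ω' v s := dep_xi v s {Sum.inr (Sum.inl v)} rfl ω ω' hω
          simp only [this]
        rw [Ex_mul hW hdepxi (Dep_prod sib _ _ hdepsib)]
        · rw [Ex_prod hW sib _ _ hdepsib, Ex_xi pts C S v hs]
          · have h3 : ∀ B' ∈ sib, Ex (wt pts C S) (fun ω : Crd β P R → Val R => 1 - ind (act pts C ω s B' (Sum.inl v))) =
                1 - S.αP s := by
              intro B' hB'
              rw [Ex_one_sub hW, hact B' _ (hsib B' hB')]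
              rfl
            rw [Finset.prod_congr rfl h3, Finset.prod_const]
            have hBmem : B ∈ univ.filter (fun B' => v ∈ pts B') := by
              simp only [Finset.mem_filter, Finset.mem_univ, true_and]
              exact hadj
            have h4 : sib.card = pdeg pts v - 1 := Finset.card_erase_of_mem hBmem
            have h5 : 0 < pdeg pts v := Finset.card_pos.2 ⟨B, hBmem⟩
            have h6 := hdeg v
            rw [h4, ← pow_add]
            show _ = S.ν s
            rw [S.hν]
            congr 1
            omega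
          · intro B' hB' B'' hB'' hne
            refine Disjoint.preimage _ ?_
            exact br_disjoint (incG pts C) hL (by omega) (hsib B' hB').symm (hsib B'' hB'').symm
              (fun h => hne (Sum.inl.inj h))
        · rw [Set.disjoint_iUnion₂_right]
          intro B' hB'
          refine Disjoint.preimage _ ?_
          rw [Set.disjoint_singleton_left]
          exact br_not_mem (incG pts C) hL (by omega) (hsib B' hB').symm
      | Sum.inr c, hadj =>
        have hcC : c ∈ C := hadj.1
        have hBc : B ∈ c := hadj.2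
        have hsib : ∀ B' ∈ c.erase B, (incG pts C).Adj (Sum.inl B') (Sum.inr (Sum.inr c)) := by
          intro B' hB'
          exact ⟨hcC, Finset.mem_of_mem_erase hB'⟩
        have h1 : (fun ω : Crd β P R → Val R => ind (blk pts C ω s B (Sum.inr c))) = fun ω : Crd β P R → Val R =>
            ∏ B' ∈ c.erase B, ind (act pts C ω s B' (Sum.inr c)) := by
          funext ω
          rw [← ind_forall]
          congr 1
          apply propext
          rw [blk_cf]
          constructor
          · intro h' B' hB'
            exact h' B' (Finset.mem_of_mem_erase hB') (Finset.ne_of_mem_erase hB')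
          · intro h' B' hB' hne
            exact h' B' (Finset.mem_erase.2 ⟨hne, hB'⟩)
        have hdepsib : ∀ B' ∈ c.erase B, Dep (fun ω : Crd β P R → Val R =>
            ind (act pts C ω s B' (Sum.inr c)))
            (cv ⁻¹' br (incG pts C) (2 * s) (Sum.inr (Sum.inr c)) (Sum.inl B')) := by
          intro B' hB' ω ω' hω
          have : act pts C ω s B' (Sum.inr c) = act pts C ω' s B' (Sum.inr c) :=
            hdepact B' _ (hsib B' hB') ω ω' hω
          simp only [this]
        rw [h1, Ex_prod hW _ _ _ hdepsib]
        · have h3 : ∀ B' ∈ c.erase B, Ex (wt pts C S) (fun ω : Crd β P R → Val R => ind (act pts C ω s B' (Sum.inr c))) =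
              S.αC s := by
            intro B' hB'
            rw [hact B' _ (hsib B' hB')]
            rfl
          rw [Finset.prod_congr rfl h3, Finset.prod_const, Finset.card_erase_of_mem hBc, hC4 c hcC]
          show _ = 1 - S.κ s
          rw [S.hκ]
          ring
        · intro B' hB' B'' hB'' hne
          refine Disjoint.preimage _ ?_
          exact br_disjoint (incG pts C) hL (by omega) (hsib B' hB').symm (hsib B'' hB'').symm
            (fun h => hne (Sum.inl.inj h))
    refine ⟨hblk, ?_⟩
    intro B h hadj
    have hdepblk := fun (B : β) (h : P ⊕ Finset β) hadj => (dep_all (R := R) pts C s).2.1 B h hadj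
    have hmem : h ∈ hubs pts C B := (mem_hubs pts C).2 hadj
    have h1 : (fun ω : Crd β P R → Val R => ind (ok pts C ω s B h)) = fun ω : Crd β P R → Val R =>
        ind (lab ω B = s ∧ flag ω B) * ∏ h' ∈ (hubs pts C B).erase h, (1 - ind (blk pts C ω s B h')) := by
      funext ω
      have h2 : ∏ h' ∈ (hubs pts C B).erase h, (1 - ind (blk pts C ω s B h')) =
          ind (∀ h' ∈ (hubs pts C B).erase h, ¬ blk pts C ω s B h') := by
        rw [ind_forall]
        exact Finset.prod_congr rfl fun B' _ => (ind_not _).symm
      rw [h2, ← ind_and]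
      congr 1
      apply propext
      simp only [ok]
      constructor
      · rintro ⟨h3, h4, h5⟩
        refine ⟨⟨h3, h4⟩, fun h' hh' => ?_⟩
        rw [Finset.mem_erase, mem_hubs] at hh'
        exact h5 h' hh'.2 hh'.1
      · rintro ⟨⟨h3, h4⟩, h5⟩
        exact ⟨h3, h4, fun h' hadj' hne => h5 h' (by rw [Finset.mem_erase, mem_hubs]; exact ⟨hne, hadj'⟩)⟩
    have hadj' : ∀ h' ∈ (hubs pts C B).erase h, (incG pts C).Adj (Sum.inl B) (Sum.inr h') :=
      fun h' hh' => (mem_hubs pts C).1 (Finset.mem_of_mem_erase hh')
    have hdeph : ∀ h' ∈ (hubs pts C B).erase h, Dep (fun ω : Crd β P R → Val R =>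
        1 - ind (blk pts C ω s B h'))
        (cv ⁻¹' br (incG pts C) (2 * s + 1) (Sum.inl B) (Sum.inr h')) := by
      intro h' hh' ω ω' hω
      have : blk pts C ω s B h' = blk pts C ω' s B h' := hdepblk B _ (hadj' h' hh') ω ω' hω
      simp only [this]
    have hdepB : Dep (fun ω : Crd β P R → Val R => ind (lab ω B = s ∧ flag ω B))
        (cv ⁻¹' {Sum.inl B}) := by
      intro ω ω' hω
      have e1 : (lab ω B = s) = (lab ω' B = s) := dep_lab B {Sum.inl B} rfl s ω ω' hω
      have e2 : flag ω B = flag ω' B := dep_flag B {Sum.inl B} rfl ω ω' hω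
      simp only [e1, e2]
    rw [h1, Ex_mul hW hdepB (Dep_prod _ _ _ hdeph)]
    · rw [Ex_prod hW _ _ _ hdeph, Ex_labflag pts C S B hs]
      · have h3 : ∀ h' ∈ (hubs pts C B).erase h,
            Ex (wt pts C S) (fun ω : Crd β P R → Val R => 1 - ind (blk pts C ω s B h')) = mu S s h' := by
          intro h' hh'
          rw [Ex_one_sub hW, hblk B h' (hadj' h' hh')]
          ring
        rw [Finset.prod_congr rfl h3]
        have h4 := Finset.mul_prod_erase (hubs pts C B) (fun h' => mu S s h') hmem
        rw [prod_hubs pts C S (hpts B)] at h4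
        rw [eq_div_iff (mu_pos S hs h).ne']
        have h5 : p * S.κ s ^ (K - cdeg C B) * (∏ h' ∈ (hubs pts C B).erase h, mu S s h') * mu S s h =
            p * S.κ s ^ (K - cdeg C B) * (mu S s h * ∏ h' ∈ (hubs pts C B).erase h, mu S s h') := by ring
        rw [h5, h4, S.hg]
        have h6 : S.κ s ^ K = S.κ s ^ (K - cdeg C B) * S.κ s ^ cdeg C B := by
          rw [← pow_add, Nat.sub_add_cancel (hcdeg B)]
        rw [h6]; ring
      · intro h' hh' h'' hh'' hne
        refine Disjoint.preimage _ ?_
        exact br_disjoint (incG pts C) hL (by omega) (hadj' h' hh') (hadj' h'' hh'')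
          (fun h => hne (Sum.inr.inj h))
    · rw [Set.disjoint_iUnion₂_right]
      intro h' hh'
      refine Disjoint.preimage _ ?_
      rw [Set.disjoint_singleton_left]
      exact br_not_mem (incG pts C) hL (by omega) (hadj' h' hh')

end
end UF58
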