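import Mathlib

/-! Finite product expectations and independence. -/

namespace UF58
open Finset

section
variable {ι M : Type} [Fintype ι] [DecidableEq ι] [Fintype M]

/-- expectation of `f` under the product weight `w`. -/
noncomputable def Ex (w : ι → M → ℝ) (f : (ι → M) → ℝ) : ℝ := ∑ ω : ι → M, (∏ i, w i (ω i)) * f ω

/-- total weight one. -/
def IsW (w : ι → M → ℝ) : Prop := (∀ i x, 0 ≤ w i x) ∧ ∀ i, ∑ x, w i x = 1

lemma sum_prod_eq_one {κ : Type} [Fintype κ] [DecidableEq κ] (w : κ → M → ℝ)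
    (hw : ∀ i, ∑ x, w i x = 1) : ∑ ω : κ → M, ∏ i, w i (ω i) = 1 := by
  have h := Finset.prod_univ_sum (fun _ : κ => (univ : Finset M)) (fun i x => w i x)
  rw [Fintype.piFinset_univ] at h
  rw [← h]
  simp [hw]

lemma Ex_const {w : ι → M → ℝ} (hw : IsW w) (c : ℝ) : Ex w (fun _ => c) = c := by
  unfold Ex
  rw [← Finset.sum_mul, sum_prod_eq_one w hw.2, one_mul]

lemma Ex_add (w : ι → M → ℝ) (f g : (ι → M) → ℝ) : Ex w (fun ω => f ω + g ω) = Ex w f + Ex w g := by
  unfold Ex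
  rw [← Finset.sum_add_distrib]
  exact Finset.sum_congr rfl fun ω _ => by ring

lemma Ex_sub (w : ι → M → ℝ) (f g : (ι → M) → ℝ) : Ex w (fun ω => f ω - g ω) = Ex w f - Ex w g := by
  unfold Ex
  rw [← Finset.sum_sub_distrib]
  exact Finset.sum_congr rfl fun ω _ => by ring

lemma Ex_sum {κ : Type*} (w : ι → M → ℝ) (s : Finset κ) (f : κ → (ι → M) → ℝ) :
    Ex w (fun ω => ∑ j ∈ s, f j ω) = ∑ j ∈ s, Ex w (f j) := by
  unfold Ex
  rw [Finset.sum_comm]
  exact Finset.sum_congr rfl fun ω _ => by rw [Finset.mul_sum]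

lemma Ex_one_sub {w : ι → M → ℝ} (hw : IsW w) (f : (ι → M) → ℝ) :
    Ex w (fun ω => 1 - f ω) = 1 - Ex w f := by
  rw [Ex_sub, Ex_const hw]

lemma exists_ge_Ex {w : ι → M → ℝ} (hw : IsW w) (f : (ι → M) → ℝ) : ∃ ω, Ex w f ≤ f ω := by
  by_contra hcon
  push Not at hcon
  have h1 : ∑ ω : ι → M, (∏ i, w i (ω i)) * (Ex w f - f ω) = 0 := by
    have : ∑ ω : ι → M, (∏ i, w i (ω i)) * (Ex w f - f ω) = Ex w (fun ω => Ex w f - f ω) := rfl
    rw [this, Ex_sub, Ex_const hw, sub_self]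
  have h2 : ∀ ω ∈ (univ : Finset (ι → M)), 0 ≤ (∏ i, w i (ω i)) * (Ex w f - f ω) := fun ω _ =>
    mul_nonneg (Finset.prod_nonneg fun i _ => hw.1 i _) (sub_nonneg.2 (hcon ω).le)
  have h3 := (Finset.sum_eq_zero_iff_of_nonneg h2).1 h1
  have h4 : ∀ ω : ι → M, ∏ i, w i (ω i) = 0 := by
    intro ω
    have := h3 ω (mem_univ _)
    rcases mul_eq_zero.1 this with h | h
    · exact h
    · have := hcon ω; linarith
  have h5 := sum_prod_eq_one w hw.2
  simp [h4] at h5

/-- `f` depends only on the coordinates in `S`. -/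
def Dep {X : Type*} (f : (ι → M) → X) (S : Set ι) : Prop :=
  ∀ ω ω' : ι → M, (∀ i ∈ S, ω i = ω' i) → f ω = f ω'

omit [Fintype ι] [DecidableEq ι] [Fintype M] in
lemma Dep.mono {X : Type*} {f : (ι → M) → X} {S T : Set ι} (h : Dep f S) (hST : S ⊆ T) : Dep f T :=
  fun ω ω' hω => h ω ω' fun i hi => hω i (hST hi)

lemma Ex_split {w : ι → M → ℝ} (hw : IsW w) {f g : (ι → M) → ℝ} {S : Set ι}
    (hf : Dep f S) (hg : Dep g Sᶜ) : Ex w (fun ω => f ω * g ω) = Ex w f * Ex w g := by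
  classical
  rcases isEmpty_or_nonempty (ι → M) with hE | ⟨⟨ω0⟩⟩
  · unfold Ex; simp
  let e := Equiv.piEquivPiSubtypeProd (fun i => i ∈ S) (fun _ : ι => M)
  have hsplit : ∀ F : (ι → M) → ℝ, Ex w F = ∑ x : ((i : {i // i ∈ S}) → M),
      ∑ y : ((i : {i // ¬ i ∈ S}) → M),
        ((∏ i, w i.1 (x i)) * (∏ i, w i.1 (y i))) * F (e.symm (x, y)) := by
    intro F
    unfold Ex
    rw [← Fintype.sum_prod_type']
    refine Fintype.sum_equiv e _ _ fun ω => ?_
    have h1 : e.symm ((e ω).1, (e ω).2) = ω := by simp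
    rw [h1]
    congr 1
    rw [← Fintype.prod_subtype_mul_prod_subtype (fun i => i ∈ S)]
    rfl
  have hA : ∀ (x : (i : {i // i ∈ S}) → M) (y : (i : {i // ¬ i ∈ S}) → M),
      f (e.symm (x, y)) = f (e.symm (x, (e ω0).2)) := by
    intro x y
    apply hf
    intro i hi
    simp only [e, Equiv.piEquivPiSubtypeProd_symm_apply, hi, dite_true]
  have hB : ∀ (x : (i : {i // i ∈ S}) → M) (y : (i : {i // ¬ i ∈ S}) → M),
      g (e.symm (x, y)) = g (e.symm ((e ω0).1, y)) := by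
    intro x y
    apply hg
    intro i hi
    have hi' : ¬ i ∈ S := hi
    simp only [e, Equiv.piEquivPiSubtypeProd_symm_apply, hi', dite_false]
  have h1 : ∑ x : ((i : {i // i ∈ S}) → M), ∏ i, w i.1 (x i) = 1 :=
    sum_prod_eq_one (fun (i : {i // i ∈ S}) => w i.1) (fun i => hw.2 i.1)
  have h2 : ∑ y : ((i : {i // ¬ i ∈ S}) → M), ∏ i, w i.1 (y i) = 1 :=
    sum_prod_eq_one (fun (i : {i // ¬ i ∈ S}) => w i.1) (fun i => hw.2 i.1)
  have hf' : Ex w f = ∑ x : ((i : {i // i ∈ S}) → M), (∏ i, w i.1 (x i)) * f (e.symm (x, (e ω0).2)) := by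
    rw [hsplit f]
    refine Finset.sum_congr rfl fun x _ => ?_
    simp_rw [hA x]
    rw [← Finset.sum_mul, ← Finset.mul_sum, h2, mul_one]
  have hg' : Ex w g = ∑ y : ((i : {i // ¬ i ∈ S}) → M), (∏ i, w i.1 (y i)) * g (e.symm ((e ω0).1, y)) := by
    rw [hsplit g, Finset.sum_comm]
    refine Finset.sum_congr rfl fun y _ => ?_
    simp_rw [fun x => hB x y]
    rw [← Finset.sum_mul, ← Finset.sum_mul, h1, one_mul]
  rw [hf', hg', hsplit, Finset.sum_mul_sum]
  refine Finset.sum_congr rfl fun x _ => Finset.sum_congr rfl fun y _ => ?_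
  rw [hA x y, hB x y]
  ring

lemma Ex_mul {w : ι → M → ℝ} (hw : IsW w) {f g : (ι → M) → ℝ} {S T : Set ι}
    (hf : Dep f S) (hg : Dep g T) (hd : Disjoint S T) :
    Ex w (fun ω => f ω * g ω) = Ex w f * Ex w g :=
  Ex_split hw hf (hg.mono (Set.disjoint_left.1 hd.symm))

omit [Fintype ι] [DecidableEq ι] [Fintype M] in
lemma Dep_prod {κ : Type*} (J : Finset κ) (f : κ → (ι → M) → ℝ) (S : κ → Set ι)
    (hf : ∀ j ∈ J, Dep (f j) (S j)) : Dep (fun ω => ∏ j ∈ J, f j ω) (⋃ j ∈ J, S j) := by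
  intro ω ω' h
  refine Finset.prod_congr rfl fun j hj => hf j hj ω ω' fun i hi => h i ?_
  simp only [Set.mem_iUnion]
  exact ⟨j, hj, hi⟩

lemma Ex_prod {κ : Type*} {w : ι → M → ℝ} (hw : IsW w) (J : Finset κ)
    (f : κ → (ι → M) → ℝ) (S : κ → Set ι) (hf : ∀ j ∈ J, Dep (f j) (S j))
    (hd : ∀ j ∈ J, ∀ j' ∈ J, j ≠ j' → Disjoint (S j) (S j')) :
    Ex w (fun ω => ∏ j ∈ J, f j ω) = ∏ j ∈ J, Ex w (f j) := by
  classical
  induction J using Finset.induction_on with
  | empty => simp [Ex_const hw]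
  | insert a J ha ih =>
    have h1 : (fun ω => ∏ j ∈ insert a J, f j ω) = fun ω => f a ω * ∏ j ∈ J, f j ω := by
      funext ω; rw [Finset.prod_insert ha]
    rw [h1, Finset.prod_insert ha]
    rw [Ex_mul hw (hf a (mem_insert_self _ _))
      (Dep_prod J f S fun j hj => hf j (mem_insert_of_mem hj))]
    · rw [ih (fun j hj => hf j (mem_insert_of_mem hj))
        (fun j hj j' hj' => hd j (mem_insert_of_mem hj) j' (mem_insert_of_mem hj'))]
    · rw [Set.disjoint_iUnion₂_right]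
      intro j hj
      exact hd a (mem_insert_self _ _) j (mem_insert_of_mem hj) (fun h => ha (h ▸ hj))

/-- expectation of a function of one coordinate. -/
lemma Ex_coord {w : ι → M → ℝ} (hw : IsW w) (i : ι) (F : M → ℝ) :
    Ex w (fun ω => F (ω i)) = ∑ x, w i x * F x := by
  classical
  -- write `F (ω i)` as a product over all coordinates
  have h1 : Ex w (fun ω => F (ω i)) =
      ∑ ω : ι → M, ∏ j, (w j (ω j) * (if j = i then F (ω j) else 1)) := by
    unfold Ex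
    refine Finset.sum_congr rfl fun ω _ => ?_
    rw [Finset.prod_mul_distrib, Finset.prod_ite_eq' univ i (fun j => F (ω j))]
    simp
  rw [h1]
  have h := Finset.prod_univ_sum (fun _ : ι => (univ : Finset M))
    (fun j x => w j x * (if j = i then F x else 1))
  rw [Fintype.piFinset_univ] at h
  rw [← h, ← Finset.mul_prod_erase univ _ (mem_univ i)]
  have h2 : ∏ j ∈ univ.erase i, ∑ x, w j x * (if j = i then F x else 1) = 1 := by
    refine Finset.prod_eq_one fun j hj => ?_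
    simp [(Finset.mem_erase.1 hj).1, hw.2 j]
  rw [h2, mul_one]
  simp

end
end UF58
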