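import Pool.Agent.helper58.UF.Defs
import Pool.Agent.helper58.UF.Prob
import Pool.Agent.helper58.UF.Branch

/-! Message passing on a sparse structure. -/

namespace UF58
open Finset Classical

noncomputable section

variable {β P : Type} [Fintype β] [Fintype P] (pts : β → Finset P) (C : Finset (Finset β)) (R : ℕ)

/-- coordinates: one per block, one per point and round. -/
abbrev Crd (β P : Type) (R : ℕ) : Type := β ⊕ (P × Fin (R + 1))
/-- values: label in `0..R` (`R` = none) and a flag. -/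
abbrev Val (R : ℕ) : Type := Fin (R + 1) × Bool

variable {R}

/-- label of a block. -/
def lab (ω : Crd β P R → Val R) (B : β) : ℕ := (ω (Sum.inl B)).1.val
/-- flag of a block. -/
def flag (ω : Crd β P R → Val R) (B : β) : Prop := (ω (Sum.inl B)).2 = true
/-- flag of a point at round `s`. -/
def xi (ω : Crd β P R → Val R) (v : P) (s : ℕ) : Prop := (ω (Sum.inr (v, Fin.ofNat (R + 1) s))).2 = true

/-- hub `h` blocks block `B` at round `s`. -/
def blk (ω : Crd β P R → Val R) (s : ℕ) (B : β) (h : P ⊕ Finset β) : Prop :=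
  let act : β → Prop := fun B' => lab ω B' = s ∨ ∃ s' : Fin s, lab ω B' = s'.val ∧ flag ω B' ∧
    ∀ h', (incG pts C).Adj (Sum.inl B') (Sum.inr h') → h' ≠ h → ¬ blk ω s'.val B' h'
  match h with
  | Sum.inl v => ¬ xi ω v s ∨ ∃ B', v ∈ pts B' ∧ B' ≠ B ∧ act B'
  | Sum.inr c => ∀ B' ∈ c, B' ≠ B → act B'
termination_by s
decreasing_by exact s'.isLt

/-- block `B` is accepted at round `s` apart from hub `h`. -/
def ok (ω : Crd β P R → Val R) (s : ℕ) (B : β) (h : P ⊕ Finset β) : Prop :=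
  lab ω B = s ∧ flag ω B ∧
    ∀ h', (incG pts C).Adj (Sum.inl B) (Sum.inr h') → h' ≠ h → ¬ blk pts C ω s B h'

/-- block `B'` is active for hub `h` at round `s`. -/
def act (ω : Crd β P R → Val R) (s : ℕ) (B' : β) (h : P ⊕ Finset β) : Prop :=
  lab ω B' = s ∨ ∃ s' < s, ok pts C ω s' B' h

lemma blk_pt (ω : Crd β P R → Val R) (s : ℕ) (B : β) (v : P) :
    blk pts C ω s B (Sum.inl v) ↔
      (¬ xi ω v s ∨ ∃ B', v ∈ pts B' ∧ B' ≠ B ∧ act pts C ω s B' (Sum.inl v)) := by
  rw [blk]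
  simp only [act, ok]
  constructor
  · rintro (h | ⟨B', h1, h2, h3⟩)
    · exact Or.inl h
    · refine Or.inr ⟨B', h1, h2, ?_⟩
      rcases h3 with h3 | ⟨s', h3, h4, h5⟩
      · exact Or.inl h3
      · exact Or.inr ⟨s'.val, s'.isLt, h3, h4, h5⟩
  · rintro (h | ⟨B', h1, h2, h3⟩)
    · exact Or.inl h
    · refine Or.inr ⟨B', h1, h2, ?_⟩
      rcases h3 with h3 | ⟨s', hs', h3, h4, h5⟩
      · exact Or.inl h3
      · exact Or.inr ⟨⟨s', hs'⟩, h3, h4, h5⟩

lemma blk_cf (ω : Crd β P R → Val R) (s : ℕ) (B : β) (c : Finset β) :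
    blk pts C ω s B (Sum.inr c) ↔ ∀ B' ∈ c, B' ≠ B → act pts C ω s B' (Sum.inr c) := by
  rw [blk]
  simp only [act, ok]
  constructor
  · intro h B' h1 h2
    rcases h B' h1 h2 with h3 | ⟨s', h3, h4, h5⟩
    · exact Or.inl h3
    · exact Or.inr ⟨s'.val, s'.isLt, h3, h4, h5⟩
  · intro h B' h1 h2
    rcases h B' h1 h2 with h3 | ⟨s', hs', h3, h4, h5⟩
    · exact Or.inl h3
    · exact Or.inr ⟨⟨s', hs'⟩, h3, h4, h5⟩

/-- block `B` is accepted. -/
def acc (ω : Crd β P R → Val R) (B : β) : Prop :=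
  lab ω B < R ∧ flag ω B ∧
    ∀ h', (incG pts C).Adj (Sum.inl B) (Sum.inr h') → ¬ blk pts C ω (lab ω B) B h'

lemma acc.ok {ω : Crd β P R → Val R} {B : β} (h : acc pts C ω B) (h' : P ⊕ Finset β) :
    ok pts C ω (lab ω B) B h' := ⟨rfl, h.2.1, fun h'' hadj _ => h.2.2 h'' hadj⟩

/-- accepted blocks form a matching. -/
lemma acc_disjoint {ω : Crd β P R → Val R} {B B' : β} (hB : acc pts C ω B) (hB' : acc pts C ω B')
    (hne : B ≠ B') : Disjoint (pts B) (pts B') := by
  rw [Finset.disjoint_left]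
  intro v hv hv'
  have hadj : (incG pts C).Adj (Sum.inl B) (Sum.inr (Sum.inl v)) := hv
  have hadj' : (incG pts C).Adj (Sum.inl B') (Sum.inr (Sum.inl v)) := hv'
  have h1 := hB.2.2 _ hadj
  have h2 := hB'.2.2 _ hadj'
  rw [blk_pt] at h1 h2
  push Not at h1 h2
  rcases lt_trichotomy (lab ω B) (lab ω B') with hlt | heq | hgt
  · exact h2.2 B hv hne (Or.inr ⟨lab ω B, hlt, hB.ok pts C _⟩)
  · exact h1.2 B' hv' hne.symm (Or.inl heq.symm)
  · exact h1.2 B' hv' hne.symm (Or.inr ⟨lab ω B', hgt, hB'.ok pts C _⟩)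

/-- no conflict is accepted. -/
lemma acc_conf {ω : Crd β P R → Val R} {c : Finset β} (hc : c ∈ C) (hne : c.Nonempty) :
    ¬ ∀ B ∈ c, acc pts C ω B := by
  intro h
  obtain ⟨B, hB, hmax⟩ := Finset.exists_max_image c (fun B => lab ω B) hne
  have hadj : (incG pts C).Adj (Sum.inl B) (Sum.inr (Sum.inr c)) := ⟨hc, hB⟩
  refine (h B hB).2.2 _ hadj ?_
  rw [blk_cf]
  intro B' hB' _
  rcases lt_or_eq_of_le (hmax B' hB') with h1 | h1
  · exact Or.inr ⟨lab ω B', h1, (h B' hB').ok pts C _⟩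
  · exact Or.inl h1

/-! ### locality -/

/-- vertex of a coordinate. -/
def cv : Crd β P R → β ⊕ (P ⊕ Finset β)
  | Sum.inl B => Sum.inl B
  | Sum.inr (v, _) => Sum.inr (Sum.inl v)

lemma dep_lab (B : β) (W : Set (β ⊕ (P ⊕ Finset β))) (hB : Sum.inl B ∈ W) (s : ℕ) :
    Dep (fun ω : Crd β P R → Val R => lab ω B = s) (cv ⁻¹' W) := by
  intro ω ω' h
  have := h (Sum.inl B) hB
  simp only [lab, this]

lemma dep_flag (B : β) (W : Set (β ⊕ (P ⊕ Finset β))) (hB : Sum.inl B ∈ W) :
    Dep (fun ω : Crd β P R → Val R => flag ω B) (cv ⁻¹' W) := by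
  intro ω ω' h
  have := h (Sum.inl B) hB
  simp only [flag, this]

lemma dep_xi (v : P) (s : ℕ) (W : Set (β ⊕ (P ⊕ Finset β))) (hv : Sum.inr (Sum.inl v) ∈ W) :
    Dep (fun ω : Crd β P R → Val R => xi ω v s) (cv ⁻¹' W) := by
  intro ω ω' h
  have := h (Sum.inr (v, Fin.ofNat (R + 1) s)) hv
  simp only [xi, this]

lemma dep_all (s : ℕ) :
    (∀ (B : β) (h : P ⊕ Finset β), (incG pts C).Adj (Sum.inl B) (Sum.inr h) →
      Dep (fun ω : Crd β P R → Val R => act pts C ω s B h)
        (cv ⁻¹' br (incG pts C) (2 * s) (Sum.inr h) (Sum.inl B))) ∧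
    (∀ (B : β) (h : P ⊕ Finset β), (incG pts C).Adj (Sum.inl B) (Sum.inr h) →
      Dep (fun ω : Crd β P R → Val R => blk pts C ω s B h)
        (cv ⁻¹' br (incG pts C) (2 * s + 1) (Sum.inl B) (Sum.inr h))) ∧
    (∀ (B : β) (h : P ⊕ Finset β), (incG pts C).Adj (Sum.inl B) (Sum.inr h) →
      Dep (fun ω : Crd β P R → Val R => ok pts C ω s B h)
        (cv ⁻¹' br (incG pts C) (2 * s + 2) (Sum.inr h) (Sum.inl B))) := by
  induction s using Nat.strong_induction_on with
  | _ s ih =>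
    have hact : ∀ (B : β) (h : P ⊕ Finset β), (incG pts C).Adj (Sum.inl B) (Sum.inr h) →
        Dep (fun ω : Crd β P R → Val R => act pts C ω s B h)
          (cv ⁻¹' br (incG pts C) (2 * s) (Sum.inr h) (Sum.inl B)) := by
      intro B h hadj ω ω' hω
      have h1 := dep_lab B _ (br_self (incG pts C) (2 * s) (Sum.inr h) (Sum.inl B)) s ω ω' hω
      have h2 : ∀ s' < s, ok pts C ω s' B h = ok pts C ω' s' B h := by
        intro s' hs'
        refine ((ih s' hs').2.2 B h hadj).mono ?_ ω ω' hω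
        exact Set.preimage_mono (br_mono _ (by omega) _ _)
      simp only [act]
      have h1' : (lab ω B = s) = (lab ω' B = s) := h1
      rw [h1']
      congr 1
      apply propext
      constructor
      · rintro ⟨s', hs', h3⟩
        exact ⟨s', hs', by rw [← h2 s' hs']; exact h3⟩
      · rintro ⟨s', hs', h3⟩
        exact ⟨s', hs', by rw [h2 s' hs']; exact h3⟩
    have hblk : ∀ (B : β) (h : P ⊕ Finset β), (incG pts C).Adj (Sum.inl B) (Sum.inr h) →
        Dep (fun ω : Crd β P R → Val R => blk pts C ω s B h)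
          (cv ⁻¹' br (incG pts C) (2 * s + 1) (Sum.inl B) (Sum.inr h)) := by
      intro B h hadj ω ω' hω
      have hsub : ∀ B' : β, (incG pts C).Adj (Sum.inl B') (Sum.inr h) → B' ≠ B →
          act pts C ω s B' h = act pts C ω' s B' h := by
        intro B' hadj' hne
        refine (hact B' h hadj').mono ?_ ω ω' hω
        refine Set.preimage_mono ?_
        intro t ht
        exact Or.inr ⟨Sum.inl B', hadj'.symm, fun h => hne (Sum.inl.inj h), ht⟩
      apply propext
      match h, hadj, hω, hsub with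
      | Sum.inl v, hadj, hω, hsub =>
        show blk pts C ω s B (Sum.inl v) ↔ blk pts C ω' s B (Sum.inl v)
        rw [blk_pt, blk_pt]
        have hx : xi ω v s = xi ω' v s := dep_xi v s _ (br_self (incG pts C) _ _ _) ω ω' hω
        rw [hx]
        constructor
        · rintro (h | ⟨B', h1, h2, h3⟩)
          · exact Or.inl h
          · exact Or.inr ⟨B', h1, h2, by rw [← hsub B' h1 h2]; exact h3⟩
        · rintro (h | ⟨B', h1, h2, h3⟩)
          · exact Or.inl h
          · exact Or.inr ⟨B', h1, h2, by rw [hsub B' h1 h2]; exact h3⟩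
      | Sum.inr c, hadj, hω, hsub =>
        show blk pts C ω s B (Sum.inr c) ↔ blk pts C ω' s B (Sum.inr c)
        rw [blk_cf, blk_cf]
        have hcC : c ∈ C := hadj.1
        constructor
        · intro h B' h1 h2
          rw [← hsub B' ⟨hcC, h1⟩ h2]; exact h B' h1 h2
        · intro h B' h1 h2
          rw [hsub B' ⟨hcC, h1⟩ h2]; exact h B' h1 h2
    refine ⟨hact, hblk, ?_⟩
    intro B h hadj ω ω' hω
    have h1 : (lab ω B = s) = (lab ω' B = s) :=
      dep_lab B _ (br_self (incG pts C) (2 * s + 2) (Sum.inr h) (Sum.inl B)) s ω ω' hω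
    have h2 : flag ω B = flag ω' B :=
      dep_flag B _ (br_self (incG pts C) (2 * s + 2) (Sum.inr h) (Sum.inl B)) ω ω' hω
    have hsub : ∀ h', (incG pts C).Adj (Sum.inl B) (Sum.inr h') → h' ≠ h →
        blk pts C ω s B h' = blk pts C ω' s B h' := by
      intro h' hadj' hne
      refine (hblk B h' hadj').mono ?_ ω ω' hω
      refine Set.preimage_mono ?_
      intro t ht
      exact Or.inr ⟨Sum.inr h', hadj', fun h => hne (Sum.inr.inj h), ht⟩
    apply propext
    simp only [ok]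
    rw [h1, h2]
    constructor
    · rintro ⟨h3, h4, h5⟩
      exact ⟨h3, h4, fun h' hadj' hne => by rw [← hsub h' hadj' hne]; exact h5 h' hadj' hne⟩
    · rintro ⟨h3, h4, h5⟩
      exact ⟨h3, h4, fun h' hadj' hne => by rw [hsub h' hadj' hne]; exact h5 h' hadj' hne⟩

end
end UF58
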