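import Pool.Agent.helper58.UF.Prob

/-! Abstract sampling and deletion. -/

namespace UF58
open Finset

noncomputable section

variable {Φ : Type} [Fintype Φ] [DecidableEq Φ]

/-- Bernoulli weights. -/
def bw (θ : ℝ) : Φ → Bool → ℝ := fun _ b => if b then θ else 1 - θ

lemma bw_isW {θ : ℝ} (h0 : 0 ≤ θ) (h1 : θ ≤ 1) : IsW (bw θ : Φ → Bool → ℝ) := by
  refine ⟨fun i x => ?_, fun i => ?_⟩
  · unfold bw; split_ifs
    · exact h0
    · linarith
  · simp [bw]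

/-- indicator of a coordinate. -/
def cI (φ : Φ) (ω : Φ → Bool) : ℝ := if ω φ then 1 else 0

/-- the selected set. -/
def sel (ω : Φ → Bool) : Finset Φ := univ.filter (fun φ => ω φ = true)

lemma mem_sel (ω : Φ → Bool) (φ : Φ) : φ ∈ sel ω ↔ ω φ = true := by simp [sel]

lemma dep_cI (φ : Φ) : Dep (cI φ : (Φ → Bool) → ℝ) {φ} := by
  intro ω ω' h
  unfold cI
  rw [h φ rfl]

lemma Ex_cI {θ : ℝ} (h0 : 0 ≤ θ) (h1 : θ ≤ 1) (φ : Φ) : Ex (bw θ) (cI φ) = θ := by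
  have h := Ex_coord (bw_isW (Φ := Φ) h0 h1) φ (fun b => if b then (1 : ℝ) else 0)
  have h2 : (cI φ : (Φ → Bool) → ℝ) = fun ω => (fun b => if b then (1 : ℝ) else 0) (ω φ) := rfl
  rw [h2, h]
  simp [bw]

lemma Ex_subset {θ : ℝ} (h0 : 0 ≤ θ) (h1 : θ ≤ 1) (S : Finset Φ) :
    Ex (bw θ) (fun ω => if S ⊆ sel ω then (1 : ℝ) else 0) = θ ^ S.card := by
  have h2 : (fun ω : Φ → Bool => if S ⊆ sel ω then (1 : ℝ) else 0) = fun ω => ∏ φ ∈ S, cI φ ω := by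
    funext ω
    by_cases h : S ⊆ sel ω
    · rw [if_pos h]
      symm
      refine Finset.prod_eq_one fun φ hφ => ?_
      have := (mem_sel ω φ).1 (h hφ)
      simp [cI, this]
    · rw [if_neg h]
      symm
      obtain ⟨φ, hφ, hφ'⟩ := Finset.not_subset.1 h
      refine Finset.prod_eq_zero hφ ?_
      have : ¬ ω φ = true := fun h' => hφ' ((mem_sel ω φ).2 h')
      simp [cI, this]
  rw [h2, Ex_prod (bw_isW h0 h1) S cI (fun φ => {φ}) (fun φ _ => dep_cI φ)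
    (fun φ _ ψ _ hne => by simpa using hne), Finset.prod_congr rfl (fun φ _ => Ex_cI h0 h1 φ),
    Finset.prod_const]

lemma Ex_var {θ : ℝ} (h0 : 0 ≤ θ) (h1 : θ ≤ 1) (A : Finset Φ) :
    Ex (bw θ) (fun ω => ((((sel ω) ∩ A).card : ℝ) - θ * A.card) ^ 2) ≤ θ * A.card := by
  have hW := bw_isW (Φ := Φ) h0 h1
  have h2 : (fun ω : Φ → Bool => ((((sel ω) ∩ A).card : ℝ) - θ * A.card) ^ 2) =
      fun ω => ∑ φ ∈ A, ∑ ψ ∈ A, (cI φ ω - θ) * (cI ψ ω - θ) := by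
    funext ω
    have h3 : (((sel ω) ∩ A).card : ℝ) - θ * A.card = ∑ φ ∈ A, (cI φ ω - θ) := by
      rw [Finset.sum_sub_distrib]
      simp only [cI, Finset.sum_boole, Finset.sum_const, nsmul_eq_mul]
      congr 1
      · congr 2
        ext φ
        simp [mem_sel, and_comm]
      · ring
    rw [h3, sq, Finset.sum_mul_sum]
  rw [h2, Ex_sum]
  have h3 : ∀ φ ∈ A, Ex (bw θ) (fun ω => ∑ ψ ∈ A, (cI φ ω - θ) * (cI ψ ω - θ)) = θ * (1 - θ) := by
    intro φ hφ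
    rw [Ex_sum, Finset.sum_eq_single φ]
    · have h := Ex_coord hW φ (fun b => ((if b then (1 : ℝ) else 0) - θ) * ((if b then (1 : ℝ) else 0) - θ))
      have h2 : (fun ω : Φ → Bool => (cI φ ω - θ) * (cI φ ω - θ)) =
        fun ω => (fun b => ((if b then (1 : ℝ) else 0) - θ) * ((if b then (1 : ℝ) else 0) - θ)) (ω φ) := rfl
      rw [h2, h]
      simp [bw]
      ring
    · intro ψ _ hne
      have d1 : Dep (fun ω : Φ → Bool => cI φ ω - θ) {φ} := fun ω ω' h => by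
        show cI φ ω - θ = cI φ ω' - θ
        rw [dep_cI φ ω ω' h]
      have d2 : Dep (fun ω : Φ → Bool => cI ψ ω - θ) {ψ} := fun ω ω' h => by
        show cI ψ ω - θ = cI ψ ω' - θ
        rw [dep_cI ψ ω ω' h]
      rw [Ex_mul hW d1 d2 (by simpa using hne.symm), Ex_sub, Ex_const hW]
      have : Ex (bw θ) (fun ω : Φ → Bool => cI φ ω) = θ := Ex_cI h0 h1 φ
      rw [this]
      ring
    · intro h; exact absurd hφ h
  rw [Finset.sum_congr rfl h3, Finset.sum_const, nsmul_eq_mul]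
  have : (0 : ℝ) ≤ A.card := Nat.cast_nonneg _
  nlinarith [mul_nonneg this (mul_nonneg h0 h0)]

lemma Ex_mul_const (w : Φ → Bool → ℝ) (c : ℝ) (f : (Φ → Bool) → ℝ) :
    Ex w (fun ω => c * f ω) = c * Ex w f := by
  unfold Ex
  rw [Finset.mul_sum]
  exact Finset.sum_congr rfl fun ω _ => by ring

lemma pos_part_le {x d Δ : ℝ} (h : d < Δ) : Δ ≤ x → x - Δ ≤ (x - d) ^ 2 * (1 / (4 * (Δ - d))) := by
  intro hx
  have h1 : 0 < 4 * (Δ - d) := by linarith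
  rw [mul_one_div, le_div_iff₀ h1]
  nlinarith [sq_nonneg (x - Δ - (Δ - d))]

theorem sampling {θ : ℝ} (h0 : 0 ≤ θ) (h1 : θ ≤ 1) {Pt : Type} [Fintype Pt] (Φp : Pt → Finset Φ)
    (Bad Cf : Finset (Finset Φ)) (Δ : ℕ) {κ d : ℝ} (hd : ∀ p, θ * (Φp p).card = d) (hdΔ : d < Δ) :
    ∃ T : Finset Φ, θ * (Fintype.card Φ : ℝ) - (Fintype.card Pt : ℝ) * (d * (1 / (4 * (Δ - d)))) -
        ∑ S ∈ Bad, θ ^ S.card - κ * ∑ c ∈ Cf, θ ^ c.card ≤
      (T.card : ℝ) - ∑ p, (((T ∩ Φp p).card - Δ : ℕ) : ℝ) - ((Bad.filter (fun S => S ⊆ T)).card : ℝ) -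
        κ * ((Cf.filter (fun S => S ⊆ T)).card : ℝ) := by
  have hW := bw_isW (Φ := Φ) h0 h1
  obtain ⟨ω, hω⟩ := exists_ge_Ex hW (fun ω : Φ → Bool => ∑ φ, cI φ ω -
    ∑ p, (1 / (4 * ((Δ : ℝ) - d))) * ((((sel ω) ∩ Φp p).card : ℝ) - θ * (Φp p).card) ^ 2 -
    ∑ S ∈ Bad, (if S ⊆ sel ω then (1 : ℝ) else 0) - κ * ∑ c ∈ Cf, (if c ⊆ sel ω then (1 : ℝ) else 0))
  refine ⟨sel ω, ?_⟩
  rw [Ex_sub, Ex_sub, Ex_sub, Ex_sum, Ex_sum, Ex_sum, Ex_mul_const, Ex_sum] at hω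
  simp_rw [Ex_mul_const] at hω
  rw [Finset.sum_congr rfl (fun S _ => Ex_subset h0 h1 S), Finset.sum_congr rfl (fun S _ => Ex_subset h0 h1 S)] at hω
  have e1 : ∑ φ : Φ, Ex (bw θ) (fun ω : Φ → Bool => cI φ ω) = θ * (Fintype.card Φ : ℝ) := by
    rw [Finset.sum_congr rfl (fun φ _ => Ex_cI h0 h1 φ)]
    simp [mul_comm]
  rw [e1] at hω
  have hc : 0 < 1 / (4 * ((Δ : ℝ) - d)) := by
    apply one_div_pos.2; linarith
  have e2 : ∑ p, (1 / (4 * ((Δ : ℝ) - d))) * Ex (bw θ) (fun ω : Φ → Bool =>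
      ((((sel ω) ∩ Φp p).card : ℝ) - θ * (Φp p).card) ^ 2) ≤
      (Fintype.card Pt : ℝ) * (d * (1 / (4 * (Δ - d)))) := by
    have : ∀ p ∈ (univ : Finset Pt), (1 / (4 * ((Δ : ℝ) - d))) * Ex (bw θ) (fun ω : Φ → Bool =>
      ((((sel ω) ∩ Φp p).card : ℝ) - θ * (Φp p).card) ^ 2) ≤ d * (1 / (4 * (Δ - d))) := by
      intro p _
      have := Ex_var h0 h1 (Φp p)
      rw [hd p] at this
      rw [mul_comm]
      rw [hd p]
      exact mul_le_mul_of_nonneg_right this hc.le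
    refine (Finset.sum_le_sum this).trans ?_
    rw [Finset.sum_const, Finset.card_univ, nsmul_eq_mul]
  have f1 : ∑ φ, cI φ ω = ((sel ω).card : ℝ) := by
    simp [cI, sel]
  have f2 : ∑ p, (((sel ω ∩ Φp p).card - Δ : ℕ) : ℝ) ≤
      ∑ p, (1 / (4 * ((Δ : ℝ) - d))) * ((((sel ω) ∩ Φp p).card : ℝ) - θ * (Φp p).card) ^ 2 := by
    refine Finset.sum_le_sum fun p _ => ?_
    rcases le_total Δ (sel ω ∩ Φp p).card with h | h
    · rw [Nat.cast_sub h, hd p, mul_comm]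
      exact pos_part_le hdΔ (by exact_mod_cast h)
    · rw [Nat.sub_eq_zero_of_le h]
      simp only [Nat.cast_zero]
      exact mul_nonneg hc.le (sq_nonneg _)
  have f3 : ∑ S ∈ Bad, (if S ⊆ sel ω then (1 : ℝ) else 0) = ((Bad.filter (fun S => S ⊆ sel ω)).card : ℝ) := by
    rw [Finset.sum_boole]
  have f4 : ∑ S ∈ Cf, (if S ⊆ sel ω then (1 : ℝ) else 0) = ((Cf.filter (fun S => S ⊆ sel ω)).card : ℝ) := by
    rw [Finset.sum_boole]
  rw [f1, f3, f4] at hω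
  linarith

/-- deletion. -/
theorem deletion {Pt : Type} [Fintype Pt] (Φp : Pt → Finset Φ) (Bad Cf : Finset (Finset Φ)) (Δ : ℕ)
    {K : ℝ} (hK : 0 < K) (hBad : ∀ S ∈ Bad, S.Nonempty) (hCf : ∀ c ∈ Cf, c.card = 4) (T : Finset Φ) :
    ∃ H ⊆ T, (∀ p, (H ∩ Φp p).card ≤ Δ) ∧ (∀ S ∈ Bad, ¬ S ⊆ H) ∧
      (∀ φ ∈ H, ((Cf.filter (fun c => c ⊆ H ∧ φ ∈ c)).card : ℝ) ≤ K) ∧
      (T.card : ℝ) - ∑ p, (((T ∩ Φp p).card - Δ : ℕ) : ℝ) - ((Bad.filter (fun S => S ⊆ T)).card : ℝ) -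
        (4 / K) * ((Cf.filter (fun S => S ⊆ T)).card : ℝ) ≤ (H.card : ℝ) := by
  classical
  have hR : ∀ p, ∃ R ⊆ T ∩ Φp p, R.card = (T ∩ Φp p).card - Δ := fun p =>
    Finset.exists_subset_card_eq (Nat.sub_le _ _)
  choose R hR1 hR2 using hR
  let D1 : Finset Φ := univ.biUnion R
  let pick : Finset Φ → Finset Φ := fun S => if h : S.Nonempty then {h.choose} else ∅
  let D2 : Finset Φ := (Bad.filter (fun S => S ⊆ T)).biUnion pick
  let D3 : Finset Φ := T.filter (fun φ => K < ((Cf.filter (fun c => c ⊆ T ∧ φ ∈ c)).card : ℝ))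
  have c1 : (D1.card : ℝ) ≤ ∑ p, (((T ∩ Φp p).card - Δ : ℕ) : ℝ) := by
    have h : D1.card ≤ ∑ p, ((T ∩ Φp p).card - Δ) :=
      Finset.card_biUnion_le.trans (le_of_eq (Finset.sum_congr rfl fun p _ => hR2 p))
    exact_mod_cast h
  have c2 : (D2.card : ℝ) ≤ ((Bad.filter (fun S => S ⊆ T)).card : ℝ) := by
    have h : D2.card ≤ ∑ S ∈ Bad.filter (fun S => S ⊆ T), 1 := by
      refine Finset.card_biUnion_le.trans (Finset.sum_le_sum fun S _ => ?_)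
      simp only [pick]
      split_ifs <;> simp
    rw [Finset.sum_const, smul_eq_mul, mul_one] at h
    exact_mod_cast h
  have c3 : (D3.card : ℝ) ≤ (4 / K) * ((Cf.filter (fun S => S ⊆ T)).card : ℝ) := by
    have h1 : (D3.card : ℝ) * K ≤ ∑ φ ∈ D3, ((Cf.filter (fun c => c ⊆ T ∧ φ ∈ c)).card : ℝ) := by
      rw [← nsmul_eq_mul, ← Finset.sum_const]
      exact Finset.sum_le_sum fun φ hφ => ((Finset.mem_filter.1 hφ).2).le
    have h2 : ∑ φ ∈ D3, ((Cf.filter (fun c => c ⊆ T ∧ φ ∈ c)).card : ℝ) ≤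
        ∑ φ : Φ, ((Cf.filter (fun c => c ⊆ T ∧ φ ∈ c)).card : ℝ) :=
      Finset.sum_le_sum_of_subset_of_nonneg (Finset.subset_univ _) fun _ _ _ => Nat.cast_nonneg _
    have h3 : ∑ φ : Φ, ((Cf.filter (fun c => c ⊆ T ∧ φ ∈ c)).card : ℝ) =
        4 * ((Cf.filter (fun S => S ⊆ T)).card : ℝ) := by
      have h4 : ∑ φ : Φ, (Cf.filter (fun c => c ⊆ T ∧ φ ∈ c)).card =
          ∑ c ∈ Cf.filter (fun S => S ⊆ T), c.card := by
        have h5 : ∀ φ : Φ, (Cf.filter (fun c => c ⊆ T ∧ φ ∈ c)).card =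
            ∑ c ∈ Cf.filter (fun S => S ⊆ T), if φ ∈ c then 1 else 0 := by
          intro φ
          rw [← Finset.card_filter, Finset.filter_filter]
        simp_rw [h5]
        rw [Finset.sum_comm]
        refine Finset.sum_congr rfl fun c _ => ?_
        rw [Finset.sum_ite_mem, Finset.univ_inter, Finset.sum_const, smul_eq_mul, mul_one]
      have h6 : ∑ c ∈ Cf.filter (fun S => S ⊆ T), c.card = (Cf.filter (fun S => S ⊆ T)).card * 4 := by
        rw [Finset.sum_congr rfl fun c hc => hCf c (Finset.mem_filter.1 hc).1, Finset.sum_const, smul_eq_mul]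
      rw [h6] at h4
      have : (((∑ φ : Φ, (Cf.filter (fun c => c ⊆ T ∧ φ ∈ c)).card : ℕ)) : ℝ) =
        (((Cf.filter (fun S => S ⊆ T)).card * 4 : ℕ) : ℝ) := by rw [h4]
      push_cast at this
      linarith
    rw [div_mul_eq_mul_div, le_div_iff₀ hK]
    linarith
  refine ⟨T \ (D1 ∪ (D2 ∪ D3)), Finset.sdiff_subset, ?_, ?_, ?_, ?_⟩
  · intro p
    have h1 : (T \ (D1 ∪ (D2 ∪ D3))) ∩ Φp p ⊆ (T ∩ Φp p) \ R p := by
      intro φ hφ
      rw [Finset.mem_inter, Finset.mem_sdiff] at hφ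
      rw [Finset.mem_sdiff, Finset.mem_inter]
      refine ⟨⟨hφ.1.1, hφ.2⟩, fun h => hφ.1.2 ?_⟩
      exact Finset.mem_union_left _ (Finset.mem_biUnion.2 ⟨p, Finset.mem_univ _, h⟩)
    refine (Finset.card_le_card h1).trans ?_
    rw [Finset.card_sdiff_of_subset (hR1 p), hR2 p]
    omega
  · intro S hS hsub
    have hT : S ⊆ T := hsub.trans Finset.sdiff_subset
    have hne := hBad S hS
    have hmem : hne.choose ∈ S := hne.choose_spec
    have h2 : hne.choose ∈ D2 := by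
      refine Finset.mem_biUnion.2 ⟨S, Finset.mem_filter.2 ⟨hS, hT⟩, ?_⟩
      simp only [pick]
      rw [dif_pos hne]
      simp
    have h3 := (Finset.mem_sdiff.1 (hsub hmem)).2
    exact h3 (Finset.mem_union_right _ (Finset.mem_union_left _ h2))
  · intro φ hφ
    rw [Finset.mem_sdiff] at hφ
    have h1 : φ ∉ D3 := fun h => hφ.2 (Finset.mem_union_right _ (Finset.mem_union_right _ h))
    have h2 : ¬ K < ((Cf.filter (fun c => c ⊆ T ∧ φ ∈ c)).card : ℝ) := fun h =>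
      h1 (Finset.mem_filter.2 ⟨hφ.1, h⟩)
    refine le_trans ?_ (not_lt.1 h2)
    have h3 : Cf.filter (fun c => c ⊆ T \ (D1 ∪ (D2 ∪ D3)) ∧ φ ∈ c) ⊆ Cf.filter (fun c => c ⊆ T ∧ φ ∈ c) := by
      intro c hc
      rw [Finset.mem_filter] at hc ⊢
      exact ⟨hc.1, hc.2.1.trans Finset.sdiff_subset, hc.2.2⟩
    exact_mod_cast Finset.card_le_card h3
  · have h1 : (T.card : ℝ) ≤ ((T \ (D1 ∪ (D2 ∪ D3))).card : ℝ) + (D1.card + (D2.card + D3.card)) := by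
      have h2 : T ⊆ (T \ (D1 ∪ (D2 ∪ D3))) ∪ (D1 ∪ (D2 ∪ D3)) := by
        intro x hx
        by_cases h : x ∈ D1 ∪ (D2 ∪ D3)
        · exact Finset.mem_union_right _ h
        · exact Finset.mem_union_left _ (Finset.mem_sdiff.2 ⟨hx, h⟩)
      have h3 := (Finset.card_le_card h2).trans ((Finset.card_union_le _ _).trans
        (Nat.add_le_add_left ((Finset.card_union_le _ _).trans
          (Nat.add_le_add_left (Finset.card_union_le _ _) _)) _))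
      exact_mod_cast h3
    linarith

end
end UF58
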