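import Pool.Agent.helper58.UF.Law

/-! The scalar recursion. -/

namespace UF58
open Finset Classical

noncomputable section

/-- state of the recursion. -/
def st (ρ Δ K : ℕ) (p : ℝ) : ℕ → ℝ × ℝ
  | 0 => (0, 0)
  | s + 1 =>
    ((st ρ Δ K p s).1 + p * ((1 - (p + (st ρ Δ K p s).1)) ^ (Δ - 1)) ^ ρ *
        (1 - (p + (st ρ Δ K p s).2) ^ 3) ^ K / (1 - (p + (st ρ Δ K p s).1)) ^ (Δ - 1),
     (st ρ Δ K p s).2 + p * ((1 - (p + (st ρ Δ K p s).1)) ^ (Δ - 1)) ^ ρ *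
        (1 - (p + (st ρ Δ K p s).2) ^ 3) ^ K / (1 - (p + (st ρ Δ K p s).2) ^ 3))

variable (ρ Δ K : ℕ) (p : ℝ)

/-- a -/
def sa (s : ℕ) : ℝ := (st ρ Δ K p s).1
/-- a' -/
def sc (s : ℕ) : ℝ := (st ρ Δ K p s).2
/-- ν -/
def sν (s : ℕ) : ℝ := (1 - (p + sa ρ Δ K p s)) ^ (Δ - 1)
/-- κ -/
def sκ (s : ℕ) : ℝ := 1 - (p + sc ρ Δ K p s) ^ 3
/-- g -/
def sg (s : ℕ) : ℝ := p * sν ρ Δ K p s ^ ρ * sκ ρ Δ K p s ^ K

lemma sa_zero : sa ρ Δ K p 0 = 0 := rfl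
lemma sc_zero : sc ρ Δ K p 0 = 0 := rfl
lemma sa_succ (s : ℕ) : sa ρ Δ K p (s + 1) = sa ρ Δ K p s + sg ρ Δ K p s / sν ρ Δ K p s := rfl
lemma sc_succ (s : ℕ) : sc ρ Δ K p (s + 1) = sc ρ Δ K p s + sg ρ Δ K p s / sκ ρ Δ K p s := rfl

lemma sa_sum (s : ℕ) : sa ρ Δ K p s = ∑ s' ∈ range s, sg ρ Δ K p s' / sν ρ Δ K p s' := by
  induction s with
  | zero => simp [sa_zero]
  | succ s ih => rw [sa_succ, Finset.sum_range_succ, ih]

lemma sc_sum (s : ℕ) : sc ρ Δ K p s = ∑ s' ∈ range s, sg ρ Δ K p s' / sκ ρ Δ K p s' := by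
  induction s with
  | zero => simp [sc_zero]
  | succ s ih => rw [sc_succ, Finset.sum_range_succ, ih]

lemma one_sub_ge_exp {x : ℝ} (h0 : 0 ≤ x) (h1 : x ≤ 1 / 2) : Real.exp (-(2 * x)) ≤ 1 - x := by
  have h2 := Real.add_one_le_exp (2 * x)
  have h3 : 1 ≤ Real.exp (2 * x) * (1 - x) := by
    have : (2 * x + 1) * (1 - x) ≤ Real.exp (2 * x) * (1 - x) :=
      mul_le_mul_of_nonneg_right h2 (by linarith)
    nlinarith
  rw [Real.exp_neg, inv_le_iff_one_le_mul₀ (Real.exp_pos _)]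
  linarith [mul_comm (Real.exp (2 * x)) (1 - x)]

lemma one_sub_pow_ge_exp {x : ℝ} (h0 : 0 ≤ x) (h1 : x ≤ 1 / 2) (n : ℕ) {y : ℝ} (hy : n * x ≤ y) :
    Real.exp (-(2 * y)) ≤ (1 - x) ^ n := by
  calc Real.exp (-(2 * y)) ≤ Real.exp (n * (-(2 * x))) := Real.exp_le_exp.2 (by linarith)
    _ = Real.exp (-(2 * x)) ^ n := Real.exp_nat_mul _ _
    _ ≤ (1 - x) ^ n := pow_le_pow_left₀ (Real.exp_pos _).le (one_sub_ge_exp h0 h1) n

/-- invariants. -/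
structure Inv (R s : ℕ) : Prop where
  a0 : 0 ≤ sa ρ Δ K p s
  a1 : sa ρ Δ K p s ≤ s * p
  c0 : 0 ≤ sc ρ Δ K p s
  c1 : sc ρ Δ K p s ≤ 2 * sa ρ Δ K p s

variable {ρ Δ K p} {R : ℕ}

lemma Inv.facts (hp : 0 ≤ p) (hR : 4 * (R : ℝ) * p ≤ 1) {s : ℕ} (hs : s < R)
    (h : Inv ρ Δ K p R s) :
    0 ≤ p + sa ρ Δ K p s ∧ p + sa ρ Δ K p s ≤ 1 / 4 ∧ 0 ≤ p + sc ρ Δ K p s ∧
      p + sc ρ Δ K p s ≤ 1 / 2 ∧ p + sc ρ Δ K p s ≤ p + 2 * sa ρ Δ K p s := by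
  have h1 : (s : ℝ) + 1 ≤ R := by exact_mod_cast hs
  have h2 : ((s : ℝ) + 1) * p ≤ R * p := mul_le_mul_of_nonneg_right h1 hp
  refine ⟨by linarith [h.a0], by linarith [h.a1], by linarith [h.c0], ?_, by linarith [h.c1]⟩
  have := h.c1
  have := h.a1
  linarith

lemma νκ (hp : 0 ≤ p) (hR : 4 * (R : ℝ) * p ≤ 1) {s : ℕ} (hs : s < R)
    (h : Inv ρ Δ K p R s) : 0 < sν ρ Δ K p s ∧ sν ρ Δ K p s ≤ 1 ∧ 1 / 2 ≤ sκ ρ Δ K p s ∧
      sκ ρ Δ K p s ≤ 1 ∧ 0 ≤ sg ρ Δ K p s ∧ sg ρ Δ K p s ≤ p * sν ρ Δ K p s ^ ρ := by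
  obtain ⟨h1, h2, h3, h4, h5⟩ := h.facts hp hR hs
  have a1 : 0 < sν ρ Δ K p s := pow_pos (by linarith) _
  have a2 : sν ρ Δ K p s ≤ 1 := pow_le_one₀ (by linarith) (by linarith)
  have b1 : (p + sc ρ Δ K p s) ^ 3 ≤ (1 / 2) ^ 3 := pow_le_pow_left₀ h3 h4 3
  have b2 : 0 ≤ (p + sc ρ Δ K p s) ^ 3 := pow_nonneg h3 3
  have a3 : 1 / 2 ≤ sκ ρ Δ K p s := by unfold sκ; norm_num at b1; linarith
  have a4 : sκ ρ Δ K p s ≤ 1 := by unfold sκ; linarith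
  have a5 : 0 ≤ sκ ρ Δ K p s ^ K := pow_nonneg (by linarith) _
  have a6 : sκ ρ Δ K p s ^ K ≤ 1 := pow_le_one₀ (by linarith) a4
  have a7 : 0 ≤ p * sν ρ Δ K p s ^ ρ := mul_nonneg hp (pow_nonneg a1.le _)
  exact ⟨a1, a2, a3, a4, mul_nonneg a7 a5, mul_le_of_le_one_right a7 a6⟩

lemma inv_all (hρ : 1 ≤ ρ) (hp : 0 ≤ p) (hR : 4 * (R : ℝ) * p ≤ 1) {s : ℕ} (hs : s ≤ R) :
    Inv ρ Δ K p R s := by
  induction s with
  | zero => exact ⟨le_rfl, by simp [sa_zero], le_rfl, by simp [sa_zero, sc_zero]⟩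
  | succ s ih =>
    have hs' : s < R := hs
    have h := ih hs'.le
    obtain ⟨h1, h2, h3, h4, h5, h6⟩ := νκ hp hR hs' h
    have h7 : 0 ≤ sg ρ Δ K p s / sν ρ Δ K p s := div_nonneg h5 h1.le
    have h8 : sg ρ Δ K p s / sν ρ Δ K p s ≤ p := by
      rw [div_le_iff₀ h1]
      refine h6.trans (mul_le_mul_of_nonneg_left ?_ hp)
      calc sν ρ Δ K p s ^ ρ ≤ sν ρ Δ K p s ^ 1 := pow_le_pow_of_le_one h1.le h2 hρ
        _ = _ := pow_one _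
    have h9 : 0 ≤ sg ρ Δ K p s / sκ ρ Δ K p s := div_nonneg h5 (by linarith)
    have h10 : sg ρ Δ K p s / sκ ρ Δ K p s ≤ 2 * (sg ρ Δ K p s / sν ρ Δ K p s) := by
      have e1 : sg ρ Δ K p s ≤ sg ρ Δ K p s / sν ρ Δ K p s := by
        rw [le_div_iff₀ h1]; exact mul_le_of_le_one_right h5 h2
      have e2 : sg ρ Δ K p s / sκ ρ Δ K p s ≤ 2 * sg ρ Δ K p s := by
        rw [div_le_iff₀ (by linarith)]; nlinarith
      linarith
    refine ⟨?_, ?_, ?_, ?_⟩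
    · rw [sa_succ]; linarith [h.a0]
    · rw [sa_succ]; push_cast; linarith [h.a1]
    · rw [sc_succ]; linarith [h.c0]
    · rw [sa_succ, sc_succ]; linarith [h.c1]

/-- the scalar system. -/
def mkSys (hρ : 1 ≤ ρ) (hp : 0 ≤ p) (hR : 4 * (R : ℝ) * p ≤ 1) : Sys ρ Δ K R p where
  αP s := p + sa ρ Δ K p s
  αC s := p + sc ρ Δ K p s
  ν := sν ρ Δ K p
  κ := sκ ρ Δ K p
  g := sg ρ Δ K p
  hαP s := by rw [sa_sum]
  hαC s := by rw [sc_sum]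
  hν s := rfl
  hκ s := rfl
  hg s := rfl
  hp := hp
  hRp := by
    have : 0 ≤ (R : ℝ) * p := mul_nonneg (Nat.cast_nonneg _) hp
    linarith
  P0 s hs := ((inv_all hρ hp hR hs.le).facts hp hR hs).1
  P1 s hs := by linarith [((inv_all (Δ := Δ) (K := K) hρ hp hR hs.le).facts hp hR hs).2.1]
  C0 s hs := ((inv_all hρ hp hR hs.le).facts hp hR hs).2.2.1
  C1 s hs := by linarith [((inv_all (Δ := Δ) (K := K) hρ hp hR hs.le).facts hp hR hs).2.2.2.1]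

lemma sa_mono (hρ : 1 ≤ ρ) (hp : 0 ≤ p) (hR : 4 * (R : ℝ) * p ≤ 1) {s t : ℕ} (hst : s ≤ t) (ht : t ≤ R) :
    sa ρ Δ K p s ≤ sa ρ Δ K p t := by
  induction t, hst using Nat.le_induction with
  | base => exact le_rfl
  | succ t hst ih =>
    refine (ih (by omega)).trans ?_
    obtain ⟨h1, h2, h3, h4, h5, h6⟩ := νκ (Δ := Δ) (K := K) hp hR (show t < R by omega) (inv_all hρ hp hR (by omega))
    rw [sa_succ]
    linarith [div_nonneg h5 h1.le]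

lemma pow_sub_pow_le' {x y : ℝ} (hy : 0 ≤ y) (hxy : y ≤ x) (n : ℕ) :
    x ^ n - y ^ n ≤ n * ((x - y) * x ^ (n - 1)) := by
  induction n with
  | zero => simp
  | succ n ih =>
    have hx : 0 ≤ x := hy.trans hxy
    have h1 : x ^ (n + 1) - y ^ (n + 1) = (x - y) * x ^ n + y * (x ^ n - y ^ n) := by ring
    have h2 : y * (x ^ n - y ^ n) ≤ x * (x ^ n - y ^ n) :=
      mul_le_mul_of_nonneg_right hxy (sub_nonneg.2 (pow_le_pow_left₀ hy hxy n))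
    have h3 : x * (x ^ n - y ^ n) ≤ x * (n * ((x - y) * x ^ (n - 1))) :=
      mul_le_mul_of_nonneg_left ih hx
    have h4 : x * ((n : ℝ) * ((x - y) * x ^ (n - 1))) = n * ((x - y) * x ^ n) := by
      rcases n with _ | n
      · simp
      · rw [Nat.add_sub_cancel, pow_succ]; ring
    rw [h1, Nat.add_sub_cancel]
    push_cast
    linarith

/-- telescoping. -/
lemma sum_sg_ge (hρ : 1 ≤ ρ) (hp : 0 ≤ p) (hR : 4 * ((R : ℝ) + 1) * p ≤ 1) (hΔ : 1 ≤ Δ) :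
    (1 - p) ^ Δ - (1 - (p + sa ρ Δ K p R)) ^ Δ ≤ Δ * ∑ s ∈ range R, sg ρ Δ K p s := by
  have hR' : 4 * (R : ℝ) * p ≤ 1 := by linarith
  have key : ∀ t ≤ R, (1 - p) ^ Δ - (1 - (p + sa ρ Δ K p t)) ^ Δ ≤ Δ * ∑ s ∈ range t, sg ρ Δ K p s := by
    intro t
    induction t with
    | zero => intro _; simp [sa_zero]
    | succ t ih =>
      intro ht
      have h1 := ih (by omega)
      have hinv := inv_all (ρ := ρ) (Δ := Δ) (K := K) hρ hp hR' (show t ≤ R by omega)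
      have hinv' := inv_all (ρ := ρ) (Δ := Δ) (K := K) hρ hp hR' ht
      obtain ⟨a1, a2, a3, a4, a5, a6⟩ := νκ hp hR' (show t < R by omega) hinv
      have hm := sa_mono (ρ := ρ) (Δ := Δ) (K := K) hρ hp hR' (Nat.le_succ t) ht
      have hlast : p + sa ρ Δ K p (t + 1) ≤ 1 := by
        have b1 := hinv'.a1
        have b2 : ((t + 1 : ℕ) : ℝ) ≤ R := by exact_mod_cast ht
        have b3 : ((t + 1 : ℕ) : ℝ) * p ≤ R * p := mul_le_mul_of_nonneg_right b2 hp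
        have b4 : 0 ≤ (R : ℝ) * p := mul_nonneg (Nat.cast_nonneg _) hp
        linarith
      have h2 := pow_sub_pow_le' (x := 1 - (p + sa ρ Δ K p t)) (y := 1 - (p + sa ρ Δ K p (t + 1)))
        (by linarith) (by linarith) Δ
      have h3 : (1 - (p + sa ρ Δ K p t) - (1 - (p + sa ρ Δ K p (t + 1)))) *
          (1 - (p + sa ρ Δ K p t)) ^ (Δ - 1) = sg ρ Δ K p t := by
        have : (1 - (p + sa ρ Δ K p t) - (1 - (p + sa ρ Δ K p (t + 1)))) =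
            sg ρ Δ K p t / sν ρ Δ K p t := by rw [sa_succ]; ring
        rw [this]
        show sg ρ Δ K p t / sν ρ Δ K p t * sν ρ Δ K p t = _
        exact div_mul_cancel₀ _ a1.ne'
      rw [h3] at h2
      rw [Finset.sum_range_succ, mul_add]
      linarith
  exact key R le_rfl

theorem scalar (ρ : ℕ) (hρ : 1 ≤ ρ) (C0 ε : ℝ) (hC0 : 0 < C0) (hε : 0 < ε) :
    ∃ R Δ0 : ℕ, ∀ Δ ≥ Δ0, ∃ p : ℝ, ∃ S : Sys ρ Δ ⌊C0 * (Δ : ℝ) ^ 3⌋₊ R p,
      1 - ε ≤ Δ * ∑ s ∈ range R, S.g s := by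
  set A : ℝ := 2 / ε with hA
  have hApos : 0 < A := by positivity
  set δ : ℝ := min (ε / 2) 1 with hδ
  have hδpos : 0 < δ := lt_min (by positivity) one_pos
  have hδ1 : δ ≤ 1 := min_le_right _ _
  have hδε : δ ≤ ε / 2 := min_le_left _ _
  set v0 : ℝ := Real.exp (-(2 * (A + 1))) with hv0
  set k0 : ℝ := Real.exp (-(2 * (C0 * (2 * A + 1) ^ 3))) with hk0
  set b0 : ℝ := v0 ^ ρ * k0 with hb0
  have hv0pos : 0 < v0 := Real.exp_pos _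
  have hk0pos : 0 < k0 := Real.exp_pos _
  have hb0pos : 0 < b0 := by positivity
  set R : ℕ := ⌈A / (δ * b0)⌉₊ with hRdef
  refine ⟨R, 4 * (R + 1), fun Δ hΔ => ?_⟩
  have hΔ1 : 1 ≤ Δ := by omega
  have hΔpos : (0 : ℝ) < Δ := by exact_mod_cast hΔ1
  set p : ℝ := δ / Δ with hpdef
  have hp : 0 ≤ p := by positivity
  have hpΔ : p * Δ = δ := by rw [hpdef]; field_simp
  have hR1 : 4 * ((R : ℝ) + 1) * p ≤ 1 := by
    have h1 : (4 * ((R : ℝ) + 1)) ≤ Δ := by exact_mod_cast hΔ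
    calc 4 * ((R : ℝ) + 1) * p ≤ Δ * p := mul_le_mul_of_nonneg_right h1 hp
      _ = δ := by rw [mul_comm]; exact hpΔ
      _ ≤ 1 := hδ1
  have hR : 4 * (R : ℝ) * p ≤ 1 := by linarith
  set K : ℕ := ⌊C0 * (Δ : ℝ) ^ 3⌋₊ with hK
  have hK' : (K : ℝ) ≤ C0 * (Δ : ℝ) ^ 3 := Nat.floor_le (by positivity)
  refine ⟨p, mkSys hρ hp hR, ?_⟩
  show 1 - ε ≤ Δ * ∑ s ∈ range R, sg ρ Δ K p s
  have haR : A / Δ ≤ sa ρ Δ K p R := by
    by_contra hcon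
    push Not at hcon
    have hstep : ∀ s < R, p * b0 ≤ sg ρ Δ K p s / sν ρ Δ K p s := by
      intro s hs
      have hinv := inv_all (ρ := ρ) (Δ := Δ) (K := K) hρ hp hR hs.le
      obtain ⟨a1, a2, a3, a4, a5, a6⟩ := νκ hp hR hs hinv
      obtain ⟨b1, b2, b3, b4, b5⟩ := hinv.facts hp hR hs
      have hsa : sa ρ Δ K p s ≤ A / Δ := (sa_mono hρ hp hR hs.le le_rfl).trans hcon.le
      have hν : v0 ≤ sν ρ Δ K p s := by
        refine one_sub_pow_ge_exp b1 (by linarith) (Δ - 1) ?_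
        have c1 : ((Δ - 1 : ℕ) : ℝ) ≤ Δ := by exact_mod_cast Nat.sub_le _ _
        calc ((Δ - 1 : ℕ) : ℝ) * (p + sa ρ Δ K p s) ≤ Δ * (p + sa ρ Δ K p s) :=
              mul_le_mul_of_nonneg_right c1 b1
          _ ≤ Δ * (p + A / Δ) := mul_le_mul_of_nonneg_left (by linarith) hΔpos.le
          _ = p * Δ + A := by field_simp
          _ ≤ A + 1 := by rw [hpΔ]; linarith
      have hκ : k0 ≤ sκ ρ Δ K p s ^ K := by
        have c0 : 0 ≤ (p + sc ρ Δ K p s) ^ 3 := pow_nonneg b3 3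
        have c2 : (p + sc ρ Δ K p s) ^ 3 ≤ 1 / 2 := by
          have := pow_le_pow_left₀ b3 b4 3
          norm_num at this ⊢; linarith
        refine one_sub_pow_ge_exp c0 c2 K ?_
        have c3 : p + sc ρ Δ K p s ≤ (2 * A + 1) / Δ := by
          rw [le_div_iff₀ hΔpos]
          have c4 : sa ρ Δ K p s * Δ ≤ A := by
            have := mul_le_mul_of_nonneg_right hsa hΔpos.le
            rwa [div_mul_cancel₀ _ hΔpos.ne'] at this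
          have c5 : (p + sc ρ Δ K p s) * Δ ≤ (p + 2 * sa ρ Δ K p s) * Δ :=
            mul_le_mul_of_nonneg_right b5 hΔpos.le
          have c6 : (p + 2 * sa ρ Δ K p s) * Δ = p * Δ + 2 * (sa ρ Δ K p s * Δ) := by ring
          rw [c6, hpΔ] at c5
          linarith
        calc (K : ℝ) * (p + sc ρ Δ K p s) ^ 3 ≤ (C0 * (Δ : ℝ) ^ 3) * ((2 * A + 1) / Δ) ^ 3 :=
              mul_le_mul hK' (pow_le_pow_left₀ b3 c3 3) c0 (by positivity)
          _ = C0 * (2 * A + 1) ^ 3 := by field_simp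
      rw [le_div_iff₀ a1]
      have c7 : v0 ^ ρ * k0 ≤ sν ρ Δ K p s ^ ρ * sκ ρ Δ K p s ^ K :=
        mul_le_mul (pow_le_pow_left₀ hv0pos.le hν ρ) hκ hk0pos.le (pow_nonneg a1.le _)
      calc p * b0 * sν ρ Δ K p s ≤ p * b0 := mul_le_of_le_one_right (mul_nonneg hp hb0pos.le) a2
        _ ≤ p * (sν ρ Δ K p s ^ ρ * sκ ρ Δ K p s ^ K) := mul_le_mul_of_nonneg_left c7 hp
        _ = sg ρ Δ K p s := by unfold sg; ring
    have hsum : (R : ℝ) * (p * b0) ≤ sa ρ Δ K p R := by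
      rw [sa_sum]
      calc (R : ℝ) * (p * b0) = ∑ _s ∈ range R, p * b0 := by simp
        _ ≤ _ := Finset.sum_le_sum fun s hs => hstep s (Finset.mem_range.1 hs)
    have hRge : A / (δ * b0) ≤ R := Nat.le_ceil _
    have : A / Δ ≤ (R : ℝ) * (p * b0) := by
      calc A / Δ = A / (δ * b0) * (p * b0) := by rw [hpdef]; field_simp
        _ ≤ _ := mul_le_mul_of_nonneg_right hRge (by positivity)
    linarith
  have hmain := sum_sg_ge (K := K) hρ hp hR1 hΔ1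
  have hinvR := inv_all (ρ := ρ) (Δ := Δ) (K := K) hρ hp hR le_rfl
  have h1 : 1 - δ ≤ (1 - p) ^ Δ := by
    have := one_add_mul_le_pow (a := -p) (by linarith [show p ≤ 1 by nlinarith]) Δ
    calc 1 - δ = 1 + (Δ : ℝ) * (-p) := by rw [← hpΔ]; ring
      _ ≤ (1 + -p) ^ Δ := this
      _ = (1 - p) ^ Δ := by ring
  have h2 : (1 - (p + sa ρ Δ K p R)) ^ Δ ≤ ε / 2 := by
    have h3 : 0 ≤ 1 - (p + sa ρ Δ K p R) := by
      have b1 := hinvR.a1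
      have b4 : 0 ≤ (R : ℝ) * p := mul_nonneg (Nat.cast_nonneg _) hp
      linarith
    have h4 : 1 - (p + sa ρ Δ K p R) ≤ Real.exp (-(A / Δ)) := by
      have := Real.add_one_le_exp (-(A / Δ))
      linarith
    calc (1 - (p + sa ρ Δ K p R)) ^ Δ ≤ Real.exp (-(A / Δ)) ^ Δ := pow_le_pow_left₀ h3 h4 Δ
      _ = Real.exp (-A) := by
        rw [← Real.exp_nat_mul]; congr 1; field_simp
      _ ≤ ε / 2 := by
        rw [Real.exp_neg, inv_le_comm₀ (Real.exp_pos _) (by positivity)]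
        have := Real.add_one_le_exp A
        have h5 : (ε / 2)⁻¹ = A := by rw [hA]; field_simp
        rw [h5]; linarith
  linarith

end
end UF58
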