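import Pool.Agent.helper58.UF.T5
import Pool.Agent.helper18.UF.T7

/-! Strict improvement of the lower bound for `U₂(n,3k)`, `k ≥ 2`. -/

namespace UF58
open Finset

theorem strict (k : ℕ) (hk : 2 ≤ k) (ε : ℝ) (hε : 0 < ε) : ∃ n0 : ℕ, ∀ n ≥ n0,
    (1 - ε) * (4 / (4 * ((3 * k).choose (2 * k) : ℝ) - 1)) * (n.choose (2 * k) : ℝ) ≤
      (U2 n (3 * k) : ℝ) := by
  obtain ⟨G, hG, hcard, hused⟩ := t7 k hk
  have hne : G.Nonempty := Finset.card_pos.1 (by omega)
  rcases le_or_gt 1 ε with hε1 | hε1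
  · refine ⟨0, fun n _ => ?_⟩
    have hC : (1 : ℝ) ≤ ((3 * k).choose (2 * k) : ℝ) := by
      exact_mod_cast Nat.choose_pos (by omega)
    have h1 : 0 ≤ 4 / (4 * ((3 * k).choose (2 * k) : ℝ) - 1) :=
      div_nonneg (by norm_num) (by linarith)
    have h2 : (1 - ε) * (4 / (4 * ((3 * k).choose (2 * k) : ℝ) - 1)) * (n.choose (2 * k) : ℝ) ≤ 0 :=
      mul_nonpos_of_nonpos_of_nonneg (mul_nonpos_of_nonpos_of_nonneg (by linarith) h1) (Nat.cast_nonneg _)
    exact h2.trans (Nat.cast_nonneg _)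
  obtain ⟨n0, h⟩ := t5 k (6 * k) G ε (by omega) hG hne hε
  refine ⟨n0, fun n hn => le_trans ?_ (h n hn)⟩
  refine mul_le_mul_of_nonneg_right ?_ (Nat.cast_nonneg _)
  rw [hcard, mul_div_assoc]
  refine mul_le_mul_of_nonneg_left ?_ (by linarith)
  push_cast
  have hu : 0 < (used k (6 * k) G).card := by
    obtain ⟨E, hE⟩ := hne
    obtain ⟨p, hp, hpc⟩ := Finset.exists_subset_card_eq (s := E) (n := 2 * k) (by
      rw [hG.card E hE]; omega)
    refine Finset.card_pos.2 ⟨p, ?_⟩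
    unfold used
    rw [Finset.mem_filter, Finset.mem_powersetCard]
    exact ⟨⟨Finset.subset_univ _, hpc⟩, Or.inl ⟨E, hE, hp⟩⟩
  have hu' : (0 : ℝ) < ((used k (6 * k) G).card : ℝ) := by exact_mod_cast hu
  have h3 : ((used k (6 * k) G).card : ℝ) + 1 ≤ 4 * ((3 * k).choose (2 * k) : ℝ) := by
    exact_mod_cast hused
  exact div_le_div_of_nonneg_left (by norm_num) hu' (by linarith)

end UF58
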