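import Pool.Agent.helper58.UF.Accept
import Pool.Agent.helper58.UF.Scalar

/-! T1. -/

namespace UF58
open Finset

theorem t1 : T1 := by
  intro ρ C0 ε hρ hC0 hε
  obtain ⟨R, Δ0, h⟩ := scalar ρ hρ C0 ε hC0 hε
  refine ⟨4 * R + 10, max Δ0 1, fun Δ hΔ β P _ _ _ _ pts C hpts hdeg hC4 hcdeg hL => ?_⟩
  obtain ⟨p, S, hS⟩ := h Δ (le_trans (le_max_left _ _) hΔ)
  have hdeg' : ∀ v, pdeg pts v ≤ Δ := by
    intro v
    refine le_trans (le_of_eq ?_) (hdeg v)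
    unfold pdeg
    congr!
  have hcdeg' : ∀ B, cdeg C B ≤ ⌊C0 * (Δ : ℝ) ^ 3⌋₊ := by
    intro B
    refine Nat.le_floor (le_trans (le_of_eq ?_) (hcdeg B))
    unfold cdeg
    congr!
  obtain ⟨M, h1, h2, h3⟩ := exists_matching pts C S hpts hdeg' hC4 hcdeg' (L := 4 * R + 10)
    (by convert hL) le_rfl
  refine ⟨M, h1, h2, ?_⟩
  have hΔ0 : (0 : ℝ) ≤ Δ := Nat.cast_nonneg _
  have hc : (0 : ℝ) ≤ Fintype.card β := Nat.cast_nonneg _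
  calc (1 - ε) * (Fintype.card β : ℝ) ≤ (Δ * ∑ s ∈ range R, S.g s) * (Fintype.card β : ℝ) :=
        mul_le_mul_of_nonneg_right hS hc
    _ = Δ * ((Fintype.card β : ℝ) * ∑ s ∈ range R, S.g s) := by ring
    _ ≤ Δ * (M.card : ℝ) := mul_le_mul_of_nonneg_left h3 hΔ0

end UF58
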