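import Pool.Agent.helper58.UF.Defs

/-! T2: sparse families have no short cycles. -/

namespace UF58
open Finset Classical

noncomputable section

variable {β α P : Type}

/-- excess. -/
def ff (k g : ℕ) (V : β → Finset α) (S : Finset β) : ℤ :=
  ((S.biUnion V).card : ℤ) - 2 * k - S.card * ((g : ℤ) - 2 * k)

section ffl
variable {k g : ℕ} {V : β → Finset α}

lemma ff_union_le (S T : Finset β) (X : Finset α) (h1 : X ⊆ S.biUnion V) (h2 : X ⊆ T.biUnion V) :
    ff k g V (S ∪ T) ≤ ff k g V S + ff k g V T + 2 * k + (S ∩ T).card * ((g : ℤ) - 2 * k) - X.card := by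
  have e1 : (((S ∪ T).biUnion V).card : ℤ) + ((S.biUnion V ∩ T.biUnion V).card : ℤ) =
      (S.biUnion V).card + (T.biUnion V).card := by
    rw [Finset.union_biUnion]
    exact_mod_cast Finset.card_union_add_card_inter _ _
  have e2 : ((S ∪ T).card : ℤ) + ((S ∩ T).card : ℤ) = S.card + T.card := by
    exact_mod_cast Finset.card_union_add_card_inter _ _
  have e3 : (X.card : ℤ) ≤ (S.biUnion V ∩ T.biUnion V).card := by
    exact_mod_cast Finset.card_le_card (Finset.subset_inter h1 h2)
  unfold ff
  have e4 : ((S ∪ T).card : ℤ) = S.card + T.card - (S ∩ T).card := by linarith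
  rw [e4]
  nlinarith

lemma ff_submod (S T : Finset β) :
    ff k g V (S ∪ T) ≤ ff k g V S + ff k g V T - ff k g V (S ∩ T) := by
  have h := ff_union_le (k := k) (g := g) (V := V) S T ((S ∩ T).biUnion V)
    (Finset.biUnion_subset_biUnion_of_subset_left _ Finset.inter_subset_left)
    (Finset.biUnion_subset_biUnion_of_subset_left _ Finset.inter_subset_right)
  have h2 : ff k g V (S ∩ T) = (((S ∩ T).biUnion V).card : ℤ) - 2 * k - (S ∩ T).card * ((g : ℤ) - 2 * k) := rfl
  linarith

lemma ff_single (hV : ∀ B, (V B).card = g) (B : β) : ff k g V {B} = 0 := by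
  simp [ff, hV B]

lemma ff_nonneg {s : ℕ} (hk : 2 * k < g) (h : Sparse k g s V) {S : Finset β} (hS : S.Nonempty)
    (hc : S.card ≤ s) : 0 ≤ ff k g V S := by
  have := h S hS hc
  unfold ff
  have h2 : ((g - 2 * k : ℕ) : ℤ) = (g : ℤ) - 2 * k := by push_cast [Nat.cast_sub hk.le]; ring
  have h3 : ((2 * k + S.card * (g - 2 * k) : ℕ) : ℤ) ≤ ((S.biUnion V).card : ℕ) := by
    exact_mod_cast (by convert this)
  push_cast at h3
  rw [h2] at h3
  linarith

lemma conf_ff (hk : 2 * k < g) {c : Finset β} (h : IsConf k g V c) : ff k g V c = 0 := by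
  have h2 : ((g - 2 * k : ℕ) : ℤ) = (g : ℤ) - 2 * k := by push_cast [Nat.cast_sub hk.le]; ring
  have h3 := h.2.1
  have h4 : (((c.biUnion V).card : ℕ) : ℤ) = ((2 * k + 4 * (g - 2 * k) : ℕ) : ℤ) := by
    exact_mod_cast (by convert h3)
  push_cast at h4
  rw [h2] at h4
  unfold ff
  rw [h.1, h4]
  push_cast
  ring

lemma conf_sub (hk : 2 * k < g) {c c' : Finset β} (h : IsConf k g V c) (hsub : c' ⊆ c)
    (hc : c'.card = 2 ∨ c'.card = 3) : 1 ≤ ff k g V c' := by
  have h2 : ((g - 2 * k : ℕ) : ℤ) = (g : ℤ) - 2 * k := by push_cast [Nat.cast_sub hk.le]; ring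
  have h3 := h.2.2 c' hsub hc
  have h4 : ((2 * k + c'.card * (g - 2 * k) : ℕ) : ℤ) < (((c'.biUnion V).card : ℕ) : ℤ) := by
    exact_mod_cast (by convert h3)
  push_cast at h4
  rw [h2] at h4
  unfold ff
  linarith

end ffl

/-- blocks attached to a vertex. -/
def mm (C : Finset (Finset β)) : β ⊕ (P ⊕ Finset β) → Finset β
  | Sum.inl B => {B}
  | Sum.inr (Sum.inl _) => ∅
  | Sum.inr (Sum.inr c) => if c ∈ C then c else ∅

/-- blocks attached to a list of vertices. -/
def TT (C : Finset (Finset β)) : List (β ⊕ (P ⊕ Finset β)) → Finset β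
  | [] => ∅
  | x :: l => mm C x ∪ TT C l

lemma mem_TT (C : Finset (Finset β)) (l : List (β ⊕ (P ⊕ Finset β))) (B : β) :
    B ∈ TT C l ↔ ∃ x ∈ l, B ∈ mm C x := by
  induction l with
  | nil => simp [TT]
  | cons x l ih => simp [TT, ih]

lemma card_mm (C : Finset (Finset β)) (hC : ∀ c ∈ C, c.card = 4) (x : β ⊕ (P ⊕ Finset β)) :
    (mm C x).card ≤ 4 := by
  rcases x with B | v | c
  · simp [mm]
  · simp [mm]
  · simp only [mm]
    split_ifs with h
    · rw [hC c h]
    · simp

lemma card_TT (C : Finset (Finset β)) (hC : ∀ c ∈ C, c.card = 4) (l : List (β ⊕ (P ⊕ Finset β))) :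
    (TT C l).card ≤ 4 * l.length := by
  induction l with
  | nil => simp [TT]
  | cons x l ih =>
    refine (Finset.card_union_le _ _).trans ?_
    have := card_mm C hC x
    simp only [List.length_cons]
    omega

section walks

variable {k g s : ℕ} {V : β → Finset α} {pts : β → Finset (Finset α)} {C : Finset (Finset β)}

lemma walkA (hk : 2 * k < g) (hV : ∀ B, (V B).card = g)
    (hpts : ∀ B, ∀ p ∈ pts B, p.card = 2 * k ∧ p ⊆ V B) (hS : Sparse k g s V)
    (hC : ∀ c ∈ C, IsConf k g V c) {x y : β ⊕ (Finset α ⊕ Finset β)} (q : (incG pts C).Walk x y)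
    (hs : 4 ≤ s) :
    (∀ B, x = Sum.inl B → ff k g V (TT C q.support) ≤ 0) ∧
    (∀ c ∈ C, x = Sum.inr (Sum.inr c) → ff k g V (TT C q.support) ≤ 0) ∧
    (∀ v, x = Sum.inr (Sum.inl v) → 0 < q.length →
      ff k g V (TT C q.support) ≤ 0 ∧ ∃ B ∈ TT C q.support, v ∈ pts B) := by
  induction q with
  | nil =>
    refine ⟨?_, ?_, ?_⟩
    · rintro B rfl
      simp [TT, mm, ff_single hV]
    · rintro c hc rfl
      simp [TT, mm, hc, conf_ff hk (hC c hc)]
    · intro v _ h
      simp at h
  | @cons x y z hadj q ih =>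
    obtain ⟨ih1, ih2, ih3⟩ := ih
    have hTT : TT C (SimpleGraph.Walk.cons hadj q).support = mm C x ∪ TT C q.support := by
      rw [SimpleGraph.Walk.support_cons]; rfl
    rw [hTT]
    refine ⟨?_, ?_, ?_⟩
    · rintro B rfl
      match y, hadj, q, ih1, ih2, ih3, hTT with
      | Sum.inr (Sum.inl v), hadj, q, ih1, ih2, ih3, hTT =>
        have hv : v ∈ pts B := hadj
        rcases Nat.eq_zero_or_pos q.length with h0 | h0
        · have : TT C q.support = ∅ := by
            have hq : q.support = [Sum.inr (Sum.inl v)] := by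
              have hl : q.support.length = 1 := by rw [SimpleGraph.Walk.length_support, h0]
              obtain ⟨a, ha⟩ := List.length_eq_one_iff.1 hl
              rw [ha]
              have := q.start_mem_support
              rw [ha] at this
              simp at this
              rw [this]
            rw [hq]; simp [TT, mm]
          rw [this]
          simp [mm, ff_single hV]
        · obtain ⟨h1, B', hB', hv'⟩ := ih3 v rfl h0
          by_cases hB : B ∈ TT C q.support
          · have : mm C (Sum.inl B : β ⊕ (Finset α ⊕ Finset β)) ∪ TT C q.support = TT C q.support := by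
              apply Finset.union_eq_right.2
              simp [mm, hB]
            rw [this]; exact h1
          · have h2 := ff_union_le (k := k) (g := g) (V := V) {B} (TT C q.support) v
              (by simpa using (hpts B v hv).2)
              ((hpts B' v hv').2.trans (Finset.subset_biUnion_of_mem V hB'))
            have h3 : ({B} : Finset β) ∩ TT C q.support = ∅ := by
              rw [Finset.singleton_inter_of_notMem hB]
            rw [h3, ff_single hV, (hpts B v hv).1, Finset.card_empty] at h2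
            simp only [mm]
            push_cast at h2
            linarith
      | Sum.inr (Sum.inr c), hadj, q, ih1, ih2, ih3, hTT =>
        have hc : c ∈ C := hadj.1
        have hBc : B ∈ c := hadj.2
        have h1 := ih2 c hc rfl
        have : mm C (Sum.inl B : β ⊕ (Finset α ⊕ Finset β)) ∪ TT C q.support = TT C q.support := by
          apply Finset.union_eq_right.2
          simp only [mm, Finset.singleton_subset_iff]
          rw [mem_TT]
          exact ⟨_, q.start_mem_support, by simp [mm, hc, hBc]⟩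
        rw [this]; exact h1
      | Sum.inl B', hadj, q, ih1, ih2, ih3, hTT => exact absurd hadj (by simp [incG])
    · rintro c hc rfl
      match y, hadj, q, ih1, ih2, ih3, hTT with
      | Sum.inl B, hadj, q, ih1, ih2, ih3, hTT =>
        have hBc : B ∈ c := hadj.2
        have h1 := ih1 B rfl
        have hB : B ∈ TT C q.support := by
          rw [mem_TT]; exact ⟨_, q.start_mem_support, by simp [mm]⟩
        have h2 := ff_submod (k := k) (g := g) (V := V) c (TT C q.support)
        have h3 : 0 ≤ ff k g V (c ∩ TT C q.support) := by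
          refine ff_nonneg hk hS ⟨B, Finset.mem_inter.2 ⟨hBc, hB⟩⟩ ?_
          exact (Finset.card_le_card Finset.inter_subset_left).trans ((hC c hc).1.trans_le hs)
        rw [conf_ff hk (hC c hc)] at h2
        simp only [mm, hc, if_true]
        linarith
      | Sum.inr h', hadj, q, ih1, ih2, ih3, hTT => exact absurd hadj (by simp [incG])
    · rintro v rfl _
      match y, hadj, q, ih1, ih2, ih3, hTT with
      | Sum.inl B, hadj, q, ih1, ih2, ih3, hTT =>
        have hv : v ∈ pts B := hadj
        have h1 := ih1 B rfl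
        have hB : B ∈ TT C q.support := by
          rw [mem_TT]; exact ⟨_, q.start_mem_support, by simp [mm]⟩
        simp only [mm, Finset.empty_union]
        exact ⟨h1, B, hB, hv⟩
      | Sum.inr h', hadj, q, ih1, ih2, ih3, hTT => exact absurd hadj (by simp [incG])

/-- configurations. -/
def Cyc (pts : β → Finset P) (C : Finset (Finset β)) (n : ℕ) : Prop :=
  ∃ (B1 B2 Bl : β) (h1 hl : P ⊕ Finset β) (q : (incG pts C).Walk (Sum.inl B2) (Sum.inl Bl)),
    h1 ≠ hl ∧ (incG pts C).Adj (Sum.inl B1) (Sum.inr h1) ∧ (incG pts C).Adj (Sum.inr h1) (Sum.inl B2) ∧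
    (incG pts C).Adj (Sum.inl B1) (Sum.inr hl) ∧ (incG pts C).Adj (Sum.inl Bl) (Sum.inr hl) ∧
    Sum.inl B1 ∉ q.support ∧ q.length = n

/-- in a minimal configuration the first block is not attached to the rest. -/
lemma minimal_notMem {pts : β → Finset P} {B1 B2 Bl : β} {h1 hl : P ⊕ Finset β}
    {q : (incG pts C).Walk (Sum.inl B2) (Sum.inl Bl)}
    (hne : h1 ≠ hl) (a1 : (incG pts C).Adj (Sum.inl B1) (Sum.inr h1))
    (a2 : (incG pts C).Adj (Sum.inr h1) (Sum.inl B2))
    (a3 : (incG pts C).Adj (Sum.inl B1) (Sum.inr hl)) (a4 : (incG pts C).Adj (Sum.inl Bl) (Sum.inr hl))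
    (hB : Sum.inl B1 ∉ q.support) (hmin : ∀ m < q.length, ¬ Cyc pts C m) : B1 ∉ TT C q.support := by
  rw [mem_TT]
  rintro ⟨x, hx, hx2⟩
  match x, hx, hx2 with
  | Sum.inl B, hx, hx2 =>
    simp only [mm, Finset.mem_singleton] at hx2
    rw [hx2] at hB
    exact hB hx
  | Sum.inr (Sum.inl v), hx, hx2 => simp [mm] at hx2
  | Sum.inr (Sum.inr c), hx, hx2 =>
    simp only [mm] at hx2
    split_ifs at hx2 with hc
    · have ac : (incG pts C).Adj (Sum.inl B1) (Sum.inr (Sum.inr c)) := ⟨hc, hx2⟩
      -- split the walk at c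
      set q1 := q.takeUntil _ hx with hq1
      set q2 := q.dropUntil _ hx with hq2
      have hlen : q1.length + q2.length = q.length := by
        have := congrArg SimpleGraph.Walk.length (q.take_spec hx)
        rwa [SimpleGraph.Walk.length_append] at this
      have hs1 : ∀ y ∈ q1.support, y ∈ q.support := fun y hy => q.support_takeUntil_subset_support hx hy
      have hs2 : ∀ y ∈ q2.support, y ∈ q.support := fun y hy => q.support_dropUntil_subset_support hx hy
      by_cases hcase : (Sum.inr c : P ⊕ Finset β) = h1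
      · -- use the second part
        subst hcase
        match hq : q2 with
        | SimpleGraph.Walk.cons (v := Sum.inl Bm) hadj q3 =>
          refine hmin q3.length ?_ ⟨B1, Bm, Bl, Sum.inr c, hl, q3, hne, a1, hadj, a3, a4, ?_, rfl⟩
          · rw [SimpleGraph.Walk.length_cons] at hlen
            omega
          · intro h
            exact hB (hs2 _ (by rw [SimpleGraph.Walk.support_cons]; exact List.mem_cons_of_mem _ h))
        | SimpleGraph.Walk.cons (v := Sum.inr h') hadj q3 => exact absurd hadj (by simp [incG])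
      · -- use the first part
        match hq : q1.reverse with
        | SimpleGraph.Walk.cons (v := Sum.inl Bm) hadj q3 =>
          refine hmin q3.reverse.length ?_ ⟨B1, B2, Bm, h1, Sum.inr c, q3.reverse, fun h => hcase h.symm,
            a1, a2, ac, hadj.symm, ?_, rfl⟩
          · have : q1.reverse.length = q3.length + 1 := by rw [hq]; simp
            rw [SimpleGraph.Walk.length_reverse] at this ⊢
            omega
          · intro h
            rw [SimpleGraph.Walk.support_reverse, List.mem_reverse] at h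
            have h2 : Sum.inl B1 ∈ q1.reverse.support := by
              rw [hq, SimpleGraph.Walk.support_cons]; exact List.mem_cons_of_mem _ h
            rw [SimpleGraph.Walk.support_reverse, List.mem_reverse] at h2
            exact hB (hs1 _ h2)
        | SimpleGraph.Walk.cons (v := Sum.inr h') hadj q3 => exact absurd hadj (by simp [incG])
    · simp at hx2

lemma casePP (hk : 2 * k < g) (hV : ∀ B, (V B).card = g)
    (hpts : ∀ B, ∀ p ∈ pts B, p.card = 2 * k ∧ p ⊆ V B) (hS : Sparse k g s V)
    {T : Finset β} {B1 B2 Bl : β} {u v : Finset α} (huv : u ≠ v) (hB1 : B1 ∉ T) (hB2 : B2 ∈ T) (hBl : Bl ∈ T)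
    (hT : ff k g V T ≤ 0) (hc : T.card + 1 ≤ s) (u1 : u ∈ pts B1) (u2 : u ∈ pts B2) (v1 : v ∈ pts B1)
    (vl : v ∈ pts Bl) : False := by
  have h2 := ff_union_le (k := k) (g := g) (V := V) {B1} T (u ∪ v)
    (by simpa using Finset.union_subset (hpts _ _ u1).2 (hpts _ _ v1).2)
    (Finset.union_subset ((hpts _ _ u2).2.trans (Finset.subset_biUnion_of_mem V hB2))
      ((hpts _ _ vl).2.trans (Finset.subset_biUnion_of_mem V hBl)))
  have h3 : ({B1} : Finset β) ∩ T = ∅ := by rw [Finset.singleton_inter_of_notMem hB1]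
  rw [h3, ff_single hV, Finset.card_empty] at h2
  have h4 : 2 * k + 1 ≤ (u ∪ v).card := by
    by_contra hcon
    have h5 : u = u ∪ v := Finset.eq_of_subset_of_card_le Finset.subset_union_left
      (by rw [(hpts _ _ u1).1]; omega)
    have h6 : v = u ∪ v := Finset.eq_of_subset_of_card_le Finset.subset_union_right
      (by rw [(hpts _ _ v1).1]; omega)
    exact huv (h5.trans h6.symm)
  have h5 : ((2 * k + 1 : ℕ) : ℤ) ≤ ((u ∪ v).card : ℤ) := by exact_mod_cast h4
  have h6 : 0 ≤ ff k g V ({B1} ∪ T) := by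
    refine ff_nonneg hk hS ⟨B1, by simp⟩ ?_
    refine (Finset.card_union_le _ _).trans ?_
    simp only [Finset.card_singleton]
    omega
  push_cast at h2 h5
  linarith

/-- a conflict meets the rest in exactly one block. -/
lemma conf_inter (hk : 2 * k < g) (hS : Sparse k g s V) {T c : Finset β} {B1 B2 : β}
    (hcf : IsConf k g V c) (hB1 : B1 ∉ T) (hB1c : B1 ∈ c) (hB2 : B2 ∈ T) (hB2c : B2 ∈ c)
    (hT : ff k g V T ≤ 0) (hc : T.card + 4 ≤ s) : T ∩ c = {B2} := by
  have h1 : T ∩ c ⊆ c.erase B1 := by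
    intro B hB
    rw [Finset.mem_inter] at hB
    exact Finset.mem_erase.2 ⟨fun h => hB1 (h ▸ hB.1), hB.2⟩
  have h2 := Finset.card_le_card h1
  rw [Finset.card_erase_of_mem hB1c, hcf.1] at h2
  have h3 : B2 ∈ T ∩ c := Finset.mem_inter.2 ⟨hB2, hB2c⟩
  by_contra hne
  have h4 : 2 ≤ (T ∩ c).card := by
    by_contra hcon
    have h5 : 0 < (T ∩ c).card := Finset.card_pos.2 ⟨B2, h3⟩
    have h6 : (T ∩ c).card = 1 := by omega
    obtain ⟨x, hx⟩ := Finset.card_eq_one.1 h6
    rw [hx] at h3 hne
    rw [Finset.mem_singleton] at h3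
    exact hne (by rw [h3])
  have h5 := conf_sub hk hcf (Finset.inter_subset_right (s₁ := T) (s₂ := c)) (by omega)
  have h6 := ff_submod (k := k) (g := g) (V := V) T c
  have h7 : 0 ≤ ff k g V (T ∪ c) := by
    refine ff_nonneg hk hS ⟨B2, Finset.mem_union_left _ hB2⟩ ?_
    refine (Finset.card_union_le _ _).trans ?_
    rw [hcf.1]; exact hc
  rw [conf_ff hk hcf] at h6
  linarith

lemma conf_pair (hk : 2 * k < g) (hV : ∀ B, (V B).card = g) {c : Finset β} {B B' : β}
    (hcf : IsConf k g V c) (h1 : B ∈ c) (h2 : B' ∈ c) (hne : B ≠ B') : (V B ∩ V B').card < 2 * k := by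
  have hc2 : ({B, B'} : Finset β).card = 2 := Finset.card_pair hne
  have h3 := conf_sub hk hcf (c' := {B, B'}) (by
    intro x hx; simp only [Finset.mem_insert, Finset.mem_singleton] at hx
    rcases hx with rfl | rfl
    · exact h1
    · exact h2) (Or.inl hc2)
  unfold ff at h3
  rw [hc2] at h3
  have h4 : ({B, B'} : Finset β).biUnion V = V B ∪ V B' := by
    rw [Finset.biUnion_insert, Finset.singleton_biUnion]
  rw [h4] at h3
  have h5 := Finset.card_union_add_card_inter (V B) (V B')
  rw [hV, hV] at h5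
  have h6 : ((V B ∪ V B').card : ℤ) + ((V B ∩ V B').card : ℤ) = g + g := by exact_mod_cast h5
  push_cast at h3
  have : ((V B ∩ V B').card : ℤ) < 2 * k := by linarith
  exact_mod_cast this

lemma caseCP (hk : 2 * k < g) (hV : ∀ B, (V B).card = g)
    (hpts : ∀ B, ∀ p ∈ pts B, p.card = 2 * k ∧ p ⊆ V B) (hS : Sparse k g s V)
    {T c : Finset β} {B1 B2 Bl : β} {v : Finset α} (hcf : IsConf k g V c)
    (hB1 : B1 ∉ T) (hB2 : B2 ∈ T) (hBl : Bl ∈ T)
    (hT : ff k g V T ≤ 0) (hc : T.card + 4 ≤ s) (c1 : B1 ∈ c) (c2 : B2 ∈ c) (v1 : v ∈ pts B1)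
    (vl : v ∈ pts Bl) : False := by
  have hint := conf_inter hk hS hcf hB1 c1 hB2 c2 hT hc
  have hne : B1 ≠ B2 := fun h => hB1 (h ▸ hB2)
  have hpair := conf_pair hk hV hcf c1 c2 hne
  have h2 := ff_union_le (k := k) (g := g) (V := V) T c (V B2 ∪ v)
    (Finset.union_subset (Finset.subset_biUnion_of_mem V hB2)
      ((hpts _ _ vl).2.trans (Finset.subset_biUnion_of_mem V hBl)))
    (Finset.union_subset (Finset.subset_biUnion_of_mem V c2)
      ((hpts _ _ v1).2.trans (Finset.subset_biUnion_of_mem V c1)))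
  rw [hint, Finset.card_singleton, conf_ff hk hcf] at h2
  have h3 : g + 1 ≤ (V B2 ∪ v).card := by
    by_contra hcon
    have h4 : V B2 = V B2 ∪ v := Finset.eq_of_subset_of_card_le Finset.subset_union_left
      (by rw [hV]; omega)
    have h5 : v ⊆ V B1 ∩ V B2 := by
      refine Finset.subset_inter (hpts _ _ v1).2 ?_
      rw [h4]; exact Finset.subset_union_right
    have h6 := Finset.card_le_card h5
    rw [(hpts _ _ v1).1] at h6
    omega
  have h4 : ((g + 1 : ℕ) : ℤ) ≤ ((V B2 ∪ v).card : ℤ) := by exact_mod_cast h3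
  have h5 : 0 ≤ ff k g V (T ∪ c) := by
    refine ff_nonneg hk hS ⟨B2, Finset.mem_union_left _ hB2⟩ ?_
    refine (Finset.card_union_le _ _).trans ?_
    rw [hcf.1]; exact hc
  push_cast at h2 h4
  linarith

lemma caseCC (hk : 2 * k < g) (hS : Sparse k g s V)
    {T c c' : Finset β} {B1 B2 Bl : β} (hcf : IsConf k g V c) (hcf' : IsConf k g V c') (hne : c ≠ c')
    (hB1 : B1 ∉ T) (hB2 : B2 ∈ T) (hBl : Bl ∈ T)
    (hT : ff k g V T ≤ 0) (hc : T.card + 8 ≤ s) (c1 : B1 ∈ c) (c2 : B2 ∈ c) (d1 : B1 ∈ c')
    (dl : Bl ∈ c') : False := by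
  have hint := conf_inter hk hS hcf hB1 c1 hB2 c2 hT (by omega)
  have hint' := conf_inter hk hS hcf' hB1 d1 hBl dl hT (by omega)
  have hcard : (c ∩ c').card ≤ 3 := by
    by_contra hcon
    have h4 : c ∩ c' = c := Finset.eq_of_subset_of_card_le Finset.inter_subset_left (by rw [hcf.1]; omega)
    have h5 : c ∩ c' = c' := Finset.eq_of_subset_of_card_le Finset.inter_subset_right (by rw [hcf'.1]; omega)
    exact hne (h4.symm.trans h5)
  by_cases h2 : 2 ≤ (c ∩ c').card
  · have h5 := conf_sub hk hcf (Finset.inter_subset_left (s₁ := c) (s₂ := c')) (by omega)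
    have h6 := ff_submod (k := k) (g := g) (V := V) c c'
    have h7 : 0 ≤ ff k g V (c ∪ c') := by
      refine ff_nonneg hk hS ⟨B1, Finset.mem_union_left _ c1⟩ ?_
      refine (Finset.card_union_le _ _).trans ?_
      rw [hcf.1, hcf'.1]; omega
    rw [conf_ff hk hcf, conf_ff hk hcf'] at h6
    linarith
  · have hcc : c ∩ c' = {B1} := by
      have h3 : B1 ∈ c ∩ c' := Finset.mem_inter.2 ⟨c1, d1⟩
      have h4 : (c ∩ c').card = 1 := by
        have := Finset.card_pos.2 ⟨B1, h3⟩
        omega
      obtain ⟨x, hx⟩ := Finset.card_eq_one.1 h4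
      rw [hx, Finset.mem_singleton] at h3
      rw [hx, h3]
    have h2l : B2 ≠ Bl := by
      rintro rfl
      have : B2 ∈ c ∩ c' := Finset.mem_inter.2 ⟨c2, dl⟩
      rw [hcc, Finset.mem_singleton] at this
      exact hB1 (this ▸ hB2)
    have hBl1 : Bl ≠ B1 := fun h => hB1 (h ▸ hBl)
    have hint2 : (T ∪ c) ∩ c' = {Bl, B1} := by
      rw [Finset.union_inter_distrib_right, hint', hcc]; rfl
    have h3 := ff_submod (k := k) (g := g) (V := V) T c
    have h4 : 0 ≤ ff k g V (T ∩ c) := by
      rw [hint]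
      refine ff_nonneg hk hS ⟨B2, by simp⟩ ?_
      simp; omega
    have h5 := ff_submod (k := k) (g := g) (V := V) (T ∪ c) c'
    have h6 : 1 ≤ ff k g V ((T ∪ c) ∩ c') := by
      rw [hint2]
      refine conf_sub hk hcf' ?_ (Or.inl (Finset.card_pair hBl1))
      intro x hx
      simp only [Finset.mem_insert, Finset.mem_singleton] at hx
      rcases hx with rfl | rfl
      · exact dl
      · exact d1
    have h7 : 0 ≤ ff k g V (T ∪ c ∪ c') := by
      refine ff_nonneg hk hS ⟨B2, by simp [hB2]⟩ ?_
      have e1 := Finset.card_union_le (T ∪ c) c'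
      have e2 := Finset.card_union_le T c
      rw [hcf.1] at e2
      rw [hcf'.1] at e1
      omega
    rw [conf_ff hk hcf] at h3
    rw [conf_ff hk hcf'] at h5
    linarith

theorem noCyc {L : ℕ} (hk : 2 * k < g) (hV : ∀ B, (V B).card = g)
    (hpts : ∀ B, ∀ p ∈ pts B, p.card = 2 * k ∧ p ⊆ V B) (hS : Sparse k g (4 * L + 20) V)
    (hC : ∀ c ∈ C, IsConf k g V c) (n : ℕ) (hn : n ≤ L) : ¬ Cyc pts C n := by
  induction n using Nat.strong_induction_on with
  | _ n ih =>
    rintro ⟨B1, B2, Bl, h1, hl, q, hne, a1, a2, a3, a4, hB, rfl⟩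
    have hmin : ∀ m < q.length, ¬ Cyc pts C m := fun m hm => ih m hm (by omega)
    have hnot := minimal_notMem hne a1 a2 a3 a4 hB hmin
    have hA := (walkA hk hV hpts hS hC q (by omega)).1 B2 rfl
    have hB2 : B2 ∈ TT C q.support := by
      rw [mem_TT]; exact ⟨_, q.start_mem_support, by simp [mm]⟩
    have hBl : Bl ∈ TT C q.support := by
      rw [mem_TT]; exact ⟨_, q.end_mem_support, by simp [mm]⟩
    have hcard : (TT C q.support).card ≤ 4 * (L + 1) := by
      refine (card_TT C (fun c hc => (hC c hc).1) _).trans ?_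
      rw [SimpleGraph.Walk.length_support]
      omega
    match h1, hl, hne, a1, a2, a3, a4 with
    | Sum.inl u, Sum.inl v, hne, a1, a2, a3, a4 =>
      exact casePP hk hV hpts hS (fun h => hne (by rw [h])) hnot hB2 hBl hA (by omega) a1 a2 a3 a4
    | Sum.inr c, Sum.inl v, hne, a1, a2, a3, a4 =>
      exact caseCP hk hV hpts hS (hC c a1.1) hnot hB2 hBl hA (by omega) a1.2 a2.2 a3 a4
    | Sum.inl u, Sum.inr c, hne, a1, a2, a3, a4 =>
      exact caseCP hk hV hpts hS (hC c a3.1) hnot hBl hB2 hA (by omega) a3.2 a4.2 a1 a2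
    | Sum.inr c, Sum.inr c', hne, a1, a2, a3, a4 =>
      exact caseCC hk hS (hC c a1.1) (hC c' a3.1) (fun h => hne (by rw [h])) hnot hB2 hBl hA (by omega)
        a1.2 a2.2 a3.2 a4.2

/-- extraction of a configuration from a cycle. -/
lemma cyc_of_cycle_block {pts : β → Finset P} (B : β) (w : (incG pts C).Walk (Sum.inl B) (Sum.inl B))
    (hw : w.IsCycle) : ∃ n ≤ w.length, Cyc pts C n := by
  match w, hw with
  | SimpleGraph.Walk.cons (v := Sum.inl B') hadj p, hw => exact absurd hadj (by simp [incG])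
  | SimpleGraph.Walk.cons (v := Sum.inr h1) a1 p, hw =>
    rw [SimpleGraph.Walk.cons_isCycle_iff] at hw
    obtain ⟨hp, he⟩ := hw
    have hp' := hp.reverse
    have hlen : p.reverse.length = p.length := SimpleGraph.Walk.length_reverse _
    have hedge : ∀ e, e ∈ p.reverse.edges ↔ e ∈ p.edges := by
      intro e; rw [SimpleGraph.Walk.edges_reverse, List.mem_reverse]
    generalize p.reverse = p2 at hp' hlen hedge
    match p2, hp', hlen, hedge with
    | SimpleGraph.Walk.cons (v := Sum.inl B') hadj r, hp', hlen, hedge => exact absurd hadj (by simp [incG])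
    | SimpleGraph.Walk.cons (v := Sum.inr hl) a3 r, hp', hlen, hedge =>
      rw [SimpleGraph.Walk.cons_isPath_iff] at hp'
      obtain ⟨hr, hB⟩ := hp'
      have hne : h1 ≠ hl := by
        rintro rfl
        apply he
        rw [← hedge]
        simp
      have hnn : ¬ r.Nil := fun h => hne (Sum.inr.inj h.eq).symm
      rw [SimpleGraph.Walk.not_nil_iff] at hnn
      obtain ⟨z, hadj, r2, hr2⟩ := hnn
      match z, hadj, r2, hr2 with
      | Sum.inr h', hadj, r2, hr2 => exact absurd hadj (by simp [incG])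
      | Sum.inl Bl, a4, r2, hr2 =>
        subst hr2
        have hB2 : Sum.inl B ∉ r2.reverse.support := by
          rw [SimpleGraph.Walk.support_reverse, List.mem_reverse]
          intro h
          exact hB (by rw [SimpleGraph.Walk.support_cons]; exact List.mem_cons_of_mem _ h)
        have hlen2 : r2.reverse.length = r2.length := SimpleGraph.Walk.length_reverse _
        generalize r2.reverse = r3 at hB2 hlen2
        match r3, hB2, hlen2 with
        | SimpleGraph.Walk.cons (v := Sum.inr h') hadj r4, hB2, hlen2 => exact absurd hadj (by simp [incG])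
        | SimpleGraph.Walk.cons (v := Sum.inl B2) a2 r4, hB2, hlen2 =>
          refine ⟨r4.length, ?_, B, B2, Bl, h1, hl, r4, hne, a1, a2, a3, a4.symm, ?_, rfl⟩
          · simp only [SimpleGraph.Walk.length_cons] at hlen hlen2 ⊢
            omega
          · intro h
            exact hB2 (by rw [SimpleGraph.Walk.support_cons]; exact List.mem_cons_of_mem _ h)

lemma cyc_of_cycle {pts : β → Finset P} (a : β ⊕ (P ⊕ Finset β)) (w : (incG pts C).Walk a a)
    (hw : w.IsCycle) : ∃ n ≤ w.length, Cyc pts C n := by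
  match a, w, hw with
  | Sum.inl B, w, hw => exact cyc_of_cycle_block B w hw
  | Sum.inr h, SimpleGraph.Walk.cons (v := Sum.inr h') hadj p, hw => exact absurd hadj (by simp [incG])
  | Sum.inr h, SimpleGraph.Walk.cons (v := Sum.inl B) hadj p, hw =>
    have hmem : Sum.inl B ∈ (SimpleGraph.Walk.cons hadj p).support := by
      rw [SimpleGraph.Walk.support_cons]
      exact List.mem_cons_of_mem _ p.start_mem_support
    obtain ⟨n, hn, hc⟩ := cyc_of_cycle_block B _ (hw.rotate hmem)
    refine ⟨n, ?_, hc⟩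
    rwa [SimpleGraph.Walk.length_rotate] at hn

end walks

end

theorem Sparse.inst {β α : Type} (i j : DecidableEq α) {k g s : ℕ} {V : β → Finset α}
    (h : @Sparse β α i k g s V) : @Sparse β α j k g s V := by
  have e : i = j := Subsingleton.elim _ _
  subst e
  exact h

theorem IsConf.inst {β α : Type} (i j : DecidableEq α) {k g : ℕ} {V : β → Finset α} {c : Finset β}
    (h : @IsConf β α i k g V c) : @IsConf β α j k g V c := by
  have e : i = j := Subsingleton.elim _ _
  subst e
  exact h

theorem t2 : T2 := by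
  intro k g L _ hg
  refine ⟨4 * L + 20, fun β α _ _ _ V pts hV hpts hS => ?_⟩
  intro a w hw
  by_contra hcon
  push Not at hcon
  obtain ⟨n, hn, hc⟩ := cyc_of_cycle a w hw
  refine noCyc (L := L) (pts := pts) hg hV hpts (Sparse.inst _ _ hS) ?_ n (by omega) hc
  intro c hc
  have := (Finset.mem_filter.1 hc).2
  exact IsConf.inst _ _ this

end UF58
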