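import Pool.Agent.helper58.UF.Count
import Pool.Agent.helper58.UF.Sample

/-! T3: sampling. -/

namespace UF58
open Finset

noncomputable section

/-- deterministic sizes. -/
lemma size_facts {k g ρ n D0 : ℕ} (hk : 1 ≤ k) (hg : 2 * k < g) (hρ : 1 ≤ ρ) (hn : 2 * g ≤ n)
    (hD : n.choose (2 * k) * D0 = ρ * n.descFactorial g) :
    0 < D0 ∧ (n : ℝ) ^ (g - 2 * k) ≤ 2 ^ g * (D0 : ℝ) ∧ 0 < (n.choose (2 * k) : ℝ) ∧
      (n : ℝ) ^ (2 * k) ≤ (2 ^ (2 * k) * (2 * k).factorial : ℝ) * (n.choose (2 * k) : ℝ) := by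
  have hN : 0 < n.choose (2 * k) := Nat.choose_pos (by omega)
  have hb : 0 < n.descFactorial g := Nat.descFactorial_pos.2 (by omega)
  have hD0 : 0 < D0 := by
    rcases Nat.eq_zero_or_pos D0 with h | h
    · rw [h, mul_zero] at hD
      have : 0 < ρ * n.descFactorial g := Nat.mul_pos hρ hb
      omega
    · exact h
  have hN' : (0 : ℝ) < (n.choose (2 * k) : ℝ) := by exact_mod_cast hN
  refine ⟨hD0, ?_, hN', ?_⟩
  · have h1 : (n + 1 - g) ^ g ≤ n.descFactorial g := Nat.pow_sub_le_descFactorial n g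
    have h2 : (n : ℝ) / 2 ≤ ((n + 1 - g : ℕ) : ℝ) := by
      have : n ≤ 2 * (n + 1 - g) := by omega
      have : (n : ℝ) ≤ 2 * ((n + 1 - g : ℕ) : ℝ) := by exact_mod_cast this
      linarith
    have h3 : ((n : ℝ) / 2) ^ g ≤ (n.descFactorial g : ℝ) :=
      (pow_le_pow_left₀ (by positivity) h2 g).trans (by exact_mod_cast h1)
    have h4 : (n.choose (2 * k) : ℝ) ≤ (n : ℝ) ^ (2 * k) := by exact_mod_cast Nat.choose_le_pow n (2 * k)
    have h5 : (n.choose (2 * k) : ℝ) * D0 = ρ * (n.descFactorial g : ℝ) := by exact_mod_cast hD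
    have h6 : (n : ℝ) ^ g = (n : ℝ) ^ (2 * k) * (n : ℝ) ^ (g - 2 * k) := by
      rw [← pow_add]; congr 1; omega
    have h7 : (n.descFactorial g : ℝ) ≤ (n.choose (2 * k) : ℝ) * D0 := by
      rw [h5]
      have : (1 : ℝ) ≤ ρ := by exact_mod_cast hρ
      exact le_mul_of_one_le_left (Nat.cast_nonneg _) this
    have h8 : (n : ℝ) ^ g ≤ 2 ^ g * ((n.choose (2 * k) : ℝ) * D0) := by
      have : ((n : ℝ) / 2) ^ g = (n : ℝ) ^ g / 2 ^ g := div_pow _ _ _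
      rw [this, div_le_iff₀ (by positivity)] at h3
      nlinarith [pow_pos (show (0:ℝ) < 2 by norm_num) g]
    have h9 : (n.choose (2 * k) : ℝ) * (n : ℝ) ^ (g - 2 * k) ≤
        (n.choose (2 * k) : ℝ) * (2 ^ g * (D0 : ℝ)) := by
      calc (n.choose (2 * k) : ℝ) * (n : ℝ) ^ (g - 2 * k) ≤ (n : ℝ) ^ (2 * k) * (n : ℝ) ^ (g - 2 * k) :=
            mul_le_mul_of_nonneg_right h4 (by positivity)
        _ = (n : ℝ) ^ g := h6.symm
        _ ≤ _ := h8
        _ = _ := by ring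
    exact le_of_mul_le_mul_left h9 hN'
  · have h1 : (n + 1 - 2 * k) ^ (2 * k) ≤ n.descFactorial (2 * k) := Nat.pow_sub_le_descFactorial n (2 * k)
    rw [Nat.descFactorial_eq_factorial_mul_choose] at h1
    have h2 : (n : ℝ) / 2 ≤ ((n + 1 - 2 * k : ℕ) : ℝ) := by
      have : n ≤ 2 * (n + 1 - 2 * k) := by omega
      have : (n : ℝ) ≤ 2 * ((n + 1 - 2 * k : ℕ) : ℝ) := by exact_mod_cast this
      linarith
    have h3 : ((n : ℝ) / 2) ^ (2 * k) ≤ ((2 * k).factorial : ℝ) * (n.choose (2 * k) : ℝ) :=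
      (pow_le_pow_left₀ (by positivity) h2 _).trans (by exact_mod_cast h1)
    rw [div_pow, div_le_iff₀ (by positivity)] at h3
    linarith

/-- the final inequality. -/
lemma numeric {k g ρ n D0 Δ u : ℕ} {η C0 Cb θ sB sC E : ℝ} (hk : 1 ≤ k) (hρ : 1 ≤ ρ) (hη : 0 < η) (hη1 : η < 1)
    (hC0 : C0 = 16 * (2 ^ g) ^ 4 * E * (2 ^ (2 * k) * (2 * k).factorial : ℝ) * ρ / η) (hE : 0 < E)
    (hΔ : 8 * ρ / η ^ 2 ≤ (Δ : ℝ)) (hΔ1 : 1 ≤ Δ) (hn : 0 < n)
    (hnC : 8 * Cb * (2 ^ (2 * k) * (2 * k).factorial : ℝ) * ρ / η ≤ n)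
    (hD0 : 0 < D0) (hN : 0 < (n.choose (2 * k) : ℝ))
    (hN2 : (n : ℝ) ^ (2 * k) ≤ (2 ^ (2 * k) * (2 * k).factorial : ℝ) * (n.choose (2 * k) : ℝ))
    (hD : n.choose (2 * k) * D0 = ρ * n.descFactorial g)
    (hθ : θ = (1 - η / 4) * Δ / D0) (hCb : 0 ≤ Cb)
    (hsB : sB ≤ Cb * (n : ℝ) ^ (2 * k - 1)) (hsC : sC ≤ ((Δ : ℝ) * 2 ^ g) ^ 4 * E * (n : ℝ) ^ (2 * k)) :
    (1 - η) * (Δ : ℝ) * (n.choose (2 * k) : ℝ) ≤ (ρ : ℝ) * (θ * (n.descFactorial g : ℝ) -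
      (n.choose (2 * k) : ℝ) * (((1 - η / 4) * Δ) * (1 / (4 * (Δ - (1 - η / 4) * Δ)))) - sB -
      (4 / (C0 * (Δ : ℝ) ^ 3)) * sC) := by
  set N : ℝ := (n.choose (2 * k) : ℝ) with hNdef
  set c3 : ℝ := (2 ^ (2 * k) * (2 * k).factorial : ℝ) with hc3
  have hc3pos : 0 < c3 := by positivity
  have hΔpos : (0 : ℝ) < Δ := by exact_mod_cast hΔ1
  have hρpos : (0 : ℝ) < ρ := by exact_mod_cast hρ
  have hnpos : (0 : ℝ) < n := by exact_mod_cast hn
  have hD0pos : (0 : ℝ) < D0 := by exact_mod_cast hD0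
  have hC0pos : 0 < C0 := by rw [hC0]; positivity
  have hD' : N * D0 = ρ * (n.descFactorial g : ℝ) := by rw [hNdef]; exact_mod_cast hD
  -- main term
  have e1 : ρ * (θ * (n.descFactorial g : ℝ)) = (1 - η / 4) * (Δ * N) := by
    have : ρ * (θ * (n.descFactorial g : ℝ)) = θ * (N * D0) := by rw [hD']; ring
    rw [this, hθ]; field_simp
  have e2 : ((1 - η / 4) * Δ) * (1 / (4 * ((Δ : ℝ) - (1 - η / 4) * Δ))) = (1 - η / 4) / η := by
    have : 4 * ((Δ : ℝ) - (1 - η / 4) * Δ) = η * Δ := by ring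
    rw [this]; field_simp
  have e3 : (ρ : ℝ) * (N * ((1 - η / 4) / η)) ≤ η / 8 * (Δ * N) := by
    have h1 : (ρ : ℝ) * ((1 - η / 4) / η) ≤ η / 8 * Δ := by
      have h2 : 8 * (ρ : ℝ) / η ^ 2 * (η / 8 * η) ≤ Δ * (η / 8 * η) :=
        mul_le_mul_of_nonneg_right hΔ (by positivity)
      have h3 : 8 * (ρ : ℝ) / η ^ 2 * (η / 8 * η) = ρ := by field_simp
      rw [h3] at h2
      rw [mul_div_assoc', div_le_iff₀ hη]
      nlinarith [mul_pos hρpos hη]
    calc (ρ : ℝ) * (N * ((1 - η / 4) / η)) = (ρ : ℝ) * ((1 - η / 4) / η) * N := by ring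
      _ ≤ η / 8 * Δ * N := mul_le_mul_of_nonneg_right h1 hN.le
      _ = _ := by ring
  have e4 : (ρ : ℝ) * sB ≤ η / 8 * (Δ * N) := by
    have h1 : (ρ : ℝ) * sB ≤ ρ * (Cb * (n : ℝ) ^ (2 * k - 1)) := mul_le_mul_of_nonneg_left hsB hρpos.le
    refine h1.trans ?_
    have h2 : (n : ℝ) ^ (2 * k - 1) * n = (n : ℝ) ^ (2 * k) := by
      rw [← pow_succ]; congr 1; omega
    refine le_of_mul_le_mul_right ?_ hnpos
    calc ρ * (Cb * (n : ℝ) ^ (2 * k - 1)) * n = ρ * Cb * ((n : ℝ) ^ (2 * k - 1) * n) := by ring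
      _ = ρ * Cb * (n : ℝ) ^ (2 * k) := by rw [h2]
      _ ≤ ρ * Cb * (c3 * N) := mul_le_mul_of_nonneg_left hN2 (by positivity)
      _ = (8 * Cb * c3 * ρ / η) * (η / 8 * N) := by field_simp
      _ ≤ n * (η / 8 * N) := mul_le_mul_of_nonneg_right hnC (by positivity)
      _ ≤ n * (η / 8 * N) * Δ := le_mul_of_one_le_right (by positivity) (by exact_mod_cast hΔ1)
      _ = η / 8 * (Δ * N) * n := by ring
  have e5 : (ρ : ℝ) * ((4 / (C0 * (Δ : ℝ) ^ 3)) * sC) ≤ η / 4 * (Δ * N) := by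
    have h0 : 0 ≤ 4 / (C0 * (Δ : ℝ) ^ 3) := by positivity
    have h1 : (4 / (C0 * (Δ : ℝ) ^ 3)) * sC ≤
        (4 / (C0 * (Δ : ℝ) ^ 3)) * (((Δ : ℝ) * 2 ^ g) ^ 4 * E * (c3 * N)) :=
      mul_le_mul_of_nonneg_left (hsC.trans (mul_le_mul_of_nonneg_left hN2 (by positivity))) h0
    refine (mul_le_mul_of_nonneg_left h1 hρpos.le).trans (le_of_eq ?_)
    rw [hC0]
    field_simp
    ring
  rw [e2]
  have : (ρ : ℝ) * (θ * (n.descFactorial g : ℝ) - N * ((1 - η / 4) / η) - sB -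
      (4 / (C0 * (Δ : ℝ) ^ 3)) * sC) = (ρ : ℝ) * (θ * (n.descFactorial g : ℝ)) -
      (ρ : ℝ) * (N * ((1 - η / 4) / η)) - ρ * sB - (ρ : ℝ) * ((4 / (C0 * (Δ : ℝ) ^ 3)) * sC) := by ring
  rw [this, e1]
  have hΔN : 0 < Δ * N := mul_pos hΔpos hN
  nlinarith

/-- vertex set of a family of placements. -/
def VV {g n : ℕ} (S : Finset (Fin g ↪ Fin n)) : Finset (Fin n) := S.biUnion (fun φ => univ.map φ)

/-- bad families. -/
def BadF (k g n s : ℕ) : Finset (Finset (Fin g ↪ Fin n)) :=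
  univ.filter (fun S => 2 ≤ S.card ∧ S.card ≤ s ∧ (VV S).card < 2 * k + S.card * (g - 2 * k))

/-- conflict families. -/
def ConfF (k g n : ℕ) : Finset (Finset (Fin g ↪ Fin n)) :=
  univ.filter (fun c => c.card = 4 ∧ (VV c).card ≤ 2 * k + 4 * (g - 2 * k))

/-- constant for bad families. -/
def cbad (k g s Δ : ℕ) : ℝ :=
  ∑ j ∈ range (s + 1), ((Δ : ℝ) * 2 ^ g) ^ j * 2 ^ ((2 * k + j * (g - 2 * k) - 1) ^ g)

lemma cbad_nonneg (k g s Δ : ℕ) : 0 ≤ cbad k g s Δ :=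
  Finset.sum_nonneg fun j _ => by positivity

lemma sum_bad {k g n s Δ : ℕ} (hk : 1 ≤ k) (hg : 2 * k < g) {θ : ℝ} (h0 : 0 ≤ θ)
    (hθ : θ * (n : ℝ) ^ (g - 2 * k) ≤ Δ * 2 ^ g) :
    ∑ S ∈ BadF k g n s, θ ^ S.card ≤ cbad k g s Δ * (n : ℝ) ^ (2 * k - 1) := by
  classical
  have hmaps : ∀ S ∈ BadF k g n s, S.card ∈ range (s + 1) := by
    intro S hS
    have := (Finset.mem_filter.1 hS).2.2.1
    exact Finset.mem_range.2 (by omega)
  rw [← Finset.sum_fiberwise_of_maps_to hmaps]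
  unfold cbad
  rw [Finset.sum_mul]
  refine Finset.sum_le_sum fun j _ => ?_
  have h1 : ∀ S ∈ (BadF k g n s).filter (fun S => S.card = j), θ ^ S.card = θ ^ j := by
    intro S hS
    rw [(Finset.mem_filter.1 hS).2]
  rw [Finset.sum_congr rfl h1, Finset.sum_const, nsmul_eq_mul]
  have h2 : (BadF k g n s).filter (fun S => S.card = j) ⊆
      (univ : Finset (Finset (Fin g ↪ Fin n))).filter
      (fun S => S.Nonempty ∧ (S.biUnion (fun φ => univ.map φ)).card ≤ 2 * k + j * (g - 2 * k) - 1) := by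
    intro S hS
    obtain ⟨h3, h4⟩ := Finset.mem_filter.1 hS
    obtain ⟨_, h5, h6, h7⟩ := Finset.mem_filter.1 h3
    refine Finset.mem_filter.2 ⟨Finset.mem_univ _, Finset.card_pos.1 (by omega), ?_⟩
    unfold VV at h7
    rw [h4] at h7
    omega
  have h3 := (Finset.card_le_card h2).trans (count_le (n := n) (by omega : 0 < g) _)
  have h4 : (((BadF k g n s).filter (fun S => S.card = j)).card : ℝ) ≤
      (n : ℝ) ^ (2 * k + j * (g - 2 * k) - 1) * 2 ^ ((2 * k + j * (g - 2 * k) - 1) ^ g) := by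
    exact_mod_cast h3
  have h5 : (n : ℝ) ^ (2 * k + j * (g - 2 * k) - 1) = (n : ℝ) ^ (2 * k - 1) * ((n : ℝ) ^ (g - 2 * k)) ^ j := by
    rw [← pow_mul, ← pow_add]
    congr 1
    rw [mul_comm (g - 2 * k) j]
    omega
  have h6 : (θ * (n : ℝ) ^ (g - 2 * k)) ^ j ≤ ((Δ : ℝ) * 2 ^ g) ^ j :=
    pow_le_pow_left₀ (by positivity) hθ j
  calc (((BadF k g n s).filter (fun S => S.card = j)).card : ℝ) * θ ^ j ≤
        ((n : ℝ) ^ (2 * k + j * (g - 2 * k) - 1) * 2 ^ ((2 * k + j * (g - 2 * k) - 1) ^ g)) * θ ^ j :=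
        mul_le_mul_of_nonneg_right h4 (by positivity)
    _ = (θ * (n : ℝ) ^ (g - 2 * k)) ^ j * 2 ^ ((2 * k + j * (g - 2 * k) - 1) ^ g) * (n : ℝ) ^ (2 * k - 1) := by
        rw [h5, mul_pow]; ring
    _ ≤ _ := by
        refine mul_le_mul_of_nonneg_right (mul_le_mul_of_nonneg_right h6 (by positivity)) (by positivity)

lemma sum_conf {k g n Δ : ℕ} (hg : 2 * k < g) {θ : ℝ} (h0 : 0 ≤ θ)
    (hθ : θ * (n : ℝ) ^ (g - 2 * k) ≤ Δ * 2 ^ g) :
    ∑ S ∈ ConfF k g n, θ ^ S.card ≤ ((Δ : ℝ) * 2 ^ g) ^ 4 * 2 ^ ((2 * k + 4 * (g - 2 * k)) ^ g) * (n : ℝ) ^ (2 * k) := by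
  have h1 : ∀ S ∈ ConfF k g n, θ ^ S.card = θ ^ 4 := by
    intro S hS
    rw [(Finset.mem_filter.1 hS).2.1]
  rw [Finset.sum_congr rfl h1, Finset.sum_const, nsmul_eq_mul]
  have h2 : ConfF k g n ⊆ (univ : Finset (Finset (Fin g ↪ Fin n))).filter
      (fun S => S.Nonempty ∧ (S.biUnion (fun φ => univ.map φ)).card ≤ 2 * k + 4 * (g - 2 * k)) := by
    intro S hS
    obtain ⟨_, h5, h6⟩ := Finset.mem_filter.1 hS
    exact Finset.mem_filter.2 ⟨Finset.mem_univ _, Finset.card_pos.1 (by omega), h6⟩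
  have h3 := (Finset.card_le_card h2).trans (count_le (n := n) (by omega : 0 < g) _)
  have h4 : ((ConfF k g n).card : ℝ) ≤
      (n : ℝ) ^ (2 * k + 4 * (g - 2 * k)) * 2 ^ ((2 * k + 4 * (g - 2 * k)) ^ g) := by
    exact_mod_cast h3
  have h5 : (n : ℝ) ^ (2 * k + 4 * (g - 2 * k)) = (n : ℝ) ^ (2 * k) * ((n : ℝ) ^ (g - 2 * k)) ^ 4 := by
    rw [← pow_mul, ← pow_add]
    congr 1
    ring
  have h6 : (θ * (n : ℝ) ^ (g - 2 * k)) ^ 4 ≤ ((Δ : ℝ) * 2 ^ g) ^ 4 :=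
    pow_le_pow_left₀ (by positivity) hθ 4
  calc ((ConfF k g n).card : ℝ) * θ ^ 4 ≤
        ((n : ℝ) ^ (2 * k + 4 * (g - 2 * k)) * 2 ^ ((2 * k + 4 * (g - 2 * k)) ^ g)) * θ ^ 4 :=
        mul_le_mul_of_nonneg_right h4 (by positivity)
    _ = (θ * (n : ℝ) ^ (g - 2 * k)) ^ 4 * 2 ^ ((2 * k + 4 * (g - 2 * k)) ^ g) * (n : ℝ) ^ (2 * k) := by
        rw [h5, mul_pow]; ring
    _ ≤ _ := by
        refine mul_le_mul_of_nonneg_right (mul_le_mul_of_nonneg_right h6 (by positivity)) (by positivity)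

end

theorem t3 : T3 := by
  classical
  intro k g U η hk hg hUne hU hη hη1
  set ρ := U.card with hρdef
  have hρ : 1 ≤ ρ := Finset.card_pos.2 hUne
  have hρpos : (0 : ℝ) < ρ := by exact_mod_cast hρ
  set E : ℝ := 2 ^ ((2 * k + 4 * (g - 2 * k)) ^ g) with hE
  have hEpos : 0 < E := by positivity
  set C0 : ℝ := 16 * (2 ^ g) ^ 4 * E * (2 ^ (2 * k) * (2 * k).factorial : ℝ) * ρ / η with hC0
  have hC0pos : 0 < C0 := by positivity
  refine ⟨C0, hC0pos, ⌈8 * ρ / η ^ 2⌉₊ + 1, fun Δ hΔ s => ?_⟩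
  have hΔ' : 8 * ρ / η ^ 2 ≤ (Δ : ℝ) := (Nat.le_ceil _).trans (Nat.cast_le.2 (by omega))
  have hΔ1 : 1 ≤ Δ := by omega
  have hΔpos : (0 : ℝ) < Δ := by exact_mod_cast hΔ1
  refine ⟨2 * g + Δ * 2 ^ g + ⌈8 * cbad k g s Δ * (2 ^ (2 * k) * (2 * k).factorial : ℝ) * ρ / η⌉₊,
    fun n hn => ?_⟩
  have hn1 : 2 * g ≤ n := by omega
  have hn0 : 0 < n := by omega
  have hnΔ : Δ * 2 ^ g ≤ n := by omega
  have hnC : 8 * cbad k g s Δ * (2 ^ (2 * k) * (2 * k).factorial : ℝ) * ρ / η ≤ n :=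
    (Nat.le_ceil _).trans (Nat.cast_le.2 (by omega))
  -- degree of points
  obtain ⟨p0, _, hp0⟩ := Finset.exists_subset_card_eq (s := (univ : Finset (Fin n))) (n := 2 * k)
    (by rw [Finset.card_univ, Fintype.card_fin]; omega)
  set D0 := (Pp U p0).card with hD0def
  have hD : n.choose (2 * k) * D0 = ρ * n.descFactorial g := card_Pp_mul U hU p0 hp0
  obtain ⟨hD0, hs1, hN, hN2⟩ := size_facts hk hg hρ hn1 hD
  have hD0pos : (0 : ℝ) < D0 := by exact_mod_cast hD0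
  set θ : ℝ := (1 - η / 4) * Δ / D0 with hθ
  have hθ0 : 0 ≤ θ := by
    have : 0 < 1 - η / 4 := by linarith
    positivity
  have hθ2 : θ * (n : ℝ) ^ (g - 2 * k) ≤ Δ * 2 ^ g := by
    rw [hθ, div_mul_eq_mul_div, div_le_iff₀ hD0pos]
    calc (1 - η / 4) * Δ * (n : ℝ) ^ (g - 2 * k) ≤ 1 * Δ * (2 ^ g * (D0 : ℝ)) := by
          refine mul_le_mul (mul_le_mul_of_nonneg_right (by linarith) hΔpos.le) hs1 (by positivity) (by positivity)
      _ = _ := by ring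
  have hθ1 : θ ≤ 1 := by
    have h1 : (n : ℝ) ≤ (n : ℝ) ^ (g - 2 * k) := by
      have : (1 : ℝ) ≤ n := by exact_mod_cast hn0
      exact le_self_pow₀ this (by omega)
    have h2 : (Δ : ℝ) * 2 ^ g ≤ n := by exact_mod_cast hnΔ
    have h3 : (0 : ℝ) < n := by exact_mod_cast hn0
    have h4 : θ * (n : ℝ) ≤ 1 * n := by
      calc θ * (n : ℝ) ≤ θ * (n : ℝ) ^ (g - 2 * k) := mul_le_mul_of_nonneg_left h1 hθ0
        _ ≤ Δ * 2 ^ g := hθ2
        _ ≤ 1 * n := by rw [one_mul]; exact h2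
    exact le_of_mul_le_mul_right h4 h3
  -- sampling
  have hdd : ∀ p : {p : Finset (Fin n) // p.card = 2 * k}, θ * ((Pp U p.1).card : ℝ) = (1 - η / 4) * Δ := by
    intro p
    rw [card_Pp_eq U (p.2.trans hp0.symm), ← hD0def, hθ]
    field_simp
  have hdΔ : (1 - η / 4) * (Δ : ℝ) < Δ := by nlinarith
  obtain ⟨T, hT⟩ := sampling hθ0 hθ1 (fun p : {p : Finset (Fin n) // p.card = 2 * k} => Pp U p.1)
    (BadF k g n s) (ConfF k g n) Δ (κ := 4 / (C0 * (Δ : ℝ) ^ 3)) hdd hdΔ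
  have hK : 0 < C0 * (Δ : ℝ) ^ 3 := by positivity
  obtain ⟨H, hHT, hH1, hH2, hH3, hH4⟩ := deletion (fun p : {p : Finset (Fin n) // p.card = 2 * k} => Pp U p.1)
    (BadF k g n s) (ConfF k g n) Δ hK
    (fun S hS => Finset.card_pos.1 (by have := (Finset.mem_filter.1 hS).2.1; omega))
    (fun c hc => (Finset.mem_filter.1 hc).2.1) T
  have hnum := numeric (u := 0) hk hρ hη hη1 hC0 hEpos hΔ' hΔ1 hn0 hnC hD0 hN hN2 hD hθ (cbad_nonneg k g s Δ)
    (sum_bad hk hg hθ0 hθ2) (sum_conf hg hθ0 hθ2)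
  have hcardPhi : (Fintype.card (Fin g ↪ Fin n) : ℝ) = (n.descFactorial g : ℝ) := by
    rw [Fintype.card_embedding_eq, Fintype.card_fin, Fintype.card_fin]
  have hcardPt : (Fintype.card {p : Finset (Fin n) // p.card = 2 * k} : ℝ) = (n.choose (2 * k) : ℝ) := by
    rw [Fintype.card_finset_len, Fintype.card_fin]
  rw [hcardPhi, hcardPt] at hT
  have hVV : ∀ S : Finset H, VV (S.map (Function.Embedding.subtype _)) =
      S.biUnion (fun φ : H => univ.map φ.1) := by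
    intro S
    unfold VV
    rw [Finset.map_eq_image, Finset.image_biUnion]
    rfl
  have hsubH : ∀ S : Finset H, S.map (Function.Embedding.subtype _) ⊆ H := by
    intro S x hx
    rw [Finset.mem_map] at hx
    obtain ⟨y, _, rfl⟩ := hx
    exact y.2
  refine ⟨H, ?_, ?_, ?_, ?_⟩
  · intro S hS hc
    by_contra hcon
    push Not at hcon
    have hcard : (S.map (Function.Embedding.subtype (· ∈ H))).card = S.card := Finset.card_map _
    rcases Nat.lt_or_ge S.card 2 with h2 | h2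
    · have h3 : S.card = 1 := by
        have := Finset.card_pos.2 hS
        omega
      obtain ⟨φ, rfl⟩ := Finset.card_eq_one.1 h3
      rw [Finset.singleton_biUnion, Finset.card_map, Finset.card_univ, Fintype.card_fin, h3] at hcon
      omega
    · refine hH2 (S.map (Function.Embedding.subtype _)) ?_ (hsubH S)
      refine Finset.mem_filter.2 ⟨Finset.mem_univ _, by rw [hcard]; exact h2, by rw [hcard]; exact hc, ?_⟩
      rw [hVV, hcard]
      exact hcon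
  · intro p
    by_cases hp : p.card = 2 * k
    · refine le_trans ?_ (hH1 ⟨p, hp⟩)
      rw [← Finset.card_map (Function.Embedding.subtype (· ∈ H))]
      refine Finset.card_le_card ?_
      intro x hx
      rw [Finset.mem_map] at hx
      obtain ⟨y, hy, rfl⟩ := hx
      rw [Finset.mem_inter]
      exact ⟨y.2, Finset.mem_filter.2 ⟨Finset.mem_univ _, (Finset.mem_filter.1 hy).2⟩⟩
    · have : (univ.filter (fun φ : H => ∃ q ∈ U, q.map φ.1 = p)) = ∅ := by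
        refine Finset.filter_eq_empty_iff.2 ?_
        rintro φ _ ⟨q, hq, rfl⟩
        exact hp (by rw [Finset.card_map]; exact hU q hq)
      rw [this]; simp
  · intro φ
    refine le_trans ?_ (hH3 φ.1 φ.2)
    have hinj : Function.Injective (fun c : Finset H => c.map (Function.Embedding.subtype (· ∈ H))) :=
      Finset.map_injective _
    rw [← Finset.card_map ⟨_, hinj⟩]
    refine Nat.cast_le.2 (Finset.card_le_card ?_)
    intro x hx
    rw [Finset.mem_map] at hx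
    obtain ⟨c, hc, rfl⟩ := hx
    obtain ⟨_, hc1, hc2⟩ := Finset.mem_filter.1 hc
    refine Finset.mem_filter.2 ⟨Finset.mem_filter.2 ⟨Finset.mem_univ _, ?_, ?_⟩, hsubH c, ?_⟩
    · show (c.map _).card = 4
      rw [Finset.card_map]; exact hc1.1
    · show (VV (c.map _)).card ≤ _
      rw [hVV]; exact hc1.2.1.le
    · show φ.1 ∈ c.map _
      exact Finset.mem_map.2 ⟨φ, hc2, rfl⟩
  · refine hnum.trans ?_
    refine mul_le_mul_of_nonneg_left ?_ hρpos.le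
    linarith

end UF58
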