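import Pool.Agent.helper58.UF.Core4

/-! T4. -/

namespace UF58
open Finset

section

variable {α : Type} [DecidableEq α]

lemma twoUnionFree_of {H : Finset (Finset α)} {r : ℕ} (hcard : ∀ X ∈ H, X.card = r)
    (h3 : ∀ A ∈ H, ∀ B ∈ H, ∀ D ∈ H, A ≠ B → A ≠ D → B ≠ D → A ∪ B ≠ A ∪ D)
    (h4 : ∀ A ∈ H, ∀ B ∈ H, ∀ C ∈ H, ∀ D ∈ H, A ≠ B → A ≠ C → A ≠ D → B ≠ C → B ≠ D → C ≠ D →
      A ∪ B ≠ C ∪ D) : TwoUnionFree H := by
  have key1 : ∀ X ∈ H, ∀ Y ∈ H, ∀ Z ∈ H, Y ≠ Z → X ≠ Y ∪ Z := by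
    intro X hX Y hY Z hZ hne heq
    have e1 : Y = Y ∪ Z := Finset.eq_of_subset_of_card_le Finset.subset_union_left
      (by rw [← heq, hcard X hX, hcard Y hY])
    have e2 : Z = Y ∪ Z := Finset.eq_of_subset_of_card_le Finset.subset_union_right
      (by rw [← heq, hcard X hX, hcard Z hZ])
    exact hne (e1.trans e2.symm)
  intro 𝒜 ℬ hA hB a1 a2 b1 b2 hne heq
  have ha : 𝒜.card = 1 ∨ 𝒜.card = 2 := by omega
  have hb : ℬ.card = 1 ∨ ℬ.card = 2 := by omega
  rcases ha with ha | ha <;> rcases hb with hb | hb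
  · obtain ⟨X, rfl⟩ := Finset.card_eq_one.1 ha
    obtain ⟨Y, rfl⟩ := Finset.card_eq_one.1 hb
    simp only [Finset.singleton_biUnion, id] at heq
    exact hne (by rw [heq])
  · obtain ⟨X, rfl⟩ := Finset.card_eq_one.1 ha
    obtain ⟨Y, Z, hYZ, rfl⟩ := Finset.card_eq_two.1 hb
    simp only [Finset.biUnion_insert, Finset.singleton_biUnion, id] at heq
    exact key1 X (hA (by simp)) Y (hB (by simp)) Z (hB (by simp)) hYZ heq
  · obtain ⟨X, rfl⟩ := Finset.card_eq_one.1 hb
    obtain ⟨Y, Z, hYZ, rfl⟩ := Finset.card_eq_two.1 ha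
    simp only [Finset.biUnion_insert, Finset.singleton_biUnion, id] at heq
    exact key1 X (hB (by simp)) Y (hA (by simp)) Z (hA (by simp)) hYZ heq.symm
  · obtain ⟨X, Y, hXY, rfl⟩ := Finset.card_eq_two.1 ha
    obtain ⟨Z, W, hZW, rfl⟩ := Finset.card_eq_two.1 hb
    simp only [Finset.biUnion_insert, Finset.singleton_biUnion, id] at heq
    have mX := hA (show X ∈ ({X, Y} : Finset (Finset α)) by simp)
    have mY := hA (show Y ∈ ({X, Y} : Finset (Finset α)) by simp)
    have mZ := hB (show Z ∈ ({Z, W} : Finset (Finset α)) by simp)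
    have mW := hB (show W ∈ ({Z, W} : Finset (Finset α)) by simp)
    by_cases h1 : X = Z
    · subst h1
      exact h3 X mX Y mY W mW hXY hZW (fun h => hne (by rw [h])) heq
    by_cases h2 : X = W
    · subst h2
      exact h3 X mX Y mY Z mZ hXY h1 (fun h => hne (by rw [h, Finset.pair_comm]))
        (by rw [heq, Finset.union_comm])
    by_cases h5 : Y = Z
    · subst h5
      exact h3 Y mY X mX W mW (Ne.symm hXY) hZW h2 (by rw [← heq, Finset.union_comm])
    by_cases h6 : Y = W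
    · subst h6
      exact h3 Y mY X mX Z mZ (Ne.symm hXY) h5 h1 (by rw [Finset.union_comm Y X, heq, Finset.union_comm])
    exact h4 X mX Y mY Z mZ W mW hXY h1 h2 h5 h6 hZW heq

lemma TwoUnionFree.free3 {H : Finset (Finset α)} (h : TwoUnionFree H) {A B D : Finset α} (hA : A ∈ H)
    (hB : B ∈ H) (hD : D ∈ H) (h1 : A ≠ B) (h2 : A ≠ D) (h3 : B ≠ D) : A ∪ B ≠ A ∪ D := by
  have := h {A, B} {A, D} (by simp [Finset.insert_subset_iff, hA, hB])
    (by simp [Finset.insert_subset_iff, hA, hD]) (by rw [Finset.card_pair h1]; norm_num)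
    (by rw [Finset.card_pair h1]) (by rw [Finset.card_pair h2]; norm_num)
    (by rw [Finset.card_pair h2]) (by
      intro he
      have : B ∈ ({A, D} : Finset (Finset α)) := by rw [← he]; simp
      simp only [Finset.mem_insert, Finset.mem_singleton] at this
      rcases this with h | h
      · exact h1 h.symm
      · exact h3 h)
  simpa only [Finset.biUnion_insert, Finset.singleton_biUnion, id] using this

lemma TwoUnionFree.free4 {H : Finset (Finset α)} (h : TwoUnionFree H) {A B C D : Finset α} (hA : A ∈ H)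
    (hB : B ∈ H) (hC : C ∈ H) (hD : D ∈ H) (hAB : A ≠ B) (hAC : A ≠ C) (hAD : A ≠ D)
    (hCD : C ≠ D) : A ∪ B ≠ C ∪ D := by
  have := h {A, B} {C, D} (by simp [Finset.insert_subset_iff, hA, hB])
    (by simp [Finset.insert_subset_iff, hC, hD]) (by rw [Finset.card_pair hAB]; norm_num)
    (by rw [Finset.card_pair hAB]) (by rw [Finset.card_pair hCD]; norm_num)
    (by rw [Finset.card_pair hCD]) (by
      intro he
      have : A ∈ ({C, D} : Finset (Finset α)) := by rw [← he]; simp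
      simp only [Finset.mem_insert, Finset.mem_singleton] at this
      rcases this with h | h
      · exact hAC h
      · exact hAD h)
  simpa only [Finset.biUnion_insert, Finset.singleton_biUnion, id] using this

end

lemma symm_card' {α : Type} [DecidableEq α] {X Y : Finset α} {k : ℕ} (hX : X.card = 3 * k)
    (hY : Y.card = 3 * k) : (symmDiff X Y).card + 2 * (X ∩ Y).card = 6 * k := by
  have h1 : symmDiff X Y = (X \ Y) ∪ (Y \ X) := rfl
  have h2 : Disjoint (X \ Y) (Y \ X) := disjoint_sdiff_sdiff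
  rw [h1, Finset.card_union_of_disjoint h2]
  have h3 := Finset.card_sdiff_add_card_inter X Y
  have h4 := Finset.card_sdiff_add_card_inter Y X
  rw [Finset.inter_comm Y X] at h4
  omega

lemma map_symmDiff' {α β : Type} [DecidableEq α] [DecidableEq β] (f : α ↪ β) (s t : Finset α) :
    (symmDiff s t).map f = symmDiff (s.map f) (t.map f) := by
  rw [Finset.map_eq_image, Finset.map_eq_image, Finset.map_eq_image, Finset.image_symmDiff _ _ f.injective]

theorem setup4 {k g n : ℕ} {G : Finset (Finset (Fin g))} (hk : 1 ≤ k) (hg : 3 * k ≤ g)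
    (hG : Good k g G) (M : Finset (Fin g ↪ Fin n)) [DecidableEq M]
    (hS : Sparse k g 4 (fun φ : M => univ.map φ.1))
    (hM : ∀ φ ∈ M, ∀ ψ ∈ M, φ ≠ ψ → ∀ p ∈ used k g G, ∀ q ∈ used k g G, p.map φ ≠ q.map ψ)
    (hC : ∀ c : Finset M, ¬ IsConf k g (fun φ : M => univ.map φ.1) c) :
    Setup4 k g (fun φ : M => univ.map φ.1) (fun φ X => ∃ E ∈ G, E.map φ.1 = X)
      (fun φ p => ∃ q ∈ used k g G, q.map φ.1 = p) where
  hk := hk
  hg := hg
  hV φ := by simp
  ed_sub := by
    rintro φ X ⟨E, hE, rfl⟩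
    exact Finset.map_subset_map.2 (Finset.subset_univ _)
  ed_card := by
    rintro φ X ⟨E, hE, rfl⟩
    rw [Finset.card_map]; exact hG.card E hE
  us_sub := by
    rintro φ X p ⟨E, hE, rfl⟩ hp hc
    rw [Finset.subset_map_iff] at hp
    obtain ⟨q, hq, rfl⟩ := hp
    rw [Finset.card_map] at hc
    refine ⟨q, ?_, rfl⟩
    unfold used
    rw [Finset.mem_filter, Finset.mem_powersetCard]
    exact ⟨⟨Finset.subset_univ _, hc⟩, Or.inl ⟨E, hE, hq⟩⟩
  us_symm := by
    rintro φ X Y ⟨E, hE, rfl⟩ ⟨E', hE', rfl⟩ hc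
    rw [← Finset.map_inter, Finset.card_map] at hc
    refine ⟨symmDiff E E', ?_, map_symmDiff' _ _ _⟩
    unfold used
    rw [Finset.mem_filter, Finset.mem_powersetCard]
    have h1 := symm_card' (hG.card E hE) (hG.card E' hE')
    refine ⟨⟨Finset.subset_univ _, by omega⟩, Or.inr ⟨E, hE, E', hE', ?_, ?_⟩⟩
    · convert hc
    · congr!
  ed_inter := by
    rintro φ X Y ⟨E, hE, rfl⟩ ⟨E', hE', rfl⟩ hne
    rw [← Finset.map_inter, Finset.card_map]
    exact hG.inter E hE E' hE' (fun h => hne (by rw [h]))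
  free3 := by
    rintro φ X Y Z ⟨E, hE, rfl⟩ ⟨E', hE', rfl⟩ ⟨E'', hE'', rfl⟩ h1 h2 h3
    rw [← Finset.map_union, ← Finset.map_union]
    intro h
    exact hG.free.free3 hE hE' hE'' (fun h => h1 (by rw [h])) (fun h => h2 (by rw [h]))
      (fun h => h3 (by rw [h])) (Finset.map_injective _ h)
  free4 := by
    rintro φ X Y Z W ⟨E, hE, rfl⟩ ⟨E', hE', rfl⟩ ⟨E'', hE'', rfl⟩ ⟨E3, hE3, rfl⟩ h1 h2 h3 h4 h5 h6
    rw [← Finset.map_union, ← Finset.map_union]
    intro h
    exact hG.free.free4 hE hE' hE'' hE3 (fun h => h1 (by rw [h])) (fun h => h2 (by rw [h]))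
      (fun h => h3 (by rw [h])) (fun h => h6 (by rw [h])) (Finset.map_injective _ h)
  us_disj := by
    rintro φ ψ p hne ⟨q, hq, rfl⟩ ⟨q', hq', h⟩
    exact hM φ.1 φ.2 ψ.1 ψ.2 (fun h => hne (Subtype.ext h)) q hq q' hq' h.symm
  sp := hS
  nc := hC

theorem t4 : T4 := by
  classical
  intro k g n G hk hG M hS hM hC
  rcases G.eq_empty_or_nonempty with rfl | ⟨E0, hE0⟩
  · refine ⟨∅, by simp, ?_, by simp⟩
    intro A B hA _ hA1
    rw [Finset.subset_empty.1 hA] at hA1
    simp at hA1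
  have hg : 3 * k ≤ g := by
    have h1 := Finset.card_le_univ E0
    rw [hG.card E0 hE0, Fintype.card_fin] at h1
    exact h1
  have S := setup4 hk hg hG M (by convert hS) hM (fun c hc => hC c (by convert hc))
  have hinj : Set.InjOn (fun x : (Fin g ↪ Fin n) × Finset (Fin g) => x.2.map x.1)
      ((M ×ˢ G : Finset _) : Set ((Fin g ↪ Fin n) × Finset (Fin g))) := by
    rintro ⟨φ, E⟩ hx ⟨ψ, E'⟩ hy (h : E.map φ = E'.map ψ)
    rw [Finset.mem_coe, Finset.mem_product] at hx hy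
    have h1 : (⟨φ, hx.1⟩ : M) = ⟨ψ, hy.1⟩ := S.same (X := E.map φ) ⟨E, hx.2, rfl⟩ (by
      rw [h]; exact Finset.map_subset_map.2 (Finset.subset_univ _))
    have h2 : φ = ψ := congrArg Subtype.val h1
    subst h2
    rw [Finset.map_injective _ h]
  refine ⟨(M ×ˢ G).image (fun x => x.2.map x.1), ?_, ?_, ?_⟩
  · intro e he
    rw [Finset.mem_image] at he
    obtain ⟨⟨φ, E⟩, hx, rfl⟩ := he
    rw [Finset.mem_product] at hx
    show (E.map φ).card = _
    rw [Finset.card_map]; exact hG.card E hx.2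
  · have hEd : ∀ X ∈ (M ×ˢ G).image (fun x : (Fin g ↪ Fin n) × Finset (Fin g) => x.2.map x.1),
        ∃ φ : M, ∃ E ∈ G, E.map φ.1 = X := by
      intro X hX
      rw [Finset.mem_image] at hX
      obtain ⟨⟨φ, E⟩, hx, rfl⟩ := hX
      rw [Finset.mem_product] at hx
      exact ⟨⟨φ, hx.1⟩, E, hx.2, rfl⟩
    refine twoUnionFree_of (r := 3 * k) ?_ ?_ ?_
    · intro X hX
      obtain ⟨φ, hφ⟩ := hEd X hX
      exact S.ed_card hφ
    · intro A hA B hB D hD h1 h2 h3
      obtain ⟨a, ha⟩ := hEd A hA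
      obtain ⟨b, hb⟩ := hEd B hB
      obtain ⟨d, hd⟩ := hEd D hD
      exact S.case3 ha hb hd h1 h2 h3
    · intro A hA B hB C hC' D hD h1 h2 h3 h4 h5 h6
      obtain ⟨a, ha⟩ := hEd A hA
      obtain ⟨b, hb⟩ := hEd B hB
      obtain ⟨c, hc⟩ := hEd C hC'
      obtain ⟨d, hd⟩ := hEd D hD
      exact S.case4 ha hb hc hd h1 h2 h3 h4 h5 h6
  · rw [Finset.card_image_of_injOn hinj, Finset.card_product]

end UF58
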