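import Pool.Agent.helper58.UF.T1
import Pool.Agent.helper58.UF.T2
import Pool.Agent.helper58.UF.T3
import Pool.Agent.helper58.UF.T4

/-! T5: the packing theorem. -/

namespace UF58
open Finset

lemma le_U2 {n r e : ℕ} {H : Finset (Finset (Fin n))} (h1 : ∀ F ∈ H, F.card = r) (h2 : TwoUnionFree H)
    (h3 : H.card = e) : e ≤ U2 n r := by
  refine le_csSup ?_ ⟨H, h1, h2, h3⟩
  refine ⟨Fintype.card (Finset (Fin n)), ?_⟩
  rintro e ⟨H, _, _, rfl⟩
  exact Finset.card_le_univ H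

lemma biUnion_map_sub {ι α : Type} [DecidableEq α] {s : ι → Prop} (V : ι → Finset α) (S : Finset {x // s x}) :
    (S.map (Function.Embedding.subtype s)).biUnion V = S.biUnion (fun φ => V φ.1) := by
  classical
  rw [Finset.map_eq_image, Finset.image_biUnion]
  rfl

theorem t5 : T5 := by
  classical
  intro k g G ε hk hG hGne hε
  rcases le_or_gt 1 ε with hε1 | hε1
  · refine ⟨0, fun n _ => ?_⟩
    have h1 : (1 - ε) * (G.card : ℝ) / ((used k g G).card : ℝ) * (n.choose (2 * k) : ℝ) ≤ 0 := by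
      refine mul_nonpos_of_nonpos_of_nonneg ?_ (Nat.cast_nonneg _)
      refine div_nonpos_of_nonpos_of_nonneg ?_ (Nat.cast_nonneg _)
      exact mul_nonpos_of_nonpos_of_nonneg (by linarith) (Nat.cast_nonneg _)
    exact h1.trans (Nat.cast_nonneg _)
  obtain ⟨E0, hE0⟩ := hGne
  have hg3 : 3 * k ≤ g := by
    have h1 := Finset.card_le_univ E0
    rw [hG.card E0 hE0, Fintype.card_fin] at h1
    exact h1
  have hg : 2 * k < g := by omega
  set U := used k g G with hUdef
  have hU : ∀ p ∈ U, p.card = 2 * k := by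
    intro p hp
    rw [hUdef] at hp
    unfold used at hp
    rw [Finset.mem_filter, Finset.mem_powersetCard] at hp
    exact hp.1.2
  have hUne : U.Nonempty := by
    obtain ⟨p, hp, hpc⟩ := Finset.exists_subset_card_eq (s := E0) (n := 2 * k) (by
      rw [hG.card E0 hE0]; omega)
    refine ⟨p, ?_⟩
    rw [hUdef]
    unfold used
    rw [Finset.mem_filter, Finset.mem_powersetCard]
    exact ⟨⟨Finset.subset_univ _, hpc⟩, Or.inl ⟨E0, hE0, hp⟩⟩
  have hρ : 1 ≤ U.card := Finset.card_pos.2 hUne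
  have hρpos : (0 : ℝ) < U.card := by exact_mod_cast hρ
  obtain ⟨C0, hC0, Δ0, h3⟩ := t3 k g U (ε / 2) hk hg hUne hU (by linarith) (by linarith)
  obtain ⟨L, Δ1, h1⟩ := t1 U.card C0 (ε / 2) hρ hC0 (by linarith)
  obtain ⟨s, h2⟩ := t2 k g L hk hg
  set Δ := max Δ0 Δ1 + 1 with hΔ
  have hΔpos : (0 : ℝ) < Δ := by rw [hΔ]; exact_mod_cast Nat.succ_pos _
  obtain ⟨n0, h4⟩ := h3 Δ (by omega) (max s 4)
  refine ⟨n0, fun n hn => ?_⟩
  obtain ⟨H, hsp, hdeg, hcdeg, hcard⟩ := h4 n hn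
  set V : H → Finset (Fin n) := fun φ => univ.map φ.1 with hV
  set pts : H → Finset (Finset (Fin n)) := fun φ => U.image (fun q => q.map φ.1) with hptsdef
  have hmem : ∀ (φ : H) (p : Finset (Fin n)), p ∈ pts φ ↔ ∃ q ∈ U, q.map φ.1 = p := by
    intro φ p
    rw [hptsdef]
    simp only [Finset.mem_image]
  have hsps : Sparse k g s V := fun S hS hc => hsp S hS (hc.trans (le_max_left _ _))
  have hsp4 : Sparse k g 4 V := fun S hS hc => hsp S hS (hc.trans (le_max_right _ _))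
  have hVc : ∀ B, (V B).card = g := by
    intro B; rw [hV]; simp
  have hL : NoShortCycle L pts (univ.filter (fun c => IsConf k g V c)) := by
    refine h2 H (Fin n) V pts hVc ?_ hsps
    intro B p hp
    rw [hmem] at hp
    obtain ⟨q, hq, rfl⟩ := hp
    refine ⟨by rw [Finset.card_map]; exact hU q hq, Finset.map_subset_map.2 (Finset.subset_univ _)⟩
  obtain ⟨M, hM1, hM2, hM3⟩ := h1 Δ (by omega) H (Finset (Fin n)) pts (univ.filter (fun c => IsConf k g V c))
    (fun φ => Finset.card_image_of_injective _ (Finset.map_injective _))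
    (fun p => by
      refine le_trans (le_of_eq ?_) (hdeg p)
      congr 1
      ext φ
      simp only [Finset.mem_filter, Finset.mem_univ, true_and]
      exact hmem φ p)
    (fun c hc => (Finset.mem_filter.1 hc).2.1)
    (fun φ => by
      refine le_trans (le_of_eq ?_) (hcdeg φ)
      rw [Finset.filter_filter])
    hL
  -- transfer
  set M' : Finset (Fin g ↪ Fin n) := M.map (Function.Embedding.subtype _) with hM'
  have hM'mem : ∀ φ ∈ M', ∃ h : φ ∈ H, (⟨φ, h⟩ : H) ∈ M := by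
    intro φ hφ
    rw [hM', Finset.mem_map] at hφ
    obtain ⟨y, hy, rfl⟩ := hφ
    exact ⟨y.2, hy⟩
  let ι : M' → H := fun φ => ⟨φ.1, (hM'mem φ.1 φ.2).choose⟩
  have hιM : ∀ φ, ι φ ∈ M := fun φ => (hM'mem φ.1 φ.2).choose_spec
  have hιinj : Function.Injective ι := by
    intro φ ψ h
    exact Subtype.ext (congrArg (fun x : H => x.1) h)
  have hbi : ∀ S : Finset M', (S.map ⟨ι, hιinj⟩).biUnion V = S.biUnion (fun φ : M' => univ.map φ.1) := by
    intro S
    rw [Finset.map_eq_image, Finset.image_biUnion]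
    rfl
  obtain ⟨F, hF1, hF2, hF3⟩ := t4 k g n G hk hG M' (by
      intro S hS hc
      have := hsp4 (S.map ⟨ι, hιinj⟩) (hS.map) (by rw [Finset.card_map]; exact hc)
      rw [hbi, Finset.card_map] at this
      exact this)
    (by
      intro φ hφ ψ hψ hne p hp q hq heq
      obtain ⟨h5, h6⟩ := hM'mem φ hφ
      obtain ⟨h7, h8⟩ := hM'mem ψ hψ
      have h9 := hM1 _ h6 _ h8 (fun h => hne (congrArg (fun x : H => x.1) h))
      have h10 : p.map φ ∈ pts ⟨φ, h5⟩ := (hmem _ _).2 ⟨p, hp, rfl⟩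
      have h11 : p.map φ ∈ pts ⟨ψ, h7⟩ := (hmem _ _).2 ⟨q, hq, heq.symm⟩
      exact Finset.disjoint_left.1 h9 h10 h11)
    (by
      intro c hc
      refine hM2 (c.map ⟨ι, hιinj⟩) ?_ ?_
      · refine Finset.mem_filter.2 ⟨Finset.mem_univ _, ?_, ?_, ?_⟩
        · rw [Finset.card_map]; exact hc.1
        · rw [hbi]; exact hc.2.1
        · intro c' hc' hcc
          rw [Finset.subset_map_iff] at hc'
          obtain ⟨d, hd, rfl⟩ := hc'
          rw [hbi, Finset.card_map]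
          rw [Finset.card_map] at hcc
          exact hc.2.2 d hd hcc
      · intro x hx
        rw [Finset.mem_map] at hx
        obtain ⟨y, _, rfl⟩ := hx
        exact hιM y)
  have hcardM : M'.card = M.card := by rw [hM', Finset.card_map]
  have hU2 := le_U2 hF1 hF2 hF3
  rw [hcardM] at hU2
  have hU2' : (M.card : ℝ) * (G.card : ℝ) ≤ (U2 n (3 * k) : ℝ) := by exact_mod_cast hU2
  have hH : (Fintype.card H : ℝ) = (H.card : ℝ) := by rw [Fintype.card_coe]
  rw [hH] at hM3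
  have hNn : (0 : ℝ) ≤ (n.choose (2 * k) : ℝ) := Nat.cast_nonneg _
  have hmain : (1 - ε) * (n.choose (2 * k) : ℝ) ≤ (U.card : ℝ) * (M.card : ℝ) := by
    have e1 : (1 - ε / 2) * ((1 - ε / 2) * (Δ : ℝ) * (n.choose (2 * k) : ℝ)) ≤
        (1 - ε / 2) * ((U.card : ℝ) * (H.card : ℝ)) := mul_le_mul_of_nonneg_left hcard (by linarith)
    have e2 : (U.card : ℝ) * ((1 - ε / 2) * (H.card : ℝ)) ≤ (U.card : ℝ) * ((Δ : ℝ) * (M.card : ℝ)) :=
      mul_le_mul_of_nonneg_left hM3 hρpos.le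
    have e3 : (Δ : ℝ) * ((1 - ε) * (n.choose (2 * k) : ℝ)) ≤ (Δ : ℝ) * ((U.card : ℝ) * (M.card : ℝ)) := by
      have e4 : (Δ : ℝ) * ((1 - ε) * (n.choose (2 * k) : ℝ)) ≤
          (1 - ε / 2) * ((1 - ε / 2) * (Δ : ℝ) * (n.choose (2 * k) : ℝ)) := by
        have : 0 ≤ (Δ : ℝ) * (n.choose (2 * k) : ℝ) := mul_nonneg hΔpos.le hNn
        nlinarith [mul_nonneg (sq_nonneg ε) this]
      calc _ ≤ _ := e4
        _ ≤ _ := e1
        _ = (U.card : ℝ) * ((1 - ε / 2) * (H.card : ℝ)) := by ring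
        _ ≤ _ := e2
        _ = _ := by ring
    exact le_of_mul_le_mul_left e3 hΔpos
  refine le_trans ?_ hU2'
  rw [div_mul_eq_mul_div, div_le_iff₀ hρpos]
  have hGc : (0 : ℝ) ≤ (G.card : ℝ) := Nat.cast_nonneg _
  nlinarith [mul_le_mul_of_nonneg_right hmain hGc]

end UF58
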